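import Pool.Agent.Lib.MP_37c7bf_LG.Defs

/-!
Module B. Bars between three points in generic position: consequences of differentiating
linear relations between bar functionals.
-/

set_option autoImplicit false

open Module

namespace Pool.Agent.LG

variable {k : Type*} [Field k] {M : Type*} [AddCommGroup M] [Module k M]

lemma dt_single (a : Vec k) (i : Fin 3) : dt a (Pi.single i 1) = a i := by
  fin_cases i <;> simp [dt]

lemma dt_zero (a : Vec k) : dt a 0 = 0 := by simp [dt]

lemma cr_single_eq_zero {a : Vec k} (h : ∀ i : Fin 3, cr a (Pi.single i 1) = 0) : a = 0 := by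
  have h0 := h 0
  have h1 := h 1
  have e1 := congrFun h0 1
  have e2 := congrFun h0 2
  have e3 := congrFun h1 2
  simp at e1 e2 e3
  exact vec_ext (by simpa using e3) (by simpa using e2) (by simpa using e1)

/-- antisymmetry -/
lemma cr_single_swap (a : Vec k) (i j : Fin 3) :
    cr a (Pi.single i 1) j = - cr a (Pi.single j 1) i := by
  fin_cases i <;> fin_cases j <;> simp

lemma scr_zero {s : Scr k} {x : Vec k} (h1 : s.1 = 0) (h2 : ev x s = 0) : s = 0 := by
  have : s.2 = 0 := by
    rw [ev_apply, h1] at h2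
    apply vec_ext
    · have := congrFun h2 0; simpa using this
    · have := congrFun h2 1; simpa using this
    · have := congrFun h2 2; simpa using this
  exact Prod.ext h1 this

/-- Three points with dual derivations. -/
structure Trip (P : Fin 3 → Vec k) (D : Fin 3 → Fin 3 → Derivation ℤ k k) : Prop where
  self : ∀ j i, dV (D j i) (P j) = Pi.single i 1
  other : ∀ j l, j ≠ l → ∀ i, dV (D j i) (P l) = 0

/-- `x : M → Scr k` is compatible with the action `δ` of the derivations on `M`. -/
def Cpt (D : Fin 3 → Fin 3 → Derivation ℤ k k) (δ : Fin 3 → Fin 3 → M → M)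
    (x : M →ₗ[k] Scr k) : Prop :=
  ∀ j i s, x (δ j i s) = dS (D j i) (x s)

variable {P : Fin 3 → Vec k} {D : Fin 3 → Fin 3 → Derivation ℤ k k} {δ : Fin 3 → Fin 3 → M → M}
  {x y : M →ₗ[k] Scr k}

/-- Two points only. -/
theorem bar_zero_two {P Q : Vec k} {DP DQ : Fin 3 → Derivation ℤ k k}
    (hPP : ∀ i, dV (DP i) P = Pi.single i 1) (hPQ : ∀ i, dV (DP i) Q = 0)
    (hQQ : ∀ i, dV (DQ i) Q = Pi.single i 1) {δP δQ : Fin 3 → M → M}
    (hxP : ∀ i s, x (δP i s) = dS (DP i) (x s)) (hxQ : ∀ i s, x (δQ i s) = dS (DQ i) (x s))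
    (h : ∀ s, bar P Q (x s) = 0) : ∀ s, x s = 0 := by
  have h1 : ∀ s, ev Q (x s) = 0 := by
    intro s
    have : ∀ i, ev Q (x s) i = 0 := by
      intro i
      have e := D_bar (DP i) P Q (x s)
      rw [h s, map_zero, ← hxP, h, hPP, hPQ, dt_single, dt_zero] at e
      simpa using e.symm
    funext i; exact this i
  intro s
  have h2 : (x s).1 = 0 := by
    apply cr_single_eq_zero
    intro i
    have e := dV_ev (DQ i) Q (x s)
    rw [h1 s, ← hxQ, h1, hQQ, zero_add] at e
    rw [← e]
    funext j; simp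
  exact scr_zero h2 (h1 s)

/-- B1 -/
theorem bar_zero (hP : Trip P D) (hx : Cpt D δ x) {a b : Fin 3} (hab : a ≠ b)
    (h : ∀ s, bar (P a) (P b) (x s) = 0) : ∀ s, x s = 0 :=
  bar_zero_two (hP.self a) (hP.other a b hab) (hP.self b) (hx a) (hx b) h

/-- derivative of a bar in its first end -/
lemma D_bar_left (hP : Trip P D) {a b : Fin 3} (hab : a ≠ b) (i : Fin 3) (s : Scr k) :
    D a i (bar (P a) (P b) s) = bar (P a) (P b) (dS (D a i) s) + ev (P b) s i := by
  rw [D_bar, hP.self, hP.other a b hab, dt_single, dt_zero, sub_zero]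

/-- derivative of a bar in its second end -/
lemma D_bar_right (hP : Trip P D) {a b : Fin 3} (hab : a ≠ b) (i : Fin 3) (s : Scr k) :
    D b i (bar (P a) (P b) s) = bar (P a) (P b) (dS (D b i) s) - ev (P a) s i := by
  rw [D_bar, hP.self, hP.other b a hab.symm, dt_single, dt_zero, add_zero]

/-- derivative of the velocity of another point -/
lemma D_ev_other (hP : Trip P D) {a b : Fin 3} (hab : a ≠ b) (i j : Fin 3) (s : Scr k) :
    D a i (ev (P b) s j) = ev (P b) (dS (D a i) s) j := by
  have e := congrFun (dV_ev (D a i) (P b) s) j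
  rw [hP.other a b hab] at e
  have h0 : cr s.1 0 = 0 := by apply vec_ext <;> simp
  rw [h0, add_zero] at e
  exact e

/-- derivative of the velocity of the point itself -/
lemma D_ev_self (hP : Trip P D) (a i j : Fin 3) (s : Scr k) :
    D a i (ev (P a) s j) = ev (P a) (dS (D a i) s) j + cr s.1 (Pi.single i 1) j := by
  have e := congrFun (dV_ev (D a i) (P a) s) j
  rw [hP.self] at e
  exact e

/-- B2 -/
theorem bar_rank_one [CharZero k] (hP : Trip P D) (hx : Cpt D δ x) {a b : Fin 3} (hab : a ≠ b)
    (g : Vec k) (h : ∀ s, ev (P b) (x s) = bar (P a) (P b) (x s) • g) :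
    ∀ s, bar (P a) (P b) (x s) = 0 → x s = 0 := by
  intro s hs
  have h1 : ev (P b) (x s) = 0 := by rw [h s, hs, zero_smul]
  -- differentiate at `b`
  have key : ∀ i j, cr (x s).1 (Pi.single i 1) j = - (ev (P a) (x s) i * g j) := by
    intro i j
    have e := D_ev_self hP b i j (x s)
    have e1 : ev (P b) (x s) j = bar (P a) (P b) (x s) * g j := by rw [h s]; rfl
    rw [e1, (D b i).leibniz, D_bar_right hP hab, hs, ← hx b i s, h (δ b i s)] at e
    simp only [smul_eq_mul, zero_mul, Pi.smul_apply] at e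
    linear_combination -e
  have hw : ∀ i j, ev (P a) (x s) i * g j = - (ev (P a) (x s) j * g i) := by
    intro i j
    have e1 := key i j
    have e2 := key j i
    have e3 := cr_single_swap (x s).1 i j
    rw [e1, e2] at e3
    linear_combination -e3
  have h2 : (x s).1 = 0 := by
    apply cr_single_eq_zero
    intro i
    funext j
    rw [key i j]
    simp only [Pi.zero_apply, neg_eq_zero]
    by_cases hg : g = 0
    · rw [hg]; simp
    · obtain ⟨l, hl⟩ : ∃ l, g l ≠ 0 := by
        by_contra hcon
        push Not at hcon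
        exact hg (funext hcon)
      have hwl : ev (P a) (x s) l = 0 := by
        have e := hw l l
        have : 2 * (ev (P a) (x s) l * g l) = 0 := by linear_combination e
        rcases mul_eq_zero.1 this with h2 | h2
        · exact absurd h2 two_ne_zero
        · exact (mul_eq_zero.1 h2).resolve_right hl
      have hwi : ev (P a) (x s) i = 0 := by
        have e := hw i l
        rw [hwl, zero_mul, neg_zero] at e
        exact (mul_eq_zero.1 e).resolve_right hl
      rw [hwi, zero_mul]
  exact scr_zero h2 h1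

/-- half of B3 -/
lemma bar_prop_left [CharZero k] (hP : Trip P D) (hx : Cpt D δ x) (hy : Cpt D δ y) {a b : Fin 3}
    (hab : a ≠ b) (c : k) (h : ∀ s, bar (P a) (P b) (y s) = c * bar (P a) (P b) (x s)) :
    (∀ s, bar (P a) (P b) (x s) = 0 → x s = 0) ∨ ∀ i, D a i c = 0 := by
  by_cases hc : ∀ i, D a i c = 0
  · exact Or.inr hc
  left
  push Not at hc
  obtain ⟨i, hi⟩ := hc
  -- first derivatives
  have h1 : ∀ i s, ev (P b) (y s) i =
      c * ev (P b) (x s) i + D a i c * bar (P a) (P b) (x s) := by
    intro i s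
    have e1 := D_bar_left hP hab i (y s)
    have e2 := D_bar_left hP hab i (x s)
    have e3 := h (δ a i s)
    rw [hx, hy] at e3
    rw [h s, (D a i).leibniz, e2, e3] at e1
    simp only [smul_eq_mul] at e1
    linear_combination -e1
  -- second derivatives
  have h2 : ∀ i j s, D a j c * ev (P b) (x s) i + D a i c * ev (P b) (x s) j +
      D a j (D a i c) * bar (P a) (P b) (x s) = 0 := by
    intro i j s
    have e1 := D_ev_other hP hab j i (y s)
    have e2 := D_ev_other hP hab j i (x s)
    have e3 := D_bar_left hP hab j (x s)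
    have e4 := h1 i (δ a j s)
    rw [hx, hy] at e4
    rw [h1 i s, map_add, (D a j).leibniz, (D a j).leibniz, e2, e3, e4] at e1
    simp only [smul_eq_mul] at e1
    linear_combination e1
  -- the velocity is a multiple of the bar
  refine bar_rank_one hP hx hab
    (fun j => (- D a j (D a i c) + D a j c * (D a i (D a i c) / (2 * D a i c))) / D a i c) ?_
  intro s
  have hXi : ev (P b) (x s) i = - (D a i (D a i c) / (2 * D a i c)) *
      bar (P a) (P b) (x s) := by
    have e := h2 i i s
    field_simp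
    linear_combination e
  funext j
  have e := h2 i j s
  rw [hXi] at e
  simp only [Pi.smul_apply, smul_eq_mul]
  have e' : D a i c * ev (P b) (x s) j = (- D a j (D a i c) + D a j c *
      (D a i (D a i c) / (2 * D a i c))) * bar (P a) (P b) (x s) := by
    linear_combination e
  rw [mul_div_assoc', eq_div_iff hi]
  linear_combination e'

/-- B3 -/
theorem bar_prop [CharZero k] (hP : Trip P D) (hx : Cpt D δ x) (hy : Cpt D δ y) {a b : Fin 3}
    (hab : a ≠ b) (c : k) (h : ∀ s, bar (P a) (P b) (y s) = c * bar (P a) (P b) (x s)) :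
    (∀ s, bar (P a) (P b) (x s) = 0 → x s = 0) ∨
      ((∀ s, y s = c • x s) ∧ (∀ i, D a i c = 0) ∧ ∀ i, D b i c = 0) := by
  rcases bar_prop_left hP hx hy hab c h with h1 | h1
  · exact Or.inl h1
  have h' : ∀ s, bar (P b) (P a) (y s) = c * bar (P b) (P a) (x s) := by
    intro s
    rw [bar_swap (P b), bar_swap (P b) (P a), h s]; ring
  rcases bar_prop_left hP hx hy hab.symm c h' with h2 | h2
  · left
    intro s hs
    exact h2 s (by rw [bar_swap, hs, neg_zero])
  right
  refine ⟨?_, h1, h2⟩
  have h3 : ∀ s i, ev (P b) (y s) i = c * ev (P b) (x s) i := by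
    intro s i
    have e1 := D_bar_left hP hab i (y s)
    have e2 := D_bar_left hP hab i (x s)
    have e3 := h (δ a i s)
    rw [hx, hy] at e3
    rw [h s, (D a i).leibniz, e2, e3, h1 i] at e1
    simp only [smul_eq_mul, mul_zero, add_zero] at e1
    linear_combination -e1
  intro s
  have h4 : (y s - c • x s).1 = 0 := by
    apply cr_single_eq_zero
    intro i
    funext j
    have e1 := D_ev_self hP b i j (y s)
    have e2 := D_ev_self hP b i j (x s)
    have e3 := h3 (δ b i s) j
    rw [hx, hy] at e3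
    rw [h3 s j, (D b i).leibniz, e2, e3, h2 i] at e1
    simp only [smul_eq_mul, mul_zero, add_zero] at e1
    have e4 : cr (y s - c • x s).1 (Pi.single i 1) j =
        cr (y s).1 (Pi.single i 1) j - c * cr (x s).1 (Pi.single i 1) j := by
      fin_cases j <;> simp <;> ring
    rw [e4]
    simp only [Pi.zero_apply]
    linear_combination -e1
  have h5 : ev (P b) (y s - c • x s) = 0 := by
    rw [map_sub, map_smul]
    funext i
    have := h3 s i
    simp only [Pi.sub_apply, Pi.smul_apply, smul_eq_mul, Pi.zero_apply]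
    rw [this, sub_self]
  exact sub_eq_zero.1 (scr_zero h4 h5)

/-- B4 -/
theorem bar_dep [CharZero k] (hP : Trip P D) (hx : Cpt D δ x) {a b e : Fin 3} (hab : a ≠ b)
    (hbe : b ≠ e) (hae : a ≠ e) (c : k)
    (h : ∀ s, bar (P b) (P e) (x s) = c * bar (P a) (P b) (x s)) :
    ∀ s, bar (P a) (P b) (x s) = 0 → x s = 0 := by
  by_cases hc : c = 0
  · intro s _
    exact bar_zero hP hx hbe (fun s => by rw [h s, hc, zero_mul]) s
  -- differentiate at `a`
  have h1 : ∀ i s, D a i c * bar (P a) (P b) (x s) + c * ev (P b) (x s) i = 0 := by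
    intro i s
    have e1 : D a i (bar (P b) (P e) (x s)) = bar (P b) (P e) (dS (D a i) (x s)) := by
      rw [D_bar, hP.other a b hab, hP.other a e hae, dt_zero, dt_zero, add_zero, sub_zero]
    have e2 := D_bar_left hP hab i (x s)
    have e3 := h (δ a i s)
    rw [hx] at e3
    rw [h s, (D a i).leibniz, e2, e3] at e1
    simp only [smul_eq_mul] at e1
    linear_combination e1
  refine bar_rank_one hP hx hab (fun i => - D a i c / c) ?_
  intro s
  funext i
  have e := h1 i s
  simp only [Pi.smul_apply, smul_eq_mul]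
  rw [mul_div_assoc', eq_div_iff hc]
  linear_combination e

/-- B5 -/
theorem bar_span_two (hP : Trip P D) (hx : Cpt D δ x) (hy : Cpt D δ y)
    (h02 : ∃ α β : k, ∀ s, bar (P 0) (P 2) (x s) =
      α * bar (P 0) (P 1) (x s) + β * bar (P 0) (P 1) (y s))
    (h12 : ∃ α β : k, ∀ s, bar (P 1) (P 2) (x s) =
      α * bar (P 0) (P 1) (x s) + β * bar (P 0) (P 1) (y s))
    (h12' : ∃ α β : k, ∀ s, bar (P 1) (P 2) (y s) =
      α * bar (P 0) (P 1) (x s) + β * bar (P 0) (P 1) (y s)) :
    ∀ s, bar (P 0) (P 1) (x s) = 0 → bar (P 0) (P 1) (y s) = 0 → x s = 0 := by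
  have n01 : (0 : Fin 3) ≠ 1 := by decide
  have n02 : (0 : Fin 3) ≠ 2 := by decide
  have n12 : (1 : Fin 3) ≠ 2 := by decide
  have n21 : (2 : Fin 3) ≠ 1 := by decide
  have n20 : (2 : Fin 3) ≠ 0 := by decide
  -- differentiate at the third point
  have stab : ∀ (i : Fin 3) (s : Scr k),
      D 2 i (bar (P 0) (P 1) s) = bar (P 0) (P 1) (dS (D 2 i) s) := by
    intro i s
    rw [D_bar, hP.other 2 0 n20, hP.other 2 1 n21, dt_zero, dt_zero, add_zero, sub_zero]
  have third : ∀ (z : M →ₗ[k] Scr k) (hz : Cpt D δ z) (a : Fin 3) (ha : a ≠ 2)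
      (_ : ∃ α β : k, ∀ s, bar (P a) (P 2) (z s) =
        α * bar (P 0) (P 1) (x s) + β * bar (P 0) (P 1) (y s)),
      ∀ i, ∃ α β : k, ∀ s, ev (P a) (z s) i =
        α * bar (P 0) (P 1) (x s) + β * bar (P 0) (P 1) (y s) := by
    rintro z hz a ha ⟨α, β, h⟩ i
    refine ⟨- D 2 i α, - D 2 i β, fun s => ?_⟩
    have e1 := D_bar_right hP ha i (z s)
    have e2 := h (δ 2 i s)
    rw [hx, hy, hz] at e2
    rw [h s, map_add, (D 2 i).leibniz, (D 2 i).leibniz, stab, stab, e2] at e1
    simp only [smul_eq_mul] at e1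
    linear_combination e1
  have x0 := third x hx 0 n02 h02
  have x1 := third x hx 1 n12 h12
  have y1 := third y hy 1 n12 h12'
  intro s hs1 hs2
  have z1 : ∀ i, ev (P 1) (x s) i = 0 := by
    intro i
    obtain ⟨α, β, h⟩ := x1 i
    rw [h s, hs1, hs2]; ring
  have w1 : ∀ i, ev (P 1) (y s) i = 0 := by
    intro i
    obtain ⟨α, β, h⟩ := y1 i
    rw [h s, hs1, hs2]; ring
  have z0 : ∀ i, ev (P 0) (x s) i = 0 := by
    intro i
    obtain ⟨α, β, h⟩ := x0 i
    rw [h s, hs1, hs2]; ring
  have h2 : (x s).1 = 0 := by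
    apply cr_single_eq_zero
    intro j
    funext i
    obtain ⟨α, β, h⟩ := x0 i
    have e1 := D_ev_self hP 0 j i (x s)
    have e2 := D_bar_left hP n01 j (x s)
    have e3 := D_bar_left hP n01 j (y s)
    have e4 := h (δ 0 j s)
    rw [hx, hy] at e4
    rw [h s, map_add, (D 0 j).leibniz, (D 0 j).leibniz, e2, e3, e4, hs1, hs2, z1, w1] at e1
    simp only [smul_eq_mul, zero_mul] at e1
    simp only [Pi.zero_apply]
    linear_combination -e1
  exact scr_zero h2 (funext z0)

end Pool.Agent.LG
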