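import Pool.Agent.Lib.MP_37c7bf_LG.Rank

/-!
Module C. Three bodies cannot have parallel relative screws with a constant ratio.
-/

set_option autoImplicit false

open Module

namespace Pool.Agent.LG.C

section aux

variable {k : Type*} [Field k]

/-- C2: the space of motions with equal screws at both ends of every joint of `E`. -/
theorem six_dvd_finrank {J V : Type*} [Finite V] (src tgt : J → V) (E : Finset J)
    (L : Submodule k (V → Scr k)) (hL : ∀ s, s ∈ L ↔ ∀ h ∈ E, s (src h) = s (tgt h)) :
    6 ∣ finrank k L := by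
  classical
  let r : V → V → Prop := fun u w => ∃ h ∈ E, u = src h ∧ w = tgt h
  have hfin : Finite (Quot r) := inferInstance
  have := Fintype.ofFinite (Quot r)
  let f : (Quot r → Scr k) →ₗ[k] (V → Scr k) := LinearMap.funLeft k (Scr k) (Quot.mk r)
  have hinj : Function.Injective f :=
    LinearMap.funLeft_injective_of_surjective _ _ _ Quot.mk_surjective
  have hrange : LinearMap.range f = L := by
    apply le_antisymm
    · rintro _ ⟨s, rfl⟩
      rw [hL]
      intro h hh
      exact congrArg s (Quot.sound ⟨h, hh, rfl, rfl⟩)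
    · intro s hs
      rw [hL] at hs
      refine ⟨Quot.lift s ?_, ?_⟩
      · rintro _ _ ⟨h, hh, rfl, rfl⟩
        exact hs h hh
      · funext v
        rfl
  rw [← hrange, LinearMap.finrank_range_of_inj hinj, Module.finrank_pi_fintype]
  simp only [Module.finrank_prod, Module.finrank_fin_fun, Finset.sum_const, smul_eq_mul]
  exact Dvd.intro_left _ rfl

/-- vectors orthogonal to `w` are cross products with `w` -/
lemma exists_cr {w v : Vec k} (hw : w ≠ 0) (h : dt w v = 0) : ∃ d, v = cr w d := by
  unfold dt at h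
  have : w 0 ≠ 0 ∨ w 1 ≠ 0 ∨ w 2 ≠ 0 := by
    by_contra hcon
    push Not at hcon
    apply hw
    exact vec_ext hcon.1 hcon.2.1 hcon.2.2
  rcases this with h0 | h0 | h0
  · refine ⟨![0, v 2 / w 0, -(v 1) / w 0], ?_⟩
    apply vec_ext
    · simp only [cr_zero_apply, Matrix.cons_val]
      field_simp
      linear_combination h
    · simp only [cr_one_apply, Matrix.cons_val]
      field_simp
      ring
    · simp only [cr_two_apply, Matrix.cons_val]
      field_simp
      ring
  · refine ⟨![-(v 2) / w 1, 0, v 0 / w 1], ?_⟩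
    apply vec_ext
    · simp only [cr_zero_apply, Matrix.cons_val]
      field_simp
      ring
    · simp only [cr_one_apply, Matrix.cons_val]
      field_simp
      linear_combination h
    · simp only [cr_two_apply, Matrix.cons_val]
      field_simp
      ring
  · refine ⟨![v 1 / w 2, -(v 0) / w 2, 0], ?_⟩
    apply vec_ext
    · simp only [cr_zero_apply, Matrix.cons_val]
      field_simp
      ring
    · simp only [cr_one_apply, Matrix.cons_val]
      field_simp
      ring
    · simp only [cr_two_apply, Matrix.cons_val]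
      field_simp
      linear_combination h

/-- two parallel vectors, the first of which is not zero -/
lemma exists_smul_of_cr {u v : Vec k} (hu : u ≠ 0) (h : cr u v = 0) : ∃ c : k, v = c • u := by
  have h0 := congrFun h 0
  have h1 := congrFun h 1
  have h2 := congrFun h 2
  simp only [cr_zero_apply, cr_one_apply, cr_two_apply, Pi.zero_apply] at h0 h1 h2
  have : u 0 ≠ 0 ∨ u 1 ≠ 0 ∨ u 2 ≠ 0 := by
    by_contra hcon
    push Not at hcon
    apply hu
    exact vec_ext hcon.1 hcon.2.1 hcon.2.2
  rcases this with hk | hk | hk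
  · refine ⟨v 0 / u 0, ?_⟩
    apply vec_ext <;> simp only [Pi.smul_apply, smul_eq_mul] <;> field_simp
    · linear_combination h2
    · linear_combination -h1
  · refine ⟨v 1 / u 1, ?_⟩
    apply vec_ext <;> simp only [Pi.smul_apply, smul_eq_mul] <;> field_simp
    · linear_combination -h2
    · linear_combination h0
  · refine ⟨v 2 / u 2, ?_⟩
    apply vec_ext <;> simp only [Pi.smul_apply, smul_eq_mul] <;> field_simp
    · linear_combination h1
    · linear_combination -h0

/-- functionals on `Vec` are dot products -/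
lemma exists_dt (f : Vec k →ₗ[k] k) : ∃ F : Vec k, ∀ v, f v = dt F v := by
  refine ⟨fun i => f (Pi.single i 1), ?_⟩
  intro v
  have hv : v = v 0 • Pi.single 0 1 + v 1 • Pi.single 1 1 + v 2 • Pi.single 2 1 := by
    apply vec_ext <;> simp
  conv_lhs => rw [hv]
  simp only [map_add, map_smul, smul_eq_mul, dt]
  ring

/-- a vector orthogonal to all `w × δ` is parallel to `w` -/
lemma cr_eq_zero_of_dt {F w : Vec k} (h : ∀ d, dt F (cr w d) = 0) : cr F w = 0 := by
  have h0 := h ![1, 0, 0]
  have h1 := h ![0, 1, 0]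
  have h2 := h ![0, 0, 1]
  simp only [dt, cr_zero_apply, cr_one_apply, cr_two_apply, Matrix.cons_val] at h0 h1 h2
  apply vec_ext <;> simp only [cr_zero_apply, cr_one_apply, cr_two_apply, Pi.zero_apply]
  · linear_combination h0
  · linear_combination h1
  · linear_combination h2

lemma cr_zero_left (v : Vec k) : cr 0 v = 0 := by
  apply vec_ext <;> simp

lemma cr_smul_self (c c' : k) (v : Vec k) : cr (c • v) (c' • v) = 0 := by
  apply vec_ext <;> simp <;> ring

/-- a screw with no rotation which fixes a point is zero -/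
lemma scr_eq_zero {x : Vec k} {s : Scr k} (h : ev x s = 0) (hw : s.1 = 0) : s = 0 := by
  rw [ev_apply, hw, cr_zero_left, zero_add] at h
  exact Prod.ext hw h

end aux

section crl

variable {k : Type*} [Field k] {J : Type*} {p : J → Vec k} {D : J → Fin 3 → Derivation ℤ k k}
  {V : Type*} {src tgt : J → V}

lemma dM_dirD (D : Fin 3 → Derivation ℤ k k) (δ : Vec k) (s : V → Scr k) :
    dM (dirD D δ) s = δ 0 • dM (D 0) s + δ 1 • dM (D 1) s + δ 2 • dM (D 2) s := by
  funext v
  ext i <;> simp [dirD_apply]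

/-- If the relative velocity of `s` at `h` is a sum of vectors `ω × δ`, then `s` comes from the
motions with the joint `h` and their derivatives. -/
lemma mem_of_rho_mem [DecidableEq J] (hD : Indep p D) {E : Finset J} {h : J}
    {K : Submodule k (V → Scr k)} (hK : Mot p src tgt E ≤ K)
    (hKD : ∀ s ∈ Mot p src tgt E, ∀ i, dM (D h i) s ∈ K)
    {s : V → Scr k} (hs : s ∈ Mot p src tgt (E.erase h))
    (hW : rho p src tgt h s ∈ Submodule.span k
      {v | ∃ s ∈ Mot p src tgt E, ∃ δ, v = cr (rel src tgt h s).1 δ})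
    (hh : h ∈ E) : s ∈ K := by
  have hle : Submodule.span k {v | ∃ s ∈ Mot p src tgt E, ∃ δ, v = cr (rel src tgt h s).1 δ} ≤
      (K ⊓ Mot p src tgt (E.erase h)).map (rho p src tgt h) := by
    rw [Submodule.span_le]
    rintro _ ⟨s', hs', δ, rfl⟩
    have hs'' : s' ∈ Mot p src tgt (E.erase h) := Mot_anti (Finset.erase_subset h E) hs'
    have h1 : ∀ i, dM (D h i) s' ∈ K ⊓ Mot p src tgt (E.erase h) := fun i =>
      ⟨hKD s' hs' i, dM_mem_of_notMem hD (Finset.notMem_erase h E) i hs''⟩
    have h2 : dM (dirD (D h) δ) s' ∈ K ⊓ Mot p src tgt (E.erase h) := by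
      rw [dM_dirD]
      exact add_mem (add_mem (Submodule.smul_mem _ _ (h1 0)) (Submodule.smul_mem _ _ (h1 1)))
        (Submodule.smul_mem _ _ (h1 2))
    refine ⟨-dM (dirD (D h) δ) s', neg_mem h2, ?_⟩
    rw [map_neg, rho_dM]
    have h3 : rho p src tgt h s' = 0 := hs' h hh
    have h4 : dV (dirD (D h) δ) (p h) = δ := by
      have e0 := hD.1 h 0
      have e1 := hD.1 h 1
      have e2 := hD.1 h 2
      apply vec_ext
      · have a0 := congrFun e0 0
        have a1 := congrFun e1 0
        have a2 := congrFun e2 0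
        simp at a0 a1 a2
        simp [dirD_apply, a0, a1, a2]
      · have a0 := congrFun e0 1
        have a1 := congrFun e1 1
        have a2 := congrFun e2 1
        simp at a0 a1 a2
        simp [dirD_apply, a0, a1, a2]
      · have a0 := congrFun e0 2
        have a1 := congrFun e1 2
        have a2 := congrFun e2 2
        simp at a0 a1 a2
        simp [dirD_apply, a0, a1, a2]
    have h5 : dV (dirD (D h) δ) (0 : Vec k) = 0 := by
      funext i
      simp
    rw [h3, h4, h5, zero_sub, neg_neg]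
  obtain ⟨t, ht, hts⟩ := hle hW
  have h6 : s - t ∈ Mot p src tgt E := by
    intro e he
    by_cases heh : e = h
    · subst heh
      rw [map_sub, hts, sub_self]
    · exact sub_mem hs ht.2 e (Finset.mem_erase.mpr ⟨heh, he⟩)
  have h7 := add_mem (hK h6) ht.1
  rwa [sub_add_cancel] at h7

/-- the motions for which the relative screws of three bodies are in the ratio `c` -/
def KK (c : k) (a₁ a₂ a₃ : V) : Submodule k (V → Scr k) where
  carrier := {s | s a₂ - s a₃ = c • (s a₁ - s a₂)}
  add_mem' := by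
    intro a b ha hb
    simp only [Set.mem_ofPred_eq, Pi.add_apply] at ha hb ⊢
    rw [add_sub_add_comm, ha, hb, add_sub_add_comm, smul_add]
  zero_mem' := by
    simp only [Set.mem_ofPred_eq, Pi.zero_apply, sub_self, smul_zero]
  smul_mem' := by
    intro r a ha
    simp only [Set.mem_ofPred_eq, Pi.smul_apply] at ha ⊢
    rw [← smul_sub, ha, ← smul_sub, smul_comm]

lemma mem_KK {c : k} {a₁ a₂ a₃ : V} {s : V → Scr k} :
    s ∈ KK c a₁ a₂ a₃ ↔ s a₂ - s a₃ = c • (s a₁ - s a₂) := Iff.rfl

lemma dM_mem_KK {c : k} {a₁ a₂ a₃ : V} {s : V → Scr k} (hs : s ∈ KK c a₁ a₂ a₃)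
    {d : Derivation ℤ k k} (hd : d c = 0) : dM d s ∈ KK c a₁ a₂ a₃ := by
  rw [mem_KK] at hs ⊢
  rw [dM_apply, dM_apply, dM_apply, ← dS_sub, ← dS_sub, hs, dS_smul, hd, zero_smul, zero_add]

/-- The dichotomy for one joint: either all motions without `h` are in `K`, or the relative
velocities at `h` fill the space and the relative rotations at `h` are parallel. -/
lemma dichotomy [DecidableEq J] (hD : Indep p D) {E : Finset J} {h : J} (hh : h ∈ E)
    {K : Submodule k (V → Scr k)} (hK : Mot p src tgt E ≤ K)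
    (hKD : ∀ s ∈ Mot p src tgt E, ∀ i, dM (D h i) s ∈ K)
    (hN : src h ≠ tgt h → ∃ s ∈ Mot p src tgt E, s (src h) ≠ s (tgt h)) :
    Mot p src tgt (E.erase h) ≤ K ∨
      (src h ≠ tgt h ∧ (Mot p src tgt (E.erase h)).map (rho p src tgt h) = ⊤ ∧
        ∀ s ∈ Mot p src tgt E, ∀ s' ∈ Mot p src tgt E,
          cr (rel src tgt h s).1 (rel src tgt h s').1 = 0) := by
  by_contra hcon
  push Not at hcon
  obtain ⟨h1, h2⟩ := hcon
  obtain ⟨s₀, hs₀, hs₀K⟩ := SetLike.not_le_iff_exists.mp h1
  have hne : src h ≠ tgt h := by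
    intro heq
    apply hs₀K
    apply hK
    intro e he
    by_cases heh : e = h
    · subst heh
      rw [rho_apply, heq, sub_self, map_zero]
    · exact hs₀ e (Finset.mem_erase.mpr ⟨heh, he⟩)
  set U := Submodule.span k {v | ∃ s ∈ Mot p src tgt E, ∃ δ, v = cr (rel src tgt h s).1 δ}
    with hU
  have hs₀U : rho p src tgt h s₀ ∉ U := fun hmem => hs₀K (mem_of_rho_mem hD hK hKD hs₀ hmem hh)
  have hUmem : ∀ s ∈ Mot p src tgt E, ∀ δ, cr (rel src tgt h s).1 δ ∈ U := fun s hs δ =>
    Submodule.subset_span ⟨s, hs, δ, rfl⟩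
  have htop : (Mot p src tgt (E.erase h)).map (rho p src tgt h) = ⊤ := by
    by_contra hlt
    obtain ⟨s, hs, hsne⟩ := hN hne
    have hw : (rel src tgt h s).1 ≠ 0 := by
      intro hw
      have := scr_eq_zero (hs h hh) hw
      rw [rel_apply, sub_eq_zero] at this
      exact hsne this
    obtain ⟨f, hf, hfW⟩ := Submodule.exists_le_ker_of_lt_top _ (lt_top_iff_ne_top.mpr hlt)
    obtain ⟨F, hF⟩ := exists_dt f
    have hF0 : F ≠ 0 := by
      rintro rfl
      apply hf
      apply LinearMap.ext
      intro v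
      rw [hF]
      simp [dt]
    have hFw : cr F (rel src tgt h s).1 = 0 := by
      apply cr_eq_zero_of_dt
      intro δ
      rw [← hF]
      have h3 : -cr (rel src tgt h s).1 δ ∈
          (Mot p src tgt (E.erase h)).map (rho p src tgt h) := by
        have h4 : E = insert h (E.erase h) := (Finset.insert_erase hh).symm
        have h5 := cross_mem_map (p := p) (src := src) (tgt := tgt) hD
          (Finset.notMem_erase h E) (s := s) (by rwa [← h4]) δ
        exact neg_mem h5
      have h6 := hfW h3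
      rw [LinearMap.mem_ker, map_neg, neg_eq_zero] at h6
      exact h6
    obtain ⟨c, hc⟩ := exists_smul_of_cr hF0 hFw
    have h7 : dt (rel src tgt h s).1 (rho p src tgt h s₀) = 0 := by
      have h8 := hfW (Submodule.mem_map_of_mem (f := rho p src tgt h) hs₀)
      rw [LinearMap.mem_ker, hF] at h8
      rw [hc]
      unfold dt at h8 ⊢
      simp only [Pi.smul_apply, smul_eq_mul]
      linear_combination c * h8
    obtain ⟨d, hd⟩ := exists_cr hw h7
    apply hs₀U
    rw [hd]
    exact hUmem s hs d
  obtain ⟨s, hs, s', hs', hcr⟩ := h2 hne htop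
  apply hs₀U
  have hUtop : U = ⊤ := by
    by_contra hlt
    obtain ⟨f, hf, hfW⟩ := Submodule.exists_le_ker_of_lt_top _ (lt_top_iff_ne_top.mpr hlt)
    obtain ⟨F, hF⟩ := exists_dt f
    have hF0 : F ≠ 0 := by
      rintro rfl
      apply hf
      apply LinearMap.ext
      intro v
      rw [hF]
      simp [dt]
    have key : ∀ s ∈ Mot p src tgt E, cr F (rel src tgt h s).1 = 0 := by
      intro s hs
      apply cr_eq_zero_of_dt
      intro δ
      rw [← hF]
      exact hfW (hUmem s hs δ)
    obtain ⟨c, hc⟩ := exists_smul_of_cr hF0 (key s hs)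
    obtain ⟨c', hc'⟩ := exists_smul_of_cr hF0 (key s' hs')
    apply hcr
    rw [hc, hc']
    exact cr_smul_self c c' F
  rw [hUtop]
  exact Submodule.mem_top

end crl

/-- The induction for `crl`. -/
theorem crl_aux {k : Type*} [Field k] [CharZero k] {J : Type*} {p : J → Vec k}
    {D : J → Fin 3 → Derivation ℤ k k} (hD : Indep p D) (c : k) (hc0 : c ≠ 0) (hc1 : c ≠ -1) :
    ∀ n : ℕ, ∀ (V : Type) [Fintype V] (src tgt : J → V) (E : Finset J),
      Fintype.card V + E.card = n → (∀ h ∈ E, ∀ i, D h i c = 0) → ∀ a₁ a₂ a₃ : V,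
      (∀ s ∈ Mot p src tgt E, s a₂ - s a₃ = c • (s a₁ - s a₂)) →
      ∀ s ∈ Mot p src tgt E, s a₁ = s a₂ := by
  classical
  intro n
  induction n using Nat.strong_induction_on with
  | _ n IH =>
  intro V _ src tgt E hn hE a₁ a₂ a₃ h
  -- C1: contraction of two bodies
  have contract : ∀ u w : V, u ≠ w → ∀ s ∈ Mot p src tgt E, s u = s w → s a₁ = s a₂ := by
    intro u w huw s hs hsuw
    let φ : V → {t : V // t ≠ u} := fun t => if ht : t = u then ⟨w, huw.symm⟩ else ⟨t, ht⟩
    have hφu : φ u = ⟨w, huw.symm⟩ := dif_pos rfl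
    have hφt : ∀ t (ht : t ≠ u), φ t = ⟨t, ht⟩ := fun t ht => dif_neg ht
    have hcard : Fintype.card {t : V // t ≠ u} + E.card < n := by
      have : Fintype.card {t : V // t ≠ u} < Fintype.card V :=
        Fintype.card_subtype_lt (x := u) (fun hcon => hcon rfl)
      omega
    have hback : (fun t : V => (fun t : {t : V // t ≠ u} => s t) (φ t)) = s := by
      funext t
      by_cases ht : t = u
      · subst ht
        rw [hφu]
        exact hsuw.symm
      · rw [hφt t ht]
    have hres := IH _ hcard {t : V // t ≠ u} (φ ∘ src) (φ ∘ tgt) E rfl hE (φ a₁) (φ a₂) (φ a₃)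
      (by
        intro s' hs'
        exact h (fun t => s' (φ t)) hs')
      (fun t : {t : V // t ≠ u} => s t) (by
        intro e he
        have h1 := hs e he
        rw [← hback] at h1
        exact h1)
    have h1 := congrFun hback a₁
    have h2 := congrFun hback a₂
    simp only at h1 h2
    rw [← h1, ← h2]
    exact hres
  by_cases hN : ∃ u w : V, u ≠ w ∧ ∀ s ∈ Mot p src tgt E, s u = s w
  · obtain ⟨u, w, huw, hN⟩ := hN
    intro s hs
    exact contract u w huw s hs (hN s hs)
  push Not at hN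
  -- the dichotomy for every joint
  by_cases hex : ∃ g ∈ E, Mot p src tgt (E.erase g) ≤ KK c a₁ a₂ a₃
  · obtain ⟨g, hg, hle⟩ := hex
    intro s hs
    have hcard : Fintype.card V + (E.erase g).card < n := by
      have := Finset.card_erase_lt_of_mem hg
      omega
    exact IH _ hcard V src tgt (E.erase g) rfl (fun e he => hE e (Finset.mem_of_mem_erase he))
      a₁ a₂ a₃ (fun t ht => mem_KK.mp (hle ht)) s (Mot_anti (Finset.erase_subset g E) hs)
  push Not at hex
  have hdich : ∀ g ∈ E, src g ≠ tgt g ∧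
      (Mot p src tgt (E.erase g)).map (rho p src tgt g) = ⊤ ∧
        ∀ s ∈ Mot p src tgt E, ∀ s' ∈ Mot p src tgt E,
          cr (rel src tgt g s).1 (rel src tgt g s').1 = 0 := by
    intro g hg
    have h1 := dichotomy (p := p) (src := src) (tgt := tgt) hD hg
      (K := KK c a₁ a₂ a₃) (fun s hs => mem_KK.mpr (h s hs))
      (fun s hs i => dM_mem_KK (mem_KK.mpr (h s hs)) (hE g hg i)) (fun hne => hN _ _ hne)
    rcases h1 with h1 | h1
    · exact absurd h1 (hex g hg)
    · exact h1
  have hcount := finrank_Mot_of_full (p := p) (src := src) (tgt := tgt) E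
    (fun g hg => (hdich g hg).2.1)
  by_contra hcon
  push Not at hcon
  obtain ⟨s₁, hs₁, hx₁⟩ := hcon
  -- E is not empty
  have hEne : E.Nonempty := by
    rw [Finset.nonempty_iff_ne_empty]
    rintro rfl
    have hall : ∀ s : V → Scr k, s a₂ - s a₃ = c • (s a₁ - s a₂) := fun s =>
      h s (fun e he => absurd he (Finset.notMem_empty e))
    have ha : a₁ ≠ a₂ := by
      rintro rfl
      exact hx₁ rfl
    have h1 := hall (Pi.single a₁ ((Pi.single 0 1 : Vec k), (0 : Vec k)))
    rw [Pi.single_eq_same, Pi.single_eq_of_ne ha.symm] at h1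
    by_cases h13 : a₃ = a₁
    · rw [h13, Pi.single_eq_same] at h1
      have h2 := congrFun (congrArg Prod.fst h1) 0
      simp at h2
      exact hc1 h2.symm
    · rw [Pi.single_eq_of_ne h13] at h1
      have h2 := congrFun (congrArg Prod.fst h1) 0
      simp at h2
      exact hc0 h2.symm
  -- relative screws are parallel
  have hrel0 : ∀ g ∈ E, rel src tgt g s₁ ≠ 0 := by
    intro g hg h0
    rw [rel_apply, sub_eq_zero] at h0
    exact hx₁ (contract _ _ (hdich g hg).1 s₁ hs₁ h0)
  have hpar : ∀ g ∈ E, ∀ s ∈ Mot p src tgt E, ∃ l : k,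
      rel src tgt g s = l • rel src tgt g s₁ := by
    intro g hg s hs
    have hw : (rel src tgt g s₁).1 ≠ 0 := fun hw => hrel0 g hg (scr_eq_zero (hs₁ g hg) hw)
    obtain ⟨l, hl⟩ := exists_smul_of_cr hw ((hdich g hg).2.2 s₁ hs₁ s hs)
    refine ⟨l, ?_⟩
    have h1 : ev (p g) (rel src tgt g (s - l • s₁)) = 0 := by
      have h2 : s - l • s₁ ∈ Mot p src tgt E := sub_mem hs (Submodule.smul_mem _ _ hs₁)
      exact h2 g hg
    have h3 : rel src tgt g (s - l • s₁) = 0 := by
      apply scr_eq_zero h1
      rw [map_sub, map_smul, Prod.fst_sub, Prod.smul_fst, hl, sub_self]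
    rwa [map_sub, map_smul, sub_eq_zero] at h3
  let L : Submodule k (V → Scr k) :=
    { carrier := {s | ∀ g ∈ E, s (src g) = s (tgt g)}
      add_mem' := by
        intro a b ha hb g hg
        rw [Pi.add_apply, Pi.add_apply, ha g hg, hb g hg]
      zero_mem' := by
        intro g _
        rfl
      smul_mem' := by
        intro r a ha g hg
        rw [Pi.smul_apply, Pi.smul_apply, ha g hg] }
  have hLmem : ∀ s, s ∈ L ↔ ∀ g ∈ E, s (src g) = s (tgt g) := fun s => Iff.rfl
  have hLM : L ≤ Mot p src tgt E := by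
    intro s hs g hg
    rw [rho_apply, hs g hg, sub_self, map_zero]
  obtain ⟨g₀, hg₀⟩ := hEne
  have hxL : ∀ s ∈ Mot p src tgt E, s a₁ = s a₂ → s ∈ L := by
    intro s hs hx g hg
    obtain ⟨l, hl⟩ := hpar g hg s hs
    have h1 : rel src tgt g (s - l • s₁) = 0 := by
      rw [map_sub, map_smul, hl, sub_self]
    rw [rel_apply, sub_eq_zero] at h1
    have h2 := contract _ _ (hdich g hg).1 (s - l • s₁)
      (sub_mem hs (Submodule.smul_mem _ _ hs₁)) h1
    simp only [Pi.sub_apply, Pi.smul_apply, hx] at h2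
    have h3 : l • (s₁ a₁ - s₁ a₂) = 0 := by
      rw [smul_sub, sub_eq_zero]
      exact sub_right_injective h2
    rcases smul_eq_zero.mp h3 with h4 | h4
    · rw [h4, zero_smul, rel_apply, sub_eq_zero] at hl
      exact hl
    · exact absurd (sub_eq_zero.mp h4) hx₁
  have hs₁L : s₁ ∉ L := by
    intro hcon
    apply hrel0 g₀ hg₀
    rw [rel_apply, sub_eq_zero]
    exact hcon g₀ hg₀
  have hsum : Mot p src tgt E = L ⊔ Submodule.span k {s₁} := by
    apply le_antisymm
    · intro s hs
      obtain ⟨l, hl⟩ := hpar g₀ hg₀ s hs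
      have h1 : rel src tgt g₀ (s - l • s₁) = 0 := by
        rw [map_sub, map_smul, hl, sub_self]
      rw [rel_apply, sub_eq_zero] at h1
      have hmem : s - l • s₁ ∈ Mot p src tgt E := sub_mem hs (Submodule.smul_mem _ _ hs₁)
      have h2 := contract _ _ (hdich g₀ hg₀).1 (s - l • s₁) hmem h1
      have h3 := hxL _ hmem h2
      rw [Submodule.mem_sup]
      exact ⟨s - l • s₁, h3, l • s₁, Submodule.mem_span_singleton.mpr ⟨l, rfl⟩,
        sub_add_cancel _ _⟩
    · exact sup_le hLM ((Submodule.span_singleton_le_iff_mem _ _).mpr hs₁)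
  have hs₁0 : s₁ ≠ 0 := by
    rintro rfl
    exact hx₁ rfl
  have hdisj : L ⊓ Submodule.span k {s₁} = ⊥ := by
    rw [Submodule.eq_bot_iff]
    rintro s ⟨hs, hs'⟩
    obtain ⟨l, rfl⟩ := Submodule.mem_span_singleton.mp hs'
    by_cases hl : l = 0
    · rw [hl, zero_smul]
    · exfalso
      apply hs₁L
      have := L.smul_mem l⁻¹ hs
      rwa [smul_smul, inv_mul_cancel₀ hl, one_smul] at this
  have hfr : finrank k (Mot p src tgt E) = finrank k L + 1 := by
    have h1 := Submodule.finrank_sup_add_finrank_inf_eq L (Submodule.span k {s₁})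
    rw [hdisj, finrank_bot, finrank_span_singleton hs₁0, add_zero, ← hsum] at h1
    exact h1
  obtain ⟨m, hm⟩ := six_dvd_finrank src tgt E L hLmem
  omega

end Pool.Agent.LG.C

namespace Pool.Agent.LG

/-- CRL -/
theorem crl {k : Type*} [Field k] [CharZero k] {J : Type*} {p : J → Vec k}
    {D : J → Fin 3 → Derivation ℤ k k} (hD : Indep p D) (c : k) (hc0 : c ≠ 0) (hc1 : c ≠ -1)
    {V : Type} [Fintype V] {src tgt : J → V} {E : Finset J} (hE : ∀ h ∈ E, ∀ i, D h i c = 0)
    {a₁ a₂ a₃ : V}
    (h : ∀ s ∈ Mot p src tgt E, s a₂ - s a₃ = c • (s a₁ - s a₂)) :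
    ∀ s ∈ Mot p src tgt E, s a₁ = s a₂ :=
  C.crl_aux hD c hc0 hc1 _ V src tgt E rfl hE a₁ a₂ a₃ h

end Pool.Agent.LG
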