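import Pool.Agent.Lib.MP_37c7bf_LG.Bars

/-!
Module R. Adding one joint: rank increments, and the action of the derivations on the motions.
-/

set_option autoImplicit false

open Module

namespace Pool.Agent.LG

variable {k : Type*} [Field k] {J V : Type*} {p : J → Vec k} {src tgt : J → V}
  {D : J → Fin 3 → Derivation ℤ k k}

/-- R1: rank-nullity for one more joint. -/
theorem finrank_Mot_insert [DecidableEq J] [Finite V] (E : Finset J) (h : J) :
    finrank k (Mot p src tgt (insert h E)) +
      finrank k ((Mot p src tgt E).map (rho p src tgt h)) = finrank k (Mot p src tgt E) := by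
  set N := Mot p src tgt E with hN
  let g : N →ₗ[k] Vec k := (rho p src tgt h).domRestrict N
  have h1 := LinearMap.finrank_range_add_finrank_ker g
  have h2 : LinearMap.range g = N.map (rho p src tgt h) := by
    ext w
    simp only [LinearMap.mem_range, Submodule.mem_map]
    constructor
    · rintro ⟨s, rfl⟩
      exact ⟨s.1, s.2, rfl⟩
    · rintro ⟨s, hs, rfl⟩
      exact ⟨⟨s, hs⟩, rfl⟩
  have h3 : (LinearMap.ker g).map N.subtype = Mot p src tgt (insert h E) := by
    ext s
    simp only [Submodule.mem_map, LinearMap.mem_ker, mem_Mot, Finset.mem_insert,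
      forall_eq_or_imp]
    constructor
    · rintro ⟨t, ht, rfl⟩
      exact ⟨ht, t.2⟩
    · rintro ⟨ha, hb⟩
      exact ⟨⟨s, hb⟩, ha, rfl⟩
  have h4 := LinearEquiv.finrank_eq (Submodule.equivSubtypeMap N (LinearMap.ker g))
  rw [h3] at h4
  rw [h2] at h1
  omega

/-- R2: fewer joints, more motions. -/
theorem Mot_anti {E F : Finset J} (h : E ⊆ F) : Mot p src tgt F ≤ Mot p src tgt E :=
  fun _ hs e he => hs e (h he)

/-- R3: the relative velocity of a differentiated motion. -/
theorem rho_dM (d : Derivation ℤ k k) (e : J) (s : V → Scr k) :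
    rho p src tgt e (dM d s) = dV d (rho p src tgt e s) -
      cr (rel src tgt e s).1 (dV d (p e)) := by
  have h1 := dV_ev d (p e) (s (src e) - s (tgt e))
  rw [rho_apply, rho_apply, h1, dS_sub, rel_apply]
  simp

/-- R4: a differentiated motion is a motion, if at every joint either the joint is constant or
the relative rotation is parallel to its derivative. -/
theorem dM_mem (d : Derivation ℤ k k) {E : Finset J} {s : V → Scr k} (hs : s ∈ Mot p src tgt E)
    (h : ∀ e ∈ E, cr (rel src tgt e s).1 (dV d (p e)) = 0) : dM d s ∈ Mot p src tgt E := by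
  intro e he
  rw [rho_dM, h e he, hs e he, sub_zero]
  funext i; simp

lemma cr_zero_right (a : Vec k) : cr a 0 = 0 := by apply vec_ext <;> simp

lemma cr_add_right (a b c : Vec k) : cr a (b + c) = cr a b + cr a c := by
  apply vec_ext <;> simp <;> ring

lemma cr_smul_right (a b : Vec k) (r : k) : cr a (r • b) = r • cr a b := by
  apply vec_ext <;> simp <;> ring

/-- R5: the joint `h` does not occur in `E`. -/
theorem dM_mem_of_notMem (hD : Indep p D) {E : Finset J} {h : J} (hE : h ∉ E) (i : Fin 3)
    {s : V → Scr k} (hs : s ∈ Mot p src tgt E) : dM (D h i) s ∈ Mot p src tgt E := by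
  refine dM_mem _ hs fun e he => ?_
  rw [hD.2 h e (fun h' => hE (h' ▸ he)) i, cr_zero_right]

lemma dV_dirD (δ : Vec k) (d : Fin 3 → Derivation ℤ k k) (v : Vec k) :
    dV (dirD d δ) v = δ 0 • dV (d 0) v + δ 1 • dV (d 1) v + δ 2 • dV (d 2) v := by
  funext i
  simp [dirD_apply]

lemma dV_dirD_self (hD : Indep p D) (h : J) (δ : Vec k) : dV (dirD (D h) δ) (p h) = δ := by
  rw [dV_dirD, hD.1, hD.1, hD.1]
  apply vec_ext <;> simp

lemma dV_dirD_other (hD : Indep p D) {h e : J} (he : h ≠ e) (δ : Vec k) :
    dV (dirD (D h) δ) (p e) = 0 := by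
  rw [dV_dirD, hD.2 h e he, hD.2 h e he, hD.2 h e he]
  simp

/-- R6: the direction of the derivative is parallel to the relative rotation at `h`. -/
theorem dM_dirD_mem (hD : Indep p D) {E : Finset J} (h : J) (δ : Vec k)
    {s : V → Scr k} (hs : s ∈ Mot p src tgt E) (hδ : cr (rel src tgt h s).1 δ = 0) :
    dM (dirD (D h) δ) s ∈ Mot p src tgt E := by
  refine dM_mem _ hs fun e _ => ?_
  by_cases hh : h = e
  · subst hh
    rw [dV_dirD_self hD, hδ]
  · rw [dV_dirD_other hD hh, cr_zero_right]

/-- R7: the space of relative velocities at `h` contains `ω × δ` for all relative rotations `ω`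
of motions of `E ∪ {h}` at `h`. -/
theorem cross_mem_map [DecidableEq J] (hD : Indep p D) {E : Finset J} {h : J} (hE : h ∉ E)
    {s : V → Scr k} (hs : s ∈ Mot p src tgt (insert h E)) (δ : Vec k) :
    cr (rel src tgt h s).1 δ ∈ (Mot p src tgt E).map (rho p src tgt h) := by
  refine ⟨- dM (dirD (D h) δ) s, ?_, ?_⟩
  · apply Submodule.neg_mem
    refine dM_mem _ (Mot_anti (Finset.subset_insert h E) hs) fun e he => ?_
    rw [dV_dirD_other hD (by rintro rfl; exact hE he), cr_zero_right]
  · rw [map_neg, rho_dM, dV_dirD_self hD, hs h (Finset.mem_insert_self h E)]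
    have : dV (dirD (D h) δ) (0 : Vec k) = 0 := by funext i; simp
    rw [this, zero_sub, neg_neg]

lemma dt_cr_self (a b : Vec k) : dt a (cr a b) = 0 := by simp [dt]; ring

/-- the cross product with a fixed vector as a linear map -/
def crL (a : Vec k) : Vec k →ₗ[k] Vec k where
  toFun b := cr a b
  map_add' := cr_add_right a
  map_smul' := by intro r b; simp only [RingHom.id_apply]; exact cr_smul_right a b r

@[simp] lemma crL_apply (a b : Vec k) : crL a b = cr a b := rfl

lemma cr_eq_zero_iff {a b : Vec k} (ha : a ≠ 0) : cr a b = 0 ↔ ∃ r : k, b = r • a := by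
  constructor
  · intro h
    have e0 := congrFun h 0
    have e1 := congrFun h 1
    have e2 := congrFun h 2
    simp at e0 e1 e2
    by_cases h0 : a 0 = 0
    · by_cases h1 : a 1 = 0
      · have h2 : a 2 ≠ 0 := by
          intro h2
          exact ha (vec_ext (by simpa using h0) (by simpa using h1) (by simpa using h2))
        refine ⟨b 2 / a 2, ?_⟩
        apply vec_ext
        · simp only [Pi.smul_apply, smul_eq_mul]
          field_simp
          linear_combination e1
        · simp only [Pi.smul_apply, smul_eq_mul]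
          field_simp
          linear_combination -e0
        · simp only [Pi.smul_apply, smul_eq_mul]
          field_simp
      · refine ⟨b 1 / a 1, ?_⟩
        apply vec_ext
        · simp only [Pi.smul_apply, smul_eq_mul]
          field_simp
          linear_combination -e2
        · simp only [Pi.smul_apply, smul_eq_mul]
          field_simp
        · simp only [Pi.smul_apply, smul_eq_mul]
          field_simp
          linear_combination e0
    · refine ⟨b 0 / a 0, ?_⟩
      apply vec_ext
      · simp only [Pi.smul_apply, smul_eq_mul]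
        field_simp
      · simp only [Pi.smul_apply, smul_eq_mul]
        field_simp
        linear_combination e2
      · simp only [Pi.smul_apply, smul_eq_mul]
        field_simp
        linear_combination -e1
  · rintro ⟨r, rfl⟩
    apply vec_ext <;> simp <;> ring

lemma finrank_range_crL {a : Vec k} (ha : a ≠ 0) : finrank k (LinearMap.range (crL a)) = 2 := by
  have h1 := LinearMap.finrank_range_add_finrank_ker (crL a)
  have h2 : LinearMap.ker (crL a) = Submodule.span k {a} := by
    ext b
    rw [LinearMap.mem_ker, crL_apply, cr_eq_zero_iff ha, Submodule.mem_span_singleton]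
    exact ⟨fun ⟨r, hr⟩ => ⟨r, hr.symm⟩, fun ⟨r, hr⟩ => ⟨r, hr.symm⟩⟩
  rw [h2, finrank_span_singleton ha] at h1
  simp at h1
  omega

lemma rel_fst_ne_zero {E : Finset J} {h : J} (hh : h ∈ E) {s : V → Scr k}
    (hs : s ∈ Mot p src tgt E) (hr : rel src tgt h s ≠ 0) : (rel src tgt h s).1 ≠ 0 :=
  fun h0 => hr (scr_zero h0 (hs h hh))

/-- R8 -/
theorem two_le_finrank_map [DecidableEq J] [Finite V] (hD : Indep p D) {E : Finset J} {h : J}
    (hE : h ∉ E) {s : V → Scr k} (hs : s ∈ Mot p src tgt (insert h E))
    (hr : rel src tgt h s ≠ 0) :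
    2 ≤ finrank k ((Mot p src tgt E).map (rho p src tgt h)) := by
  have h1 := rel_fst_ne_zero (Finset.mem_insert_self h E) hs hr
  rw [← finrank_range_crL h1]
  apply Submodule.finrank_mono
  rintro _ ⟨δ, rfl⟩
  exact cross_mem_map hD hE hs δ

/-- a linear functional on `k³` is a dot product -/
lemma functional_dt (φ : Vec k →ₗ[k] k) : ∃ F : Vec k, ∀ v, φ v = dt F v := by
  refine ⟨fun i => φ (Pi.single i 1), fun v => ?_⟩
  have hv : v = v 0 • Pi.single 0 1 + v 1 • Pi.single 1 1 + v 2 • Pi.single 2 1 := by
    apply vec_ext <;> simp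
  conv_lhs => rw [hv]
  simp only [map_add, map_smul, smul_eq_mul, dt]
  ring

/-- a proper subspace of `k³` is orthogonal to a nonzero vector -/
lemma exists_dt_of_ne_top {N : Submodule k (Vec k)} (hN : N ≠ ⊤) :
    ∃ F : Vec k, F ≠ 0 ∧ ∀ v ∈ N, dt F v = 0 := by
  obtain ⟨φ, hφ, hle⟩ := Submodule.exists_le_ker_of_lt_top N (lt_top_iff_ne_top.2 hN)
  obtain ⟨F, hF⟩ := functional_dt φ
  refine ⟨F, ?_, fun v hv => ?_⟩
  · rintro rfl
    apply hφ
    ext v
    simp [hF, dt]
  · rw [← hF]; exact hle hv

lemma dt_cr (F a b : Vec k) : dt F (cr a b) = dt (cr F a) b := by simp [dt]; ring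

lemma eq_zero_of_dt {a : Vec k} (h : ∀ b, dt a b = 0) : a = 0 := by
  funext i
  have := h (Pi.single i 1)
  rw [dt_single] at this
  exact this

/-- a force orthogonal to all `ω × δ` is parallel to `ω` -/
lemma cr_eq_zero_of_dt {F a : Vec k} (h : ∀ b, dt F (cr a b) = 0) : cr F a = 0 :=
  eq_zero_of_dt fun b => by rw [← dt_cr]; exact h b

/-- R9: two independent relative rotations. -/
theorem map_eq_top [DecidableEq J] (hD : Indep p D) {E : Finset J} {h : J}
    (hE : h ∉ E) {s s' : V → Scr k} (hs : s ∈ Mot p src tgt (insert h E))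
    (hs' : s' ∈ Mot p src tgt (insert h E))
    (hr : cr (rel src tgt h s).1 (rel src tgt h s').1 ≠ 0) :
    (Mot p src tgt E).map (rho p src tgt h) = ⊤ := by
  by_contra hcon
  obtain ⟨F, hF0, hF⟩ := exists_dt_of_ne_top hcon
  have h1 := cr_eq_zero_of_dt fun b => hF _ (cross_mem_map hD hE hs b)
  have h2 := cr_eq_zero_of_dt fun b => hF _ (cross_mem_map hD hE hs' b)
  obtain ⟨r, hr1⟩ := (cr_eq_zero_iff hF0).1 h1
  obtain ⟨r', hr2⟩ := (cr_eq_zero_iff hF0).1 h2
  apply hr
  rw [hr1, hr2]
  apply vec_ext <;> simp <;> ring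

lemma ev_sub_eq_zero_comm (x : Vec k) (a b : Scr k) : ev x (a - b) = 0 ↔ ev x (b - a) = 0 := by
  rw [← neg_sub b a, map_neg, neg_eq_zero]

/-- R10: changing the orientation of joints. -/
theorem Mot_flip {src' tgt' : J → V} {E : Finset J}
    (h : ∀ e ∈ E, s(src e, tgt e) = s(src' e, tgt' e)) :
    Mot p src tgt E = Mot p src' tgt' E := by
  ext s
  simp only [mem_Mot, rho_apply]
  refine forall₂_congr fun e he => ?_
  rcases Sym2.eq_iff.1 (h e he) with ⟨h1, h2⟩ | ⟨h1, h2⟩
  · rw [h1, h2]
  · rw [h1, h2, ev_sub_eq_zero_comm]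

/-- R11: changing the orientation of joints. -/
theorem map_rho_flip {src' tgt' : J → V} {h : J} (hh : s(src h, tgt h) = s(src' h, tgt' h))
    (N : Submodule k (V → Scr k)) :
    N.map (rho p src tgt h) = N.map (rho p src' tgt' h) := by
  rcases Sym2.eq_iff.1 hh with ⟨h1, h2⟩ | ⟨h1, h2⟩
  · have : (rho p src tgt h : (V → Scr k) →ₗ[k] Vec k) = rho p src' tgt' h := by
      ext1 s
      rw [rho_apply, rho_apply, h1, h2]
    rw [this]
  · have : (rho p src tgt h : (V → Scr k) →ₗ[k] Vec k) = - rho p src' tgt' h := by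
      ext1 s
      rw [LinearMap.neg_apply, rho_apply, rho_apply, h1, h2, ← map_neg, neg_sub]
    rw [this, Submodule.map_neg]

/-- R12: all rank increments are three, then the joints are independent. -/
theorem finrank_Mot_of_full [DecidableEq J] [Fintype V] (E : Finset J)
    (h : ∀ e ∈ E, (Mot p src tgt (E.erase e)).map (rho p src tgt e) = ⊤) :
    finrank k (Mot p src tgt E) + 3 * E.card = 6 * Fintype.card V := by
  suffices H : ∀ F : Finset J, F ⊆ E →
      finrank k (Mot p src tgt F) + 3 * F.card = 6 * Fintype.card V from H E subset_rfl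
  intro F
  induction F using Finset.induction_on with
  | empty =>
    intro _
    have : Mot p src tgt (∅ : Finset J) = ⊤ := by
      ext s; simp [mem_Mot]
    rw [this, finrank_top]
    simp [Module.finrank_pi_fintype, Module.finrank_prod, mul_comm]
  | insert e F he ih =>
    intro hF
    have h1 := finrank_Mot_insert (p := p) (src := src) (tgt := tgt) F e
    have h2 : (Mot p src tgt F).map (rho p src tgt e) = ⊤ := by
      rw [eq_top_iff, ← h e (hF (Finset.mem_insert_self e F))]
      apply Submodule.map_mono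
      apply Mot_anti
      intro a ha
      rw [Finset.mem_erase]
      exact ⟨fun h' => he (h' ▸ ha), hF (Finset.mem_insert_of_mem ha)⟩
    have h3 := ih ((Finset.subset_insert e F).trans hF)
    rw [h2, finrank_top] at h1
    rw [Finset.card_insert_of_notMem he]
    simp at h1
    omega

end Pool.Agent.LG
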