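import Pool.Agent.Lib.MP_37c7bf_LG.Bars
import Pool.Agent.Lib.MP_37c7bf_LG.Rank

/-!
Module D12. A body with one or two joints.
-/

set_option autoImplicit false

open Module

namespace Pool.Agent.LG

section aux

variable {k : Type*} [Field k]

lemma cr_zero_left (x : Vec k) : cr 0 x = 0 := by apply vec_ext <;> simp

lemma ev_zero_pair (x t : Vec k) : ev x (0, t) = t := by
  rw [ev_apply]
  simp only
  rw [cr_zero_left, zero_add]

/-- A screw with angular part `w` which fixes the point `x`. -/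
def fixS (w x : Vec k) : Scr k := (w, - cr w x)

lemma ev_fixS (w x y : Vec k) : ev y (fixS w x) = cr w (y - x) := by
  unfold fixS
  rw [ev_apply]
  apply vec_ext <;> simp <;> ring

lemma dt_cr' (F w n : Vec k) : dt F (cr w n) = dt (cr n F) w := by
  simp [dt]; ring

lemma eq_zero_of_dt' {a : Vec k} (h : ∀ w, dt a w = 0) : a = 0 := by
  apply vec_ext
  · have := h ![1, 0, 0]; simpa [dt] using this
  · have := h ![0, 1, 0]; simpa [dt] using this
  · have := h ![0, 0, 1]; simpa [dt] using this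

/-- A vector with zero cross product with `n ≠ 0` is a multiple of `n`. -/
lemma exists_smul_of_cr {n F : Vec k} (hn : n ≠ 0) (h : cr n F = 0) : ∃ α : k, F = α • n := by
  have e0 := congrFun h 0
  have e1 := congrFun h 1
  have e2 := congrFun h 2
  simp only [cr_zero_apply, cr_one_apply, cr_two_apply, Pi.zero_apply] at e0 e1 e2
  by_cases h0 : n 0 = 0
  · by_cases h1 : n 1 = 0
    · have h2 : n 2 ≠ 0 := by
        intro h2
        exact hn (vec_ext (by simpa using h0) (by simpa using h1) (by simpa using h2))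
      refine ⟨F 2 / n 2, vec_ext ?_ ?_ ?_⟩ <;> simp only [Pi.smul_apply, smul_eq_mul] <;>
        field_simp <;> first | linear_combination e0 | linear_combination e1 | linear_combination -e1 | linear_combination -e0
    · refine ⟨F 1 / n 1, vec_ext ?_ ?_ ?_⟩ <;> simp only [Pi.smul_apply, smul_eq_mul] <;>
        field_simp <;> first | linear_combination e0 | linear_combination -e0 | linear_combination e2 | linear_combination -e2
  · refine ⟨F 0 / n 0, vec_ext ?_ ?_ ?_⟩ <;> simp only [Pi.smul_apply, smul_eq_mul] <;>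
      field_simp <;> first | linear_combination e1 | linear_combination -e1 | linear_combination e2 | linear_combination -e2

/-- The velocities at `P` and `Q` have the same component along `Q - P`. -/
lemma dt_ev_sub (P Q : Vec k) (s : Scr k) : dt (Q - P) (ev Q s) = dt (Q - P) (ev P s) := by
  simp [ev_apply, dt]; ring

lemma bar_eq_neg (P Q : Vec k) (s : Scr k) : bar P Q s = - dt (Q - P) (ev P s) := by
  simp [bar_apply, ev_apply, dt]; ring

lemma dt_smul_left (α : k) (a b : Vec k) : dt (α • a) b = α * dt a b := by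
  simp [dt]; ring

end aux

section body

variable {k : Type*} [Field k] {J : Type*} {p : J → Vec k} {V : Type*} {src tgt : J → V}

open Classical in
/-- Changing the motion of the body `v`. -/
noncomputable def upd (s : V → Scr k) (v : V) (z : Scr k) : V → Scr k := Function.update s v z

lemma upd_self (s : V → Scr k) (v : V) (z : Scr k) : upd s v z v = z := by
  simp [upd]

lemma upd_ne (s : V → Scr k) {v u : V} (h : u ≠ v) (z : Scr k) : upd s v z u = s u := by
  simp [upd, h]

/-- Joints away from `v` do not see the change. -/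
lemma rho_upd_away {v : V} {e : J} (h1 : src e ≠ v) (h2 : tgt e ≠ v) (s : V → Scr k) (z : Scr k) :
    rho p src tgt e (upd s v z) = rho p src tgt e s := by
  rw [rho_apply, rho_apply, upd_ne s h1, upd_ne s h2]

/-- A joint from `v` to another body. -/
lemma rho_upd_at {v : V} {e : J} (h1 : src e = v) (h2 : tgt e ≠ v) (s : V → Scr k) (z : Scr k) :
    rho p src tgt e (upd s v z) = ev (p e) z - ev (p e) (s (tgt e)) := by
  rw [rho_apply, h1, upd_self, upd_ne s h2, map_sub]

end body

section main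

variable {k : Type*} [Field k] [CharZero k] {J : Type*} [DecidableEq J] {p : J → Vec k}
  {D : J → Fin 3 → Derivation ℤ k k} {V : Type} [Fintype V] {src tgt : J → V} {E : Finset J}

omit [CharZero k] [DecidableEq J] in
lemma Indep.ne (hD : Indep p D) {e e' : J} (h : e ≠ e') : p e' - p e ≠ 0 := by
  intro h0
  have h1 := congrFun (hD.1 e 0) 0
  have h2 := congrFun (hD.2 e e' h 0) 0
  have h3 : p e' 0 = p e 0 := by
    have := congrFun h0 0
    simpa [sub_eq_zero] using this
  simp only [dV_apply, Pi.single_eq_same, Pi.zero_apply] at h1 h2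
  rw [h3, h1] at h2
  exact one_ne_zero h2

omit [CharZero k] [Fintype V] in
/-- D1: a body with one joint. -/
theorem deg_one {v : V} {h : J} (hs : src h = v) (ht : tgt h ≠ v) (hE : h ∈ E)
    (hv : ∀ e ∈ E, e ≠ h → src e ≠ v ∧ tgt e ≠ v) :
    (Mot p src tgt (E.erase h)).map (rho p src tgt h) = ⊤ := by
  rw [eq_top_iff]
  rintro w -
  refine ⟨upd 0 v (0, w), ?_, ?_⟩
  · intro e he
    obtain ⟨h1, h2⟩ := Finset.mem_erase.1 he
    obtain ⟨h3, h4⟩ := hv e h2 h1
    rw [rho_upd_away h3 h4, map_zero]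
  · rw [rho_upd_at hs ht, ev_zero_pair]
    simp

omit [CharZero k] [Fintype V] in
/-- D2: a body with two joints. -/
theorem deg_two (hD : Indep p D) {v : V} {h₁ h₂ : J} (hne : h₁ ≠ h₂) (hs₁ : src h₁ = v)
    (hs₂ : src h₂ = v) (ht₁ : tgt h₁ ≠ v) (ht₂ : tgt h₂ ≠ v) (hE₁ : h₁ ∈ E) (hE₂ : h₂ ∈ E)
    (hv : ∀ e ∈ E, e ≠ h₁ → e ≠ h₂ → src e ≠ v ∧ tgt e ≠ v)
    (hn : ∃ s ∈ Mot p src tgt E, s (tgt h₁) ≠ s (tgt h₂)) :
    (Mot p src tgt (E.erase h₂)).map (rho p src tgt h₂) = ⊤ := by
  by_contra hc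
  obtain ⟨F, hF, hker⟩ := exists_dt_of_ne_top hc
  have hF' : ∀ s ∈ Mot p src tgt (E.erase h₂), dt F (rho p src tgt h₂ s) = 0 := fun s hs =>
    hker _ ⟨s, hs, rfl⟩
  set n := p h₂ - p h₁ with hndef
  have hn0 : n ≠ 0 := hD.ne hne
  -- membership of changed motions
  have hmem : ∀ s : V → Scr k, (∀ e ∈ (E.erase h₁).erase h₂, rho p src tgt e s = 0) → ∀ z : Scr k,
      ev (p h₁) z = ev (p h₁) (s (tgt h₁)) → upd s v z ∈ Mot p src tgt (E.erase h₂) := by
    intro s hs z hz e he
    obtain ⟨h1, h2⟩ := Finset.mem_erase.1 he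
    by_cases h3 : e = h₁
    · subst h3
      rw [rho_upd_at hs₁ ht₁, hz, sub_self]
    · obtain ⟨h4, h5⟩ := hv e h2 h3 h1
      rw [rho_upd_away h4 h5]
      exact hs e (Finset.mem_erase.2 ⟨h1, Finset.mem_erase.2 ⟨h3, h2⟩⟩)
  -- step 1: `F` is parallel to `n`
  have h1 : cr n F = 0 := by
    apply eq_zero_of_dt'
    intro w
    have h2 := hF' (upd 0 v (fixS w (p h₁))) (hmem 0 (fun e _ => map_zero _) _ (by
      rw [ev_fixS, sub_self]
      have : cr w (0 : Vec k) = 0 := by apply vec_ext <;> simp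
      rw [this]; simp))
    rw [rho_upd_at hs₂ ht₂, ev_fixS] at h2
    simp only [Pi.zero_apply, map_zero, sub_zero] at h2
    rw [← dt_cr']
    exact h2
  obtain ⟨α, rfl⟩ := exists_smul_of_cr hn0 h1
  have hα : α ≠ 0 := fun h => hF (by rw [h, zero_smul])
  -- step 2: the bar between the two joints
  set N := Mot p src tgt ((E.erase h₁).erase h₂) with hN
  have h2 : ∀ s ∈ N, bar (p h₁) (p h₂) (s (tgt h₁) - s (tgt h₂)) = 0 := by
    intro s hs
    have h3 := hF' (upd s v (0, ev (p h₁) (s (tgt h₁)))) (hmem s hs _ (ev_zero_pair _ _))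
    rw [rho_upd_at hs₂ ht₂, ev_zero_pair, dt_smul_left] at h3
    have h4 := (mul_eq_zero.1 h3).resolve_left hα
    have h5 : dt n (ev (p h₁) (s (tgt h₁)) - ev (p h₂) (s (tgt h₂))) =
        dt n (ev (p h₁) (s (tgt h₁) - s (tgt h₂))) := by
      have e1 := dt_ev_sub (p h₁) (p h₂) (s (tgt h₂))
      rw [← hndef] at e1
      rw [map_sub]
      have e2 : ∀ a b : Vec k, dt n (a - b) = dt n a - dt n b := by
        intro a b; simp [dt]; ring
      rw [e2, e2, e1]
    rw [bar_eq_neg, ← hndef, ← h5, h4, neg_zero]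
  -- step 3: differentiate
  have hnot : ∀ h, h ∉ (E.erase h₁).erase h₂ → ∀ i, ∀ s ∈ N, dM (D h i) s ∈ N :=
    fun h hh i s hs => dM_mem_of_notMem hD hh i hs
  have hn1 : h₁ ∉ (E.erase h₁).erase h₂ := by simp
  have hn2 : h₂ ∉ (E.erase h₁).erase h₂ := by simp
  let x : N →ₗ[k] Scr k :=
    { toFun := fun s => s.1 (tgt h₁) - s.1 (tgt h₂)
      map_add' := by
        intro s s'
        simp only [Submodule.coe_add, Pi.add_apply]
        abel
      map_smul' := by
        intro c s
        simp only [Submodule.coe_smul, Pi.smul_apply, smul_sub, RingHom.id_apply] }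
  have h3 : ∀ s : N, x s = 0 := by
    refine bar_zero_two (x := x) (P := p h₁) (Q := p h₂) (DP := D h₁) (DQ := D h₂)
      (hD.1 h₁) (fun i => hD.2 h₁ h₂ hne i) (hD.1 h₂)
      (δP := fun i s => ⟨dM (D h₁ i) s.1, hnot h₁ hn1 i _ s.2⟩)
      (δQ := fun i s => ⟨dM (D h₂ i) s.1, hnot h₂ hn2 i _ s.2⟩) ?_ ?_ ?_
    · intro i s
      change dS (D h₁ i) (s.1 (tgt h₁)) - dS (D h₁ i) (s.1 (tgt h₂)) = _
      rw [← dS_sub]
      rfl
    · intro i s
      change dS (D h₂ i) (s.1 (tgt h₁)) - dS (D h₂ i) (s.1 (tgt h₂)) = _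
      rw [← dS_sub]
      rfl
    · intro s
      exact h2 s.1 s.2
  obtain ⟨s, hs, hne'⟩ := hn
  have hsN : s ∈ N := Mot_anti ((Finset.erase_subset _ _).trans (Finset.erase_subset _ _)) hs
  exact hne' (sub_eq_zero.1 (h3 ⟨s, hsN⟩))

end main

end Pool.Agent.LG
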