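import Pool.Agent.Lib.MP_37c7bf_LG.Rank

/-!
Module D3a. A body with three joints, none of them of full rank increment: the bars between the
three joints vanish on all motions, and they span a space of dimension at most two on the
motions of the rest.
-/

set_option autoImplicit false

open Module

namespace Pool.Agent.LG

section vectors

variable {k : Type*} [Field k]

lemma dV_cr (d : Derivation ℤ k k) (a b : Vec k) :
    dV d (cr a b) = cr (dV d a) b + cr a (dV d b) := by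
  apply vec_ext <;> simp <;> ring

lemma exists_ne_zero_of_vec {a : Vec k} (ha : a ≠ 0) : ∃ i, a i ≠ 0 := by
  by_contra hcon
  push Not at hcon
  exact ha (funext hcon)

/-- one cross product equation -/
lemma solve_one {b β : Vec k} (hb : b ≠ 0) (h : dt β b = 0) : ∃ ω, cr ω b = β := by
  obtain ⟨i, hi⟩ := exists_ne_zero_of_vec hb
  refine ⟨(b i)⁻¹ • cr (Pi.single i 1) β, ?_⟩
  have key : cr (cr (Pi.single i 1) β) b = b i • β := by
    simp only [dt] at h
    fin_cases i <;> apply vec_ext <;> simp <;>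
      first | ring1 | linear_combination (exp := 1) h | linear_combination (exp := 1) -h
  have h2 : cr ((b i)⁻¹ • cr (Pi.single i 1) β) b = (b i)⁻¹ • cr (cr (Pi.single i 1) β) b := by
    apply vec_ext <;> simp <;> ring
  rw [h2, key, smul_smul, inv_mul_cancel₀ hi, one_smul]

/-- two cross product equations -/
lemma solve_two {b₁ b₂ β₁ β₂ : Vec k} (hn : cr b₁ b₂ ≠ 0) (h1 : dt β₁ b₁ = 0)
    (h2 : dt β₂ b₂ = 0) (h12 : dt β₁ b₂ + dt β₂ b₁ = 0) :
    ∃ ω, cr ω b₁ = β₁ ∧ cr ω b₂ = β₂ := by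
  obtain ⟨i, hi⟩ := exists_ne_zero_of_vec hn
  set ω' : Vec k := dt β₁ b₂ • Pi.single i 1 + β₂ i • b₁ - β₁ i • b₂ with hω'
  have h3 : ∀ b, cr ((cr b₁ b₂ i)⁻¹ • ω') b = (cr b₁ b₂ i)⁻¹ • cr ω' b := by
    intro b
    apply vec_ext <;> simp <;> ring
  refine ⟨(cr b₁ b₂ i)⁻¹ • ω', ?_, ?_⟩
  · have key : cr ω' b₁ = cr b₁ b₂ i • β₁ := by
      have e : cr ω' b₁ - cr b₁ b₂ i • β₁ = - (dt β₁ b₁) • cr b₂ (Pi.single i 1) := by
        rw [hω']
        fin_cases i <;> apply vec_ext <;> simp [dt] <;> ring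
      rw [h1, neg_zero, zero_smul] at e
      exact sub_eq_zero.1 e
    rw [h3, key, smul_smul, inv_mul_cancel₀ hi, one_smul]
  · have key : cr ω' b₂ = cr b₁ b₂ i • β₂ := by
      have e : cr ω' b₂ - cr b₁ b₂ i • β₂ = (dt β₁ b₂ + dt β₂ b₁) • cr (Pi.single i 1) b₂ -
          (dt β₂ b₂) • cr (Pi.single i 1) b₁ := by
        rw [hω']
        fin_cases i <;> apply vec_ext <;> simp [dt] <;> ring
      rw [h12, h2, zero_smul, zero_smul, sub_zero] at e
      exact sub_eq_zero.1 e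
    rw [h3, key, smul_smul, inv_mul_cancel₀ hi, one_smul]

/-- a vector in the plane of two vectors -/
lemma in_plane {u w F : Vec k} (hn : cr u w ≠ 0) (h : dt F (cr u w) = 0) :
    ∃ α β : k, F = α • u + β • w := by
  obtain ⟨i, hi⟩ := exists_ne_zero_of_vec hn
  refine ⟨cr F w i / cr u w i, cr u F i / cr u w i, ?_⟩
  have e : cr u w i • F = cr F w i • u + cr u F i • w + dt F (cr u w) • Pi.single i 1 := by
    fin_cases i <;> apply vec_ext <;> simp [dt] <;> ring
  rw [h, zero_smul, add_zero] at e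
  calc F = (cr u w i)⁻¹ • (cr u w i • F) := by
        rw [smul_smul, inv_mul_cancel₀ hi, one_smul]
    _ = _ := by
        rw [e, smul_add, smul_smul, smul_smul]
        simp only [div_eq_inv_mul]

lemma ev_of_other {x y : Vec k} {s : Scr k} (h : ev y s = 0) : ev x s = cr s.1 (x - y) := by
  have h0 := congrFun h 0
  have h1 := congrFun h 1
  have h2 := congrFun h 2
  simp [ev_apply] at h0 h1 h2
  apply vec_ext <;> simp [ev_apply]
  · linear_combination h0
  · linear_combination h1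
  · linear_combination h2

/-- three points -/
lemma solve_three {P α : Fin 3 → Vec k} (hn : cr (P 0 - P 1) (P 2 - P 0) ≠ 0)
    (h01 : dt (α 0 - α 1) (P 0 - P 1) = 0) (h12 : dt (α 1 - α 2) (P 1 - P 2) = 0)
    (h20 : dt (α 2 - α 0) (P 2 - P 0) = 0) : ∃ σ : Scr k, ∀ j, ev (P j) σ = α j := by
  have hn' : cr (P 1 - P 0) (P 2 - P 0) ≠ 0 := by
    intro h0
    apply hn
    have : cr (P 0 - P 1) (P 2 - P 0) = - cr (P 1 - P 0) (P 2 - P 0) := by
      apply vec_ext <;> simp <;> ring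
    rw [this, h0, neg_zero]
  obtain ⟨ω, h1, h2⟩ := solve_two (b₁ := P 1 - P 0) (b₂ := P 2 - P 0) (β₁ := α 1 - α 0)
    (β₂ := α 2 - α 0) hn' (by simp only [dt, Pi.sub_apply] at h01 ⊢; linear_combination h01)
    h20 (by
      simp only [dt, Pi.sub_apply] at h01 h12 h20 ⊢
      linear_combination h01 - h12 + h20)
  refine ⟨(ω, α 0 - cr ω (P 0)), fun j => ?_⟩
  have e1 : ∀ x, ev x ((ω, α 0 - cr ω (P 0)) : Scr k) = cr ω (x - P 0) + α 0 := by
    intro x
    apply vec_ext <;> simp [ev_apply] <;> ring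
  rw [e1]
  fin_cases j
  · simp [cr_zero_right]
  · change cr ω (P 1 - P 0) + α 0 = α 1
    rw [h1]; abel
  · change cr ω (P 2 - P 0) + α 0 = α 2
    rw [h2]; abel

/-- two points -/
lemma solve_pair {P Q α β : Vec k} (hn : P ≠ Q) (h : dt (α - β) (P - Q) = 0) :
    ∃ σ : Scr k, ev P σ = α ∧ ev Q σ = β := by
  obtain ⟨ω, h1⟩ := solve_one (b := P - Q) (β := α - β) (sub_ne_zero.2 hn) h
  refine ⟨(ω, β - cr ω Q), ?_, ?_⟩
  · have e1 : ev P ((ω, β - cr ω Q) : Scr k) = cr ω (P - Q) + β := by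
      apply vec_ext <;> simp [ev_apply] <;> ring
    rw [e1, h1]; abel
  · apply vec_ext <;> simp [ev_apply]

/-- all triple differences are multiples of one normal vector -/
lemma triple_mul (P : Fin 3 → Vec k) (l m j : Fin 3) :
    ∃ r : k, cr (P l - P j) (P l - P m) = r • cr (P 0 - P 1) (P 2 - P 0) := by
  fin_cases l <;> fin_cases m <;> fin_cases j <;>
  simp only [Fin.zero_eta, Fin.mk_one, Fin.reduceFinMk, Fin.isValue] <;>
  first
  | (refine ⟨0, ?_⟩; apply vec_ext <;> (simp; ring1))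
  | (refine ⟨0, ?_⟩; apply vec_ext <;> (simp; done))
  | (refine ⟨1, ?_⟩; apply vec_ext <;> (simp; ring1))
  | (refine ⟨1, ?_⟩; apply vec_ext <;> (simp; done))
  | (refine ⟨-1, ?_⟩; apply vec_ext <;> (simp; ring1))

end vectors

variable {k : Type*} [Field k] {J V : Type*} {p : J → Vec k} {src tgt : J → V}
  {D : J → Fin 3 → Derivation ℤ k k}

lemma indep_ne (hD : Indep p D) {e e' : J} (h : e ≠ e') : p e ≠ p e' := by
  intro h0
  have h1 := hD.1 e 0
  rw [h0, hD.2 e e' h 0] at h1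
  have := congrFun h1 0
  simp at this

lemma indep_normal (hD : Indep p D) {a b c : J} (hab : a ≠ b) (hac : a ≠ c) (hbc : b ≠ c) :
    cr (p a - p b) (p c - p a) ≠ 0 := by
  intro h0
  apply indep_ne hD hab
  rw [← sub_eq_zero]
  apply cr_single_eq_zero
  intro i
  have h1 := dV_cr (D c i) (p a - p b) (p c - p a)
  rw [h0, dV_sub, dV_sub, hD.1, hD.2 c a hac.symm, hD.2 c b hbc.symm] at h1
  have h2 : dV (D c i) (0 : Vec k) = 0 := by funext i; simp
  rw [h2, sub_zero, sub_zero] at h1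
  rw [h1]
  apply vec_ext <;> simp

section body

variable [DecidableEq J] {E : Finset J} {v : V} {h : Fin 3 → J}

/-- (i) the force is orthogonal to the normal of the plane -/
lemma d3_force (hs : ∀ j, src (h j) = v)
    (ht : ∀ j, tgt (h j) ≠ v)
    (hv : ∀ e ∈ E, (∀ j, e ≠ h j) → src e ≠ v ∧ tgt e ≠ v) {l m j : Fin 3}
    (hlm : ∀ i, i = l ∨ i = m ∨ i = j) {F : Vec k}
    (hF : ∀ w ∈ (Mot p src tgt (E.erase (h j))).map (rho p src tgt (h j)), dt F w = 0) :
    dt F (cr (p (h l) - p (h m)) (p (h j) - p (h l))) = 0 := by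
  classical
  set w : Vec k := p (h l) - p (h m) with hw
  let σ : Scr k := (w, - cr w (p (h l)))
  have e1 : ∀ x, ev x σ = cr w (x - p (h l)) := by
    intro x
    apply vec_ext <;> simp [ev_apply, σ] <;> ring
  apply hF
  refine ⟨Pi.single v σ, ?_, ?_⟩
  · intro e he
    rw [Finset.mem_erase] at he
    by_cases hex : ∃ i, e = h i
    · obtain ⟨i, rfl⟩ := hex
      rw [rho_apply, hs, Pi.single_eq_same, Pi.single_eq_of_ne (ht i), sub_zero, e1]
      rcases hlm i with rfl | rfl | rfl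
      · rw [sub_self, cr_zero_right]
      · rw [hw]; apply vec_ext <;> simp <;> ring
      · exact absurd rfl he.1
    · push Not at hex
      obtain ⟨h1, h2⟩ := hv e he.2 hex
      rw [rho_apply, Pi.single_eq_of_ne h1, Pi.single_eq_of_ne h2, sub_zero, map_zero]
  · rw [rho_apply, hs, Pi.single_eq_same, Pi.single_eq_of_ne (ht j), sub_zero, e1]

/-- (i), with the normal vector -/
lemma d3_force' (hinj : Function.Injective h) (hs : ∀ j, src (h j) = v)
    (ht : ∀ j, tgt (h j) ≠ v)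
    (hv : ∀ e ∈ E, (∀ j, e ≠ h j) → src e ≠ v ∧ tgt e ≠ v) (j : Fin 3) {F : Vec k}
    (hF : ∀ w ∈ (Mot p src tgt (E.erase (h j))).map (rho p src tgt (h j)), dt F w = 0) :
    dt F (cr (p (h 0) - p (h 1)) (p (h 2) - p (h 0))) = 0 := by
  fin_cases j
  · have e := d3_force (l := 1) (m := 2) (j := 0) hs ht hv (by decide) hF
    rw [← e]
    congr 1
    apply vec_ext <;> simp <;> ring
  · have e := d3_force (l := 2) (m := 0) (j := 1) hs ht hv (by decide) hF
    rw [← e]
    congr 1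
    apply vec_ext <;> simp <;> ring
  · exact d3_force (l := 0) (m := 1) (j := 2) hs ht hv (by decide) hF

/-- (ii) for one joint -/
lemma d3_rel (hD : Indep p D) (hinj : Function.Injective h) (hs : ∀ j, src (h j) = v)
    (ht : ∀ j, tgt (h j) ≠ v) (hE : ∀ j, h j ∈ E)
    (hv : ∀ e ∈ E, (∀ j, e ≠ h j) → src e ≠ v ∧ tgt e ≠ v)
    (hnot : ∀ j, (Mot p src tgt (E.erase (h j))).map (rho p src tgt (h j)) ≠ ⊤)
    {s : V → Scr k} (hsE : s ∈ Mot p src tgt E) (l m j : Fin 3) :
    bar (p (h l)) (p (h m)) (s v - s (tgt (h j))) = 0 := by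
  obtain ⟨F, hF0, hF⟩ := exists_dt_of_ne_top (hnot j)
  have h1 := d3_force' hinj hs ht hv j hF
  have h2 : cr F (rel src tgt (h j) s).1 = 0 := by
    apply cr_eq_zero_of_dt
    intro b
    apply hF
    apply cross_mem_map hD (Finset.notMem_erase (h j) E)
    rw [Finset.insert_erase (hE j)]
    exact hsE
  obtain ⟨r, hr⟩ := (cr_eq_zero_iff hF0).1 h2
  have h3 : ev (p (h j)) (s v - s (tgt (h j))) = 0 := by
    have := hsE (h j) (hE j)
    rwa [rho_apply, hs] at this
  have h4 : (s v - s (tgt (h j))).1 = r • F := by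
    rw [← hr, rel_apply, hs]
  obtain ⟨q, hq⟩ := triple_mul (fun i => p (h i)) l m j
  rw [bar_apply, ev_of_other h3, h4]
  have h5 : dt (cr (r • F) (p (h l) - p (h j))) (p (h l) - p (h m)) =
      r * dt F (cr (p (h l) - p (h j)) (p (h l) - p (h m))) := by
    simp [dt]; ring
  rw [h5]
  rw [hq]
  have h6 : dt F (q • cr (p (h 0) - p (h 1)) (p (h 2) - p (h 0))) =
      q * dt F (cr (p (h 0) - p (h 1)) (p (h 2) - p (h 0))) := by
    simp [dt]; ring
  rw [h6, h1]
  ring

/-- (ii) -/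
theorem deg_three_kill (hD : Indep p D) (hinj : Function.Injective h) (hs : ∀ j, src (h j) = v)
    (ht : ∀ j, tgt (h j) ≠ v) (hE : ∀ j, h j ∈ E)
    (hv : ∀ e ∈ E, (∀ j, e ≠ h j) → src e ≠ v ∧ tgt e ≠ v)
    (hnot : ∀ j, (Mot p src tgt (E.erase (h j))).map (rho p src tgt (h j)) ≠ ⊤) :
    ∀ s ∈ Mot p src tgt E, ∀ l m i j,
      bar (p (h l)) (p (h m)) (s (tgt (h i)) - s (tgt (h j))) = 0 := by
  intro s hsE l m i j
  have e : s (tgt (h i)) - s (tgt (h j)) =
      (s v - s (tgt (h j))) - (s v - s (tgt (h i))) := by abel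
  rw [e, map_sub, d3_rel hD hinj hs ht hE hv hnot hsE, d3_rel hD hinj hs ht hE hv hnot hsE,
    sub_zero]

/-- changing the motion of `v` only -/
lemma update_mem [DecidableEq V] (hs : ∀ j, src (h j) = v) (ht : ∀ j, tgt (h j) ≠ v)
    (hv : ∀ e ∈ E, (∀ j, e ≠ h j) → src e ≠ v ∧ tgt e ≠ v) {s : V → Scr k}
    (hsM : s ∈ Mot p src tgt (E.filter fun e => ∀ j, e ≠ h j)) {F : Finset J} (hFE : F ⊆ E)
    {σ : Scr k} (hσ : ∀ j, h j ∈ F → ev (p (h j)) (σ - s (tgt (h j))) = 0) :
    Function.update s v σ ∈ Mot p src tgt F := by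
  intro e he
  by_cases hex : ∃ i, e = h i
  · obtain ⟨i, rfl⟩ := hex
    rw [rho_apply, hs, Function.update_self, Function.update_of_ne (ht i)]
    exact hσ i he
  · push Not at hex
    obtain ⟨h1, h2⟩ := hv e (hFE he) hex
    rw [rho_apply, Function.update_of_ne h1, Function.update_of_ne h2]
    exact hsM e (Finset.mem_filter.2 ⟨hFE he, hex⟩)

/-- (iii): extension to all three joints -/
lemma extend_three [DecidableEq V] (hD : Indep p D) (hinj : Function.Injective h)
    (hs : ∀ j, src (h j) = v) (ht : ∀ j, tgt (h j) ≠ v)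
    (hv : ∀ e ∈ E, (∀ j, e ≠ h j) → src e ≠ v ∧ tgt e ≠ v) {s : V → Scr k}
    (hsM : s ∈ Mot p src tgt (E.filter fun e => ∀ j, e ≠ h j))
    (hX : bar (p (h 0)) (p (h 1)) (s (tgt (h 0)) - s (tgt (h 1))) = 0)
    (hY : bar (p (h 1)) (p (h 2)) (s (tgt (h 1)) - s (tgt (h 2))) = 0)
    (hZ : bar (p (h 2)) (p (h 0)) (s (tgt (h 2)) - s (tgt (h 0))) = 0) :
    ∃ σ, Function.update s v σ ∈ Mot p src tgt E := by
  have hn := indep_normal hD (a := h 0) (b := h 1) (c := h 2)
    (fun e => absurd (hinj e) (by decide)) (fun e => absurd (hinj e) (by decide))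
    (fun e => absurd (hinj e) (by decide))
  have conv : ∀ a b : Fin 3, bar (p (h a)) (p (h b)) (s (tgt (h a)) - s (tgt (h b))) =
      dt (ev (p (h a)) (s (tgt (h a))) - ev (p (h b)) (s (tgt (h b)))) (p (h a) - p (h b)) := by
    intro a b
    simp [bar_apply, ev_apply, dt]; ring
  obtain ⟨σ, hσ⟩ := solve_three (P := fun j => p (h j))
    (α := fun j => ev (p (h j)) (s (tgt (h j)))) hn (by rw [← conv]; exact hX)
    (by rw [← conv]; exact hY) (by rw [← conv]; exact hZ)
  refine ⟨σ, update_mem hs ht hv hsM subset_rfl fun j _ => ?_⟩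
  rw [map_sub, hσ j, sub_self]

/-- (iv): the functionals `X`, `Y`, `Z` are dependent -/
lemma d3_dep [DecidableEq V] (hD : Indep p D) (hinj : Function.Injective h)
    (hs : ∀ j, src (h j) = v) (ht : ∀ j, tgt (h j) ≠ v)
    (hv : ∀ e ∈ E, (∀ j, e ≠ h j) → src e ≠ v ∧ tgt e ≠ v)
    (hnot : ∀ j, (Mot p src tgt (E.erase (h j))).map (rho p src tgt (h j)) ≠ ⊤) :
    ∃ α β : k, (α ≠ 0 ∨ β ≠ 0) ∧
      ∀ s ∈ Mot p src tgt (E.filter fun e => ∀ j, e ≠ h j),
        bar (p (h 0)) (p (h 1)) (s (tgt (h 0)) - s (tgt (h 1))) = 0 →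
        α * bar (p (h 2)) (p (h 0)) (s (tgt (h 2)) - s (tgt (h 0))) +
          β * bar (p (h 1)) (p (h 2)) (s (tgt (h 1)) - s (tgt (h 2))) = 0 := by
  have n01 : h 0 ≠ h 1 := fun e => absurd (hinj e) (by decide)
  have n02 : h 0 ≠ h 2 := fun e => absurd (hinj e) (by decide)
  have n12 : h 1 ≠ h 2 := fun e => absurd (hinj e) (by decide)
  obtain ⟨F, hF0, hF⟩ := exists_dt_of_ne_top (hnot 2)
  have h1 := d3_force' hinj hs ht hv 2 hF
  have hn' : cr (p (h 2) - p (h 0)) (p (h 2) - p (h 1)) ≠ 0 := by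
    intro h0
    apply indep_normal hD n01 n02 n12
    have : cr (p (h 0) - p (h 1)) (p (h 2) - p (h 0)) =
        - cr (p (h 2) - p (h 0)) (p (h 2) - p (h 1)) := by
      apply vec_ext <;> simp <;> ring
    rw [this, h0, neg_zero]
  have h2 : dt F (cr (p (h 2) - p (h 0)) (p (h 2) - p (h 1))) = 0 := by
    have : cr (p (h 2) - p (h 0)) (p (h 2) - p (h 1)) =
        - cr (p (h 0) - p (h 1)) (p (h 2) - p (h 0)) := by
      apply vec_ext <;> simp <;> ring
    rw [this]
    have e : ∀ a : Vec k, dt F (-a) = - dt F a := by intro a; simp [dt]; ring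
    rw [e, h1, neg_zero]
  obtain ⟨α, β, hab⟩ := in_plane hn' h2
  refine ⟨α, β, ?_, ?_⟩
  · by_contra hcon
    push Not at hcon
    apply hF0
    rw [hab, hcon.1, hcon.2, zero_smul, zero_smul, add_zero]
  intro s hsM hX
  have conv : bar (p (h 0)) (p (h 1)) (s (tgt (h 0)) - s (tgt (h 1))) =
      dt (ev (p (h 0)) (s (tgt (h 0))) - ev (p (h 1)) (s (tgt (h 1)))) (p (h 0) - p (h 1)) := by
    simp [bar_apply, ev_apply, dt]; ring
  rw [conv] at hX
  obtain ⟨σ, hσ0, hσ1⟩ := solve_pair (indep_ne hD n01) hX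
  have hmem : Function.update s v σ ∈ Mot p src tgt (E.erase (h 2)) := by
    refine update_mem hs ht hv hsM (Finset.erase_subset _ _) fun j hj => ?_
    rw [Finset.mem_erase] at hj
    fin_cases j
    · change ev (p (h 0)) (σ - s (tgt (h 0))) = 0
      rw [map_sub, hσ0, sub_self]
    · change ev (p (h 1)) (σ - s (tgt (h 1))) = 0
      rw [map_sub, hσ1, sub_self]
    · exact absurd rfl hj.1
  have h3 := hF _ ⟨_, hmem, rfl⟩
  rw [rho_apply, hs, Function.update_self, Function.update_of_ne (ht 2), hab] at h3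
  have g0 := congrFun hσ0
  have g1 := congrFun hσ1
  have a0 := g0 0
  have a1 := g0 1
  have a2 := g0 2
  have b0 := g1 0
  have b1 := g1 1
  have b2 := g1 2
  simp [ev_apply] at a0 a1 a2 b0 b1 b2
  simp [bar_apply, ev_apply, dt] at h3 ⊢
  linear_combination (exp := 1) -h3 +
    α * ((p (h 2) 0 - p (h 0) 0) * a0 + (p (h 2) 1 - p (h 0) 1) * a1 +
      (p (h 2) 2 - p (h 0) 2) * a2) +
    β * ((p (h 2) 0 - p (h 1) 0) * b0 + (p (h 2) 1 - p (h 1) 1) * b1 +
      (p (h 2) 2 - p (h 1) 2) * b2)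

/-- (iii), (iv): if two bars are independent, they span all the bars. -/
theorem deg_three_span (hD : Indep p D) (hinj : Function.Injective h) (hs : ∀ j, src (h j) = v)
    (ht : ∀ j, tgt (h j) ≠ v) (hE : ∀ j, h j ∈ E)
    (hv : ∀ e ∈ E, (∀ j, e ≠ h j) → src e ≠ v ∧ tgt e ≠ v)
    (hnot : ∀ j, (Mot p src tgt (E.erase (h j))).map (rho p src tgt (h j)) ≠ ⊤)
    (hind : ∀ α β : k, (∀ s ∈ Mot p src tgt (E.filter fun e => ∀ j, e ≠ h j),
      α * bar (p (h 0)) (p (h 1)) (s (tgt (h 0)) - s (tgt (h 1))) +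
        β * bar (p (h 0)) (p (h 1)) (s (tgt (h 1)) - s (tgt (h 2))) = 0) → α = 0 ∧ β = 0) :
    ∀ l m i j, ∃ α β : k, ∀ s ∈ Mot p src tgt (E.filter fun e => ∀ j, e ≠ h j),
      bar (p (h l)) (p (h m)) (s (tgt (h i)) - s (tgt (h j))) =
        α * bar (p (h 0)) (p (h 1)) (s (tgt (h 0)) - s (tgt (h 1))) +
        β * bar (p (h 0)) (p (h 1)) (s (tgt (h 1)) - s (tgt (h 2))) := by
  classical
  set M := Mot p src tgt (E.filter fun e => ∀ j, e ≠ h j) with hM
  let bf : Fin 3 → Fin 3 → Fin 3 → Fin 3 → (M →ₗ[k] k) := fun l m i j =>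
    (bar (p (h l)) (p (h m))).comp
      (((LinearMap.proj (tgt (h i)) : (V → Scr k) →ₗ[k] Scr k) -
        (LinearMap.proj (tgt (h j)) : (V → Scr k) →ₗ[k] Scr k)).comp M.subtype)
  have hbf : ∀ l m i j (s : M), bf l m i j s =
      bar (p (h l)) (p (h m)) (s.1 (tgt (h i)) - s.1 (tgt (h j))) := fun _ _ _ _ _ => rfl
  let X := bf 0 1 0 1
  let Y := bf 1 2 1 2
  let Z := bf 2 0 2 0
  -- all bars are combinations of the three
  have h1 : ∀ l m i j, ∃ a b c : k, ∀ s : M, bf l m i j s = a * X s + b * Y s + c * Z s := by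
    intro l m i j
    have hmem : bf l m i j ∈ Submodule.span k (Set.range ![X, Y, Z]) := by
      apply mem_span_of_iInf_ker_le_ker
      intro s hs0
      simp only [Submodule.mem_iInf, LinearMap.mem_ker] at hs0
      have e0 : X s = 0 := hs0 0
      have e1 : Y s = 0 := hs0 1
      have e2 : Z s = 0 := hs0 2
      obtain ⟨σ, hσ⟩ := extend_three hD hinj hs ht hv s.2 e0 e1 e2
      have hk := deg_three_kill hD hinj hs ht hE hv hnot _ hσ l m i j
      rw [Function.update_of_ne (ht i), Function.update_of_ne (ht j)] at hk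
      rw [LinearMap.mem_ker, hbf]
      exact hk
    rw [Submodule.mem_span_range_iff_exists_fun] at hmem
    obtain ⟨c, hc⟩ := hmem
    refine ⟨c 0, c 1, c 2, fun s => ?_⟩
    rw [← hc]
    simp [Fin.sum_univ_three]
  -- the three are dependent
  obtain ⟨α, β, hab, hdep⟩ := d3_dep hD hinj hs ht hv hnot
  have h2 : ∃ γ : k, ∀ s : M, α * Z s + β * Y s = γ * X s := by
    have hmem : α • Z + β • Y ∈ Submodule.span k (Set.range (fun _ : Fin 1 => X)) := by
      apply mem_span_of_iInf_ker_le_ker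
      intro s hs0
      simp only [Submodule.mem_iInf, LinearMap.mem_ker] at hs0
      exact hdep s.1 s.2 (hs0 0)
    rw [Submodule.mem_span_range_iff_exists_fun] at hmem
    obtain ⟨c, hc⟩ := hmem
    refine ⟨c 0, fun s => ?_⟩
    have := congrArg (fun g : M →ₗ[k] k => g s) hc
    simpa using this.symm
  obtain ⟨γ, hγ⟩ := h2
  -- hence all are combinations of `X` and one more
  have h3 : ∃ U : M → k, ∀ l m i j, ∃ a b : k, ∀ s : M, bf l m i j s = a * X s + b * U s := by
    by_cases hα : α = 0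
    · have hβ : β ≠ 0 := hab.resolve_left (fun h => h hα)
      refine ⟨Z, fun l m i j => ?_⟩
      obtain ⟨a, b, c, h⟩ := h1 l m i j
      refine ⟨a + b * (γ / β), c, fun s => ?_⟩
      have e := hγ s
      rw [hα, zero_mul, zero_add] at e
      have e2 : Y s = γ / β * X s := by
        field_simp
        linear_combination e
      rw [h s, e2]; ring
    · refine ⟨Y, fun l m i j => ?_⟩
      obtain ⟨a, b, c, h⟩ := h1 l m i j
      refine ⟨a + c * (γ / α), b - c * (β / α), fun s => ?_⟩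
      have e := hγ s
      have e2 : Z s = γ / α * X s - β / α * Y s := by
        field_simp
        linear_combination e
      rw [h s, e2]; ring
  obtain ⟨U, hU⟩ := h3
  obtain ⟨a₀, b₀, h4⟩ := hU 0 1 1 2
  have hb₀ : b₀ ≠ 0 := by
    intro hb
    have := (hind (-a₀) 1 (fun s hsM => by
      have e := h4 ⟨s, hsM⟩
      rw [hb, zero_mul, add_zero] at e
      change - a₀ * X ⟨s, hsM⟩ + 1 * bf 0 1 1 2 ⟨s, hsM⟩ = 0
      rw [e]; ring)).2
    exact one_ne_zero this
  intro l m i j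
  obtain ⟨a, b, h5⟩ := hU l m i j
  refine ⟨a - b * (a₀ / b₀), b / b₀, fun s hsM => ?_⟩
  have e := h4 ⟨s, hsM⟩
  have e' := h5 ⟨s, hsM⟩
  change bf l m i j ⟨s, hsM⟩ = (a - b * (a₀ / b₀)) * X ⟨s, hsM⟩ + b / b₀ * bf 0 1 1 2 ⟨s, hsM⟩
  rw [e, e']
  field_simp
  ring

end body

end Pool.Agent.LG
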