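import Pool.Agent.Lib.MP_37c7bf_LG.D12
import Pool.Agent.Lib.MP_37c7bf_LG.Crl

/-!
Module D3b. A body with three joints: the contradiction from the bar relations.
-/

set_option autoImplicit false

open Module

namespace Pool.Agent.LG

section

variable {k : Type*} [Field k] {J : Type*} {p : J → Vec k} {V : Type*} {src tgt : J → V}

/-- The relative screw of two bodies. -/
def relV (u w : V) : (V → Scr k) →ₗ[k] Scr k where
  toFun s := s u - s w
  map_add' := by
    intro s s'
    simp only [Pi.add_apply]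
    abel
  map_smul' := by
    intro c s
    simp only [Pi.smul_apply, smul_sub, RingHom.id_apply]

lemma relV_apply (u w : V) (s : V → Scr k) : relV u w s = s u - s w := rfl

/-- The relative screw as a map on the motions. -/
def relM (p : J → Vec k) (src tgt : J → V) (E : Finset J) (u w : V) :
    Mot p src tgt E →ₗ[k] Scr k := (relV u w).comp (Mot p src tgt E).subtype

lemma relM_apply (E : Finset J) (u w : V) (s : Mot p src tgt E) :
    relM p src tgt E u w s = s.1 u - s.1 w := rfl

end

section lin

variable {k : Type*} [Field k] {M : Type*} [AddCommGroup M] [Module k M]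

/-- Two independent functionals on the image of `x` of dimension at most two. -/
lemma eq_zero_of_two {N : Type*} [AddCommGroup N] [Module k N] [FiniteDimensional k M]
    (x : M →ₗ[k] N) (hx : finrank k (LinearMap.range x) ≤ 2) (f g : N →ₗ[k] k)
    (hf0 : f.comp x ≠ 0) (hg : ∀ c : k, g.comp x ≠ c • f.comp x) {s : M} (h1 : f (x s) = 0)
    (h2 : g (x s) = 0) : x s = 0 := by
  by_contra hne
  set X := LinearMap.range x with hX
  let y : X := ⟨x s, ⟨s, rfl⟩⟩
  have hy : y ≠ 0 := by
    intro h
    exact hne (congrArg Subtype.val h)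
  let f' : Dual k X := f.comp X.subtype
  let g' : Dual k X := g.comp X.subtype
  -- the annihilator of `y` has dimension at most one
  let K : Submodule k (Dual k X) := LinearMap.ker (Dual.eval k X y)
  have hK : finrank k K ≤ 1 := by
    have h3 := LinearMap.finrank_range_add_finrank_ker (Dual.eval k X y)
    have h4 : finrank k (Dual k X) = finrank k X := Subspace.dual_finrank_eq
    have h5 : 0 < finrank k (LinearMap.range (Dual.eval k X y)) := by
      rw [Module.finrank_pos_iff_exists_ne_zero]
      obtain ⟨φ, hφ⟩ : ∃ φ : Dual k X, φ y ≠ 0 := by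
        by_contra hc
        push Not at hc
        exact hy ((Module.forall_dual_apply_eq_zero_iff k y).1 hc)
      refine ⟨⟨φ y, ⟨φ, rfl⟩⟩, ?_⟩
      intro h
      exact hφ (congrArg Subtype.val h)
    change finrank k (LinearMap.ker (Dual.eval k X y)) ≤ 1
    omega
  have hfK : f' ∈ K := h1
  have hgK : g' ∈ K := h2
  have hf'0 : f' ≠ 0 := by
    intro h
    apply hf0
    ext t
    exact LinearMap.congr_fun h ⟨x t, ⟨t, rfl⟩⟩
  -- `g'` is a multiple of `f'`
  have h6 : ∃ c : k, g' = c • f' := by
    have h7 : Submodule.span k {f'} = K := by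
      refine Submodule.eq_of_le_of_finrank_le ?_ ?_
      · rw [Submodule.span_le]
        rintro _ rfl
        exact hfK
      · rw [finrank_span_singleton hf'0]
        exact hK
    rw [← h7, Submodule.mem_span_singleton] at hgK
    obtain ⟨c, hc⟩ := hgK
    exact ⟨c, hc.symm⟩
  obtain ⟨c, hc⟩ := h6
  apply hg c
  ext t
  exact LinearMap.congr_fun hc ⟨x t, ⟨t, rfl⟩⟩

end lin

section main

variable {k : Type*} [Field k] [CharZero k] {J : Type*} {p : J → Vec k}
  {D : J → Fin 3 → Derivation ℤ k k} {V : Type} [Fintype V] {src tgt : J → V} {E E' : Finset J}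

lemma cr_self (w : Vec k) : cr w w = 0 := by
  apply vec_ext <;> simp <;> ring

/-- Differentiating the relation between the relative screws. -/
lemma ratio_step (hD : Indep p D) {a : Fin 3 → V} {c : k} {g : J}
    (hy : ∀ s ∈ Mot p src tgt E', s (a 1) - s (a 2) = c • (s (a 0) - s (a 1)))
    {s : V → Scr k} (hs : s ∈ Mot p src tgt E') (hx : s (a 0) - s (a 1) ≠ 0) {d : Vec k}
    (hd : cr (rel src tgt g s).1 d = 0) : dirD (D g) d c = 0 := by
  have h1 := dM_dirD_mem hD g d hs hd
  have h2 := hy _ h1
  simp only [dM_apply] at h2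
  rw [← dS_sub, hy s hs, dS_smul, ← dS_sub] at h2
  have h3 : dirD (D g) d c • (s (a 0) - s (a 1)) = 0 := by
    have h4 := sub_eq_zero.2 h2
    rwa [add_sub_cancel_right] at h4
  exact (smul_eq_zero.1 h3).resolve_right hx

/-- The functional `d ↦ dirD D d c`. -/
def dirL (D : Fin 3 → Derivation ℤ k k) (c : k) : Vec k →ₗ[k] k where
  toFun d := dirD D d c
  map_add' := by
    intro x y
    rw [dirD_apply, dirD_apply, dirD_apply]
    simp only [Pi.add_apply]
    ring
  map_smul' := by
    intro r x
    rw [dirD_apply, dirD_apply]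
    simp only [Pi.smul_apply, smul_eq_mul, RingHom.id_apply]
    ring

/-- The ratio of the relative screws is constant along all joints of `E'`. -/
lemma ratio_const (hD : Indep p D) {a : Fin 3 → V} {c : k} {g : J}
    (hy : ∀ s ∈ Mot p src tgt E', s (a 1) - s (a 2) = c • (s (a 0) - s (a 1)))
    (hx : 3 ≤ finrank k (LinearMap.range (relM p src tgt E' (a 0) (a 1)))) :
    ∀ i, D g i c = 0 := by
  by_contra hc
  push Not at hc
  obtain ⟨i, hi⟩ := hc
  set x := relM p src tgt E' (a 0) (a 1) with hxdef
  -- the relative rotation at `g`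
  let w : Mot p src tgt E' →ₗ[k] Vec k :=
    (LinearMap.fst k (Vec k) (Vec k)).comp ((rel src tgt g).comp (Mot p src tgt E').subtype)
  have hw : ∀ s : Mot p src tgt E', w s = (rel src tgt g s.1).1 := fun s => rfl
  have hL : dirL (D g) c ≠ 0 := by
    intro h0
    apply hi
    have h1 := LinearMap.congr_fun h0 (Pi.single i 1)
    have h2 : dirL (D g) c (Pi.single i 1) = D g i c := by
      change dirD (D g) (Pi.single i 1) c = _
      rw [dirD_apply]
      fin_cases i <;> simp
    rw [h2] at h1
    exact h1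
  have h1 : ∀ s : Mot p src tgt E', x s ≠ 0 → w s ≠ 0 ∧ dirL (D g) c (w s) = 0 := by
    intro s hs
    constructor
    · intro h0
      apply hL
      refine LinearMap.ext fun d => ?_
      refine ratio_step hD hy s.2 hs (d := d) ?_
      rw [← hw s, h0]
      exact cr_zero_left d
    · exact ratio_step hD hy s.2 hs (d := w s) (cr_self _)
  obtain ⟨s₀, hs₀⟩ : ∃ s, x s ≠ 0 := by
    by_contra hall
    push Not at hall
    have h2 : x = 0 := LinearMap.ext hall
    rw [h2, LinearMap.range_zero, finrank_bot] at hx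
    omega
  have h2 : ∀ s, dirL (D g) c (w s) = 0 := by
    intro s
    by_cases hs : x s = 0
    · have h3 : x (s + s₀) ≠ 0 := by rw [map_add, hs, zero_add]; exact hs₀
      have h4 := (h1 _ h3).2
      rw [map_add, map_add, (h1 _ hs₀).2, add_zero] at h4
      exact h4
    · exact (h1 s hs).2
  have h3 : LinearMap.range w ≤ LinearMap.ker (dirL (D g) c) := by
    rintro _ ⟨s, rfl⟩
    exact h2 s
  have h4 : finrank k (LinearMap.ker (dirL (D g) c)) ≤ 2 := by
    have h5 := LinearMap.finrank_range_add_finrank_ker (dirL (D g) c)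
    have h6 : finrank k (Vec k) = 3 := by simp
    have h7 : 0 < finrank k (LinearMap.range (dirL (D g) c)) := by
      rw [Module.finrank_pos_iff_exists_ne_zero]
      by_contra hall
      push Not at hall
      apply hL
      refine LinearMap.ext fun d => ?_
      exact congrArg Subtype.val (hall ⟨dirL (D g) c d, ⟨d, rfl⟩⟩)
    omega
  have h5 : finrank k (LinearMap.range w) ≤ 2 := (Submodule.finrank_mono h3).trans h4
  have h6 : LinearMap.ker w ≤ LinearMap.ker x := by
    intro s hs
    rw [LinearMap.mem_ker] at hs ⊢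
    by_contra hne
    exact (h1 s hne).1 hs
  have h7 := LinearMap.finrank_range_add_finrank_ker w
  have h8 := LinearMap.finrank_range_add_finrank_ker x
  have h9 := Submodule.finrank_mono h6
  omega

/-- The contradiction. -/
theorem d3b (hD : Indep p D) {h : Fin 3 → J} (hinj : Function.Injective h) {a : Fin 3 → V}
    (hE' : E' ⊆ E) (hnot : ∀ j, h j ∉ E')
    (H1 : ∀ s ∈ Mot p src tgt E, ∀ l m i j, bar (p (h l)) (p (h m)) (s (a i) - s (a j)) = 0)
    (H2 : (∀ α β : k, (∀ s ∈ Mot p src tgt E', α * bar (p (h 0)) (p (h 1)) (s (a 0) - s (a 1)) +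
        β * bar (p (h 0)) (p (h 1)) (s (a 1) - s (a 2)) = 0) → α = 0 ∧ β = 0) →
      ∀ l m i j, ∃ α β : k, ∀ s ∈ Mot p src tgt E',
        bar (p (h l)) (p (h m)) (s (a i) - s (a j)) =
          α * bar (p (h 0)) (p (h 1)) (s (a 0) - s (a 1)) +
            β * bar (p (h 0)) (p (h 1)) (s (a 1) - s (a 2)))
    (H3 : ∀ i j, i ≠ j → ∃ s ∈ Mot p src tgt E, s (a i) ≠ s (a j)) : False := by
  classical
  have hP : Trip (fun j => p (h j)) (fun j => D (h j)) :=
    ⟨fun j => hD.1 (h j), fun j l hjl => hD.2 (h j) (h l) fun e => hjl (hinj e)⟩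
  let δ : Fin 3 → Fin 3 → Mot p src tgt E' → Mot p src tgt E' := fun j i s =>
    ⟨dM (D (h j) i) s.1, dM_mem_of_notMem hD (hnot j) i s.2⟩
  have hcpt : ∀ i j, Cpt (fun j => D (h j)) δ (relM p src tgt E' (a i) (a j)) := by
    intro i j l m s
    change dS (D (h l) m) (s.1 (a i)) - dS (D (h l) m) (s.1 (a j)) = _
    rw [← dS_sub]
    rfl
  -- a relative screw which vanishes where the bars vanish
  have hkill : ∀ i j, i ≠ j → ¬ ∀ s : Mot p src tgt E,
      relM p src tgt E' (a i) (a j) ⟨s.1, Mot_anti hE' s.2⟩ = 0 := by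
    intro i j hij hall
    obtain ⟨s, hs, hne⟩ := H3 i j hij
    exact hne (sub_eq_zero.1 (hall ⟨s, hs⟩))
  set x := relM p src tgt E' (a 0) (a 1) with hx
  set y := relM p src tgt E' (a 1) (a 2) with hy
  have b1 : ∀ s : Mot p src tgt E, ∀ l m i j,
      bar (p (h l)) (p (h m)) (relM p src tgt E' (a i) (a j) ⟨s.1, Mot_anti hE' s.2⟩) = 0 :=
    fun s l m i j => H1 s.1 s.2 l m i j
  have n01 : (0 : Fin 3) ≠ 1 := by decide
  have n12 : (1 : Fin 3) ≠ 2 := by decide
  have n02 : (0 : Fin 3) ≠ 2 := by decide
  -- the functional `bar P0 P1 x` is not zero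
  have hα : (bar (p (h 0)) (p (h 1))).comp x ≠ 0 := by
    intro h0
    refine hkill 0 1 n01 fun s => ?_
    exact bar_zero hP (hcpt 0 1) n01 (fun s => LinearMap.congr_fun h0 s) _
  have hcase : (∀ l m i j, ∃ α β : k, ∀ s : Mot p src tgt E',
      bar (p (h l)) (p (h m)) (relM p src tgt E' (a i) (a j) s) =
        α * bar (p (h 0)) (p (h 1)) (x s) + β * bar (p (h 0)) (p (h 1)) (y s)) ∨
      ∃ c : k, ∀ s, bar (p (h 0)) (p (h 1)) (y s) = c * bar (p (h 0)) (p (h 1)) (x s) := by
    by_cases hind : ∀ α β : k, (∀ s ∈ Mot p src tgt E',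
        α * bar (p (h 0)) (p (h 1)) (s (a 0) - s (a 1)) +
          β * bar (p (h 0)) (p (h 1)) (s (a 1) - s (a 2)) = 0) → α = 0 ∧ β = 0
    · left
      intro l m i j
      obtain ⟨α, β, hαβ⟩ := H2 hind l m i j
      exact ⟨α, β, fun s => hαβ s.1 s.2⟩
    · right
      push Not at hind
      obtain ⟨α, β, h1, h2⟩ := hind
      have hβ : β ≠ 0 := by
        intro hβ
        by_cases hα0 : α = 0
        · exact h2 hα0 hβ
        · apply hα
          refine LinearMap.ext fun s => ?_
          have h3 := h1 s.1 s.2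
          rw [hβ, zero_mul, add_zero] at h3
          exact (mul_eq_zero.1 h3).resolve_left hα0
      refine ⟨-(α / β), fun s => ?_⟩
      have h3 : α * bar (p (h 0)) (p (h 1)) (x s) + β * bar (p (h 0)) (p (h 1)) (y s) = 0 :=
        h1 s.1 s.2
      field_simp
      linear_combination h3
  rcases hcase with hsp | ⟨c, hc'⟩
  · -- case A
    refine hkill 0 1 n01 fun s => ?_
    exact bar_span_two hP (hcpt 0 1) (hcpt 1 2) (hsp 0 2 0 1) (hsp 1 2 0 1) (hsp 1 2 1 2) _
      (b1 s 0 1 0 1) (b1 s 0 1 1 2)
  · -- case B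
    have hc0 : c ≠ 0 := by
      intro h0
      refine hkill 1 2 n12 fun s => ?_
      refine bar_zero hP (hcpt 1 2) n01 (fun s => ?_) _
      have := hc' s
      rw [h0, zero_mul] at this
      exact this
    have hc1 : c ≠ -1 := by
      intro h0
      refine hkill 0 2 n02 fun s => ?_
      refine bar_zero hP (hcpt 0 2) n01 (fun s => ?_) _
      have e1 : relM p src tgt E' (a 0) (a 2) s = x s + y s := by
        rw [hx, hy, relM_apply, relM_apply, relM_apply]
        abel
      rw [e1]
      change bar (p (h 0)) (p (h 1)) (x s + y s) = 0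
      rw [map_add, hc' s, h0]
      ring
    rcases bar_prop hP (hcpt 0 1) (hcpt 1 2) n01 c hc' with h1 | ⟨h1, -, -⟩
    · exact hkill 0 1 n01 fun s => h1 _ (b1 s 0 1 0 1)
    · -- the image of `x` has dimension at least three
      have h3 : 3 ≤ finrank k (LinearMap.range x) := by
        by_contra hlt
        have hle : finrank k (LinearMap.range x) ≤ 2 := by omega
        refine hkill 0 1 n01 fun s => ?_
        by_cases hdep : ∃ c' : k, (bar (p (h 1)) (p (h 2))).comp x =
            c' • (bar (p (h 0)) (p (h 1))).comp x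
        · obtain ⟨c', hc'⟩ := hdep
          exact bar_dep hP (hcpt 0 1) n01 n12 n02 c' (fun s => LinearMap.congr_fun hc' s) _
            (b1 s 0 1 0 1)
        · push Not at hdep
          exact eq_zero_of_two x hle _ _ hα hdep (b1 s 0 1 0 1) (b1 s 1 2 0 1)
      have h4 : ∀ s ∈ Mot p src tgt E', s (a 1) - s (a 2) = c • (s (a 0) - s (a 1)) :=
        fun s hs => h1 ⟨s, hs⟩
      have h5 := crl hD c hc0 hc1 (E := E') (fun g _ i => ratio_const hD h4 h3 i) h4
      obtain ⟨s, hs, hne⟩ := H3 0 1 n01
      exact hne (h5 s (Mot_anti hE' hs))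

end main

end Pool.Agent.LG
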