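import Pool.Agent.Lib.MP_37c7bf_LG.Stmt

/-!
Bodies in three-space joined by ball joints, over an arbitrary field.
A body `v` moves with a screw `s v = (ω, t)`; the joint `e` sits at the point `p e` and joins the
bodies `src e` and `tgt e` (a loop if they are equal: no condition).
-/

set_option autoImplicit false

open Module

namespace Pool.Agent.LG

/-- Vectors of length three. -/
abbrev Vec (k : Type*) : Type _ := Fin 3 → k

/-- Screws: angular part and linear part. -/
abbrev Scr (k : Type*) : Type _ := (Fin 3 → k) × (Fin 3 → k)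

section field

variable {k : Type*} [Field k]

/-- The cross product. -/
def cr (a b : Vec k) : Vec k :=
  ![a 1 * b 2 - a 2 * b 1, a 2 * b 0 - a 0 * b 2, a 0 * b 1 - a 1 * b 0]

/-- The dot product. -/
def dt (a b : Vec k) : k := a 0 * b 0 + a 1 * b 1 + a 2 * b 2

@[simp] lemma cr_zero_apply (a b : Vec k) : cr a b 0 = a 1 * b 2 - a 2 * b 1 := rfl
@[simp] lemma cr_one_apply (a b : Vec k) : cr a b 1 = a 2 * b 0 - a 0 * b 2 := rfl
@[simp] lemma cr_two_apply (a b : Vec k) : cr a b 2 = a 0 * b 1 - a 1 * b 0 := rfl

omit [Field k] in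
lemma vec_ext {a b : Vec k} (h0 : a 0 = b 0) (h1 : a 1 = b 1) (h2 : a 2 = b 2) : a = b := by
  funext i; fin_cases i <;> assumption

/-- The velocity of the point `x` under the screw `s`. -/
def ev (x : Vec k) : Scr k →ₗ[k] Vec k where
  toFun s := cr s.1 x + s.2
  map_add' := by
    intro s s'
    apply vec_ext <;> simp <;> ring
  map_smul' := by
    intro c s
    apply vec_ext <;> simp <;> ring

lemma ev_apply (x : Vec k) (s : Scr k) : ev x s = cr s.1 x + s.2 := rfl

/-- The bar between `P` and `Q`: the relative velocity at `P` in the direction of `P - Q`. -/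
def bar (P Q : Vec k) : Scr k →ₗ[k] k where
  toFun s := dt (ev P s) (P - Q)
  map_add' := by
    intro s s'
    simp [dt]; ring
  map_smul' := by
    intro c s
    simp [dt]; ring

lemma bar_apply (P Q : Vec k) (s : Scr k) : bar P Q s = dt (ev P s) (P - Q) := rfl

lemma bar_eq (P Q : Vec k) (s : Scr k) : bar P Q s = dt (ev Q s) (P - Q) := by
  simp [bar_apply, ev_apply, dt]; ring

lemma bar_swap (P Q : Vec k) (s : Scr k) : bar P Q s = - bar Q P s := by
  simp [bar_apply, ev_apply, dt]; ring

/-- Apply a derivation to all coordinates of a vector. -/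
def dV (D : Derivation ℤ k k) (v : Vec k) : Vec k := fun i => D (v i)

@[simp] lemma dV_apply (D : Derivation ℤ k k) (v : Vec k) (i : Fin 3) : dV D v i = D (v i) := rfl

/-- Apply a derivation to all coordinates of a screw. -/
def dS (D : Derivation ℤ k k) (s : Scr k) : Scr k := (dV D s.1, dV D s.2)

@[simp] lemma dS_fst (D : Derivation ℤ k k) (s : Scr k) : (dS D s).1 = dV D s.1 := rfl
@[simp] lemma dS_snd (D : Derivation ℤ k k) (s : Scr k) : (dS D s).2 = dV D s.2 := rfl

lemma dV_sub (D : Derivation ℤ k k) (a b : Vec k) : dV D (a - b) = dV D a - dV D b := by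
  funext i; simp

lemma dV_add (D : Derivation ℤ k k) (a b : Vec k) : dV D (a + b) = dV D a + dV D b := by
  funext i; simp

lemma dS_sub (D : Derivation ℤ k k) (a b : Scr k) : dS D (a - b) = dS D a - dS D b := by
  ext i <;> simp

lemma dS_add (D : Derivation ℤ k k) (a b : Scr k) : dS D (a + b) = dS D a + dS D b := by
  ext i <;> simp

lemma dS_smul (D : Derivation ℤ k k) (c : k) (a : Scr k) :
    dS D (c • a) = D c • a + c • dS D a := by
  ext i <;> simp <;> ring

@[simp] lemma dS_zero (D : Derivation ℤ k k) : dS D (0 : Scr k) = 0 := by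
  ext i <;> simp

lemma dV_ev (D : Derivation ℤ k k) (x : Vec k) (s : Scr k) :
    dV D (ev x s) = ev x (dS D s) + cr s.1 (dV D x) := by
  apply vec_ext <;> simp [ev_apply] <;> ring

/-- Derivative of a bar. -/
lemma D_bar (D : Derivation ℤ k k) (P Q : Vec k) (s : Scr k) :
    D (bar P Q s) = bar P Q (dS D s) + dt (ev Q s) (dV D P) - dt (ev P s) (dV D Q) := by
  simp [bar_apply, ev_apply, dt]; ring

/-- Linear combination of three derivations. -/
def dirD (D : Fin 3 → Derivation ℤ k k) (δ : Vec k) : Derivation ℤ k k := ∑ i, δ i • D i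

lemma dirD_apply (D : Fin 3 → Derivation ℤ k k) (δ : Vec k) (x : k) :
    dirD D δ x = δ 0 * D 0 x + δ 1 * D 1 x + δ 2 * D 2 x := by
  simp [dirD, Fin.sum_univ_three]

section joints

variable {J V : Type*}

/-- The relative screw of the two bodies at the joint `e`. -/
def rel (src tgt : J → V) (e : J) : (V → Scr k) →ₗ[k] Scr k where
  toFun s := s (src e) - s (tgt e)
  map_add' := by
    intro s s'
    simp only [Pi.add_apply]
    abel
  map_smul' := by
    intro c s
    simp only [Pi.smul_apply, smul_sub, RingHom.id_apply]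

@[simp] lemma rel_apply (src tgt : J → V) (e : J) (s : V → Scr k) :
    rel src tgt e s = s (src e) - s (tgt e) := rfl

/-- The relative velocity at the joint `e`. -/
def rho (p : J → Vec k) (src tgt : J → V) (e : J) : (V → Scr k) →ₗ[k] Vec k :=
  (ev (p e)).comp (rel src tgt e)

lemma rho_apply (p : J → Vec k) (src tgt : J → V) (e : J) (s : V → Scr k) :
    rho p src tgt e s = ev (p e) (s (src e) - s (tgt e)) := rfl

/-- The motions of the bodies compatible with the joints in `E`. -/
def Mot (p : J → Vec k) (src tgt : J → V) (E : Finset J) : Submodule k (V → Scr k) where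
  carrier := {s | ∀ e ∈ E, rho p src tgt e s = 0}
  add_mem' := by
    intro a b ha hb e he
    rw [map_add, ha e he, hb e he, add_zero]
  zero_mem' := by
    intro e _
    rw [map_zero]
  smul_mem' := by
    intro c x hx e he
    rw [map_smul, hx e he, smul_zero]

lemma mem_Mot {p : J → Vec k} {src tgt : J → V} {E : Finset J} {s : V → Scr k} :
    s ∈ Mot p src tgt E ↔ ∀ e ∈ E, rho p src tgt e s = 0 := Iff.rfl

/-- The derivations `D e i` are dual to the coordinates of the joints: the joints are in
generic position. -/
def Indep (p : J → Vec k) (D : J → Fin 3 → Derivation ℤ k k) : Prop :=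
  (∀ e i, dV (D e i) (p e) = Pi.single i 1) ∧ ∀ e e', e ≠ e' → ∀ i, dV (D e i) (p e') = 0

/-- Apply a derivation to a motion. -/
def dM (D : Derivation ℤ k k) (s : V → Scr k) : V → Scr k := fun v => dS D (s v)

@[simp] lemma dM_apply (D : Derivation ℤ k k) (s : V → Scr k) (v : V) : dM D s v = dS D (s v) :=
  rfl

end joints

end field

section counts

variable {J V : Type*}

/-- The number of joints in `E` between the two bodies of the pair `q`. -/
def mult [DecidableEq V] (src tgt : J → V) (E : Finset J) (q : Sym2 V) : ℕ :=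
  (E.filter fun e => s(src e, tgt e) = q).card

/-- The sum of `jf` over all unordered pairs of distinct bodies. -/
def fsum [Fintype V] [DecidableEq V] (src tgt : J → V) (E : Finset J) : ℕ :=
  ∑ q : Sym2 V with ¬ q.IsDiag, jf (mult src tgt E q)

end counts

end Pool.Agent.LG
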