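import Pool.Agent.Lib.MP_37c7bf_LG.D3a
import Pool.Agent.Lib.MP_37c7bf_LG.D3b

/-!
Module D. A body with three joints.
-/

set_option autoImplicit false

open Module

namespace Pool.Agent.LG

variable {k : Type*} [Field k] [CharZero k] {J : Type*} [DecidableEq J] {p : J → Vec k}
  {D : J → Fin 3 → Derivation ℤ k k} {V : Type} [Fintype V] {src tgt : J → V} {E : Finset J}

/-- D3: a body with three joints. -/
theorem deg_three (hD : Indep p D) {v : V} {h : Fin 3 → J} (hinj : Function.Injective h)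
    (hs : ∀ j, src (h j) = v) (ht : ∀ j, tgt (h j) ≠ v) (hE : ∀ j, h j ∈ E)
    (hv : ∀ e ∈ E, (∀ j, e ≠ h j) → src e ≠ v ∧ tgt e ≠ v)
    (hn : ∀ j l, j ≠ l → ∃ s ∈ Mot p src tgt E, s (tgt (h j)) ≠ s (tgt (h l))) :
    ∃ j, (Mot p src tgt (E.erase (h j))).map (rho p src tgt (h j)) = ⊤ := by
  by_contra hcon
  push Not at hcon
  have h1 : ∀ j, h j ∉ E.filter fun e => ∀ j, e ≠ h j := fun j hj =>
    (Finset.mem_filter.1 hj).2 j rfl
  exact d3b (E' := E.filter fun e => ∀ j, e ≠ h j) (a := fun j => tgt (h j)) hD hinj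
    (Finset.filter_subset _ _) h1 (deg_three_kill hD hinj hs ht hE hv hcon)
    (deg_three_span hD hinj hs ht hE hv hcon) hn

end Pool.Agent.LG
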