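import Pool.Agent.Lib.MP_37c7bf_LG.K1

/-!
Module K. Flexes of a graph covered by rigid bodies are motions of the bodies.
-/

set_option autoImplicit false

open Module MeasureTheory

namespace Pool.Agent.LG

open Pool.Agent.H26R

/-- General position: no four points in a plane. -/
def GenPos {W : Type} (p : W → E3) : Prop :=
  ∀ a b c d, a ≠ b → a ≠ c → a ≠ d → b ≠ c → b ≠ d → c ≠ d →
    ∀ x : E3, inner ℝ (p b - p a) x = 0 → inner ℝ (p c - p a) x = 0 →
      inner ℝ (p d - p a) x = 0 → x = 0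

/-- K2 -/
theorem ae_genPos {W : Type} [Fintype W] : ∀ᵐ p : W → E3 ∂volume, GenPos p := by
  unfold GenPos
  rw [ae_all_iff]; intro a
  rw [ae_all_iff]; intro b
  rw [ae_all_iff]; intro c
  rw [ae_all_iff]; intro d
  rw [ae_all_iff]; intro hab
  rw [ae_all_iff]; intro hac
  rw [ae_all_iff]; intro had
  rw [ae_all_iff]; intro hbc
  rw [ae_all_iff]; intro hbd
  rw [ae_all_iff]; intro hcd
  exact ae_spans hab hac had hbc hbd hcd

/-- Four points in general position: the linear system can be solved. -/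
lemma GenPos.exists_dual {W : Type} {p : W → E3} (hp : GenPos p) {a b c d : W} (hab : a ≠ b)
    (hac : a ≠ c) (had : a ≠ d) (hbc : b ≠ c) (hbd : b ≠ d) (hcd : c ≠ d) (y : Fin 3 → ℝ) :
    ∃ x : E3, inner ℝ (p b - p a) x = y 0 ∧ inner ℝ (p c - p a) x = y 1 ∧
      inner ℝ (p d - p a) x = y 2 := by
  let T : E3 →ₗ[ℝ] (Fin 3 → ℝ) := LinearMap.pi
    ![innerₛₗ ℝ (p b - p a), innerₛₗ ℝ (p c - p a), innerₛₗ ℝ (p d - p a)]
  have hT : ∀ x, T x = ![inner ℝ (p b - p a) x, inner ℝ (p c - p a) x,
      inner ℝ (p d - p a) x] := by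
    intro x
    funext i
    fin_cases i <;> rfl
  have hinj : Function.Injective T := by
    rw [← LinearMap.ker_eq_bot, LinearMap.ker_eq_bot']
    intro x hx
    rw [hT] at hx
    exact hp a b c d hab hac had hbc hbd hcd x (congrFun hx 0) (congrFun hx 1) (congrFun hx 2)
  have hsurj : Function.Surjective T :=
    (LinearMap.injective_iff_surjective_of_finrank_eq_finrank (by simp)).1 hinj
  obtain ⟨x, hx⟩ := hsurj y
  rw [hT] at hx
  exact ⟨x, congrFun hx 0, congrFun hx 1, congrFun hx 2⟩

lemma inner_eq_dt (x y : E3) : inner ℝ x y = dt (vec3 x) (vec3 y) := inner_E3 x y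

lemma vec3_sub (x y : E3) : vec3 (x - y) = vec3 x - vec3 y := rfl

/-- Given distinct points, other points in a set with at least four elements. -/
lemma exists_four {W : Type} [Fintype W] [DecidableEq W] (hW : 4 ≤ Fintype.card W)
    (C : Finset W) (hC : C.card ≤ 3) (d : W) (hd : d ∉ C) :
    ∃ a b c : W, C ⊆ {a, b, c} ∧ d ≠ a ∧ d ≠ b ∧ d ≠ c ∧ a ≠ b ∧ a ≠ c ∧ b ≠ c := by
  have h1 : C ⊆ Finset.univ.erase d := fun x hx =>
    Finset.mem_erase.2 ⟨fun h => hd (h ▸ hx), Finset.mem_univ _⟩
  obtain ⟨C', h2, h3, h4⟩ := Finset.exists_subsuperset_card_eq h1 hC (by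
    rw [Finset.card_erase_of_mem (Finset.mem_univ d), Finset.card_univ]; omega)
  obtain ⟨a, b, c, hab, hac, hbc, rfl⟩ := Finset.card_eq_three.1 h4
  have h5 : ∀ x ∈ ({a, b, c} : Finset W), d ≠ x := fun x hx h =>
    (Finset.mem_erase.1 (h3 hx)).1 h.symm
  exact ⟨a, b, c, h2, h5 a (by simp), h5 b (by simp), h5 c (by simp), hab, hac, hbc⟩

lemma cr_self_real (u : Vec ℝ) : cr u u = 0 := by
  apply vec_ext <;> simp <;> ring

lemma exists_smul_of_cr_real {u v : Vec ℝ} (h : cr u v = 0) (hv : v ≠ 0) : ∃ c : ℝ, u = c • v := by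
  have h0 : u 1 * v 2 - u 2 * v 1 = 0 := congrFun h 0
  have h1 : u 2 * v 0 - u 0 * v 2 = 0 := congrFun h 1
  have h2 : u 0 * v 1 - u 1 * v 0 = 0 := congrFun h 2
  obtain ⟨i, hi⟩ : ∃ i, v i ≠ 0 := by
    by_contra hc
    push Not at hc
    exact hv (funext hc)
  refine ⟨u i / v i, ?_⟩
  fin_cases i
  · simp only [Fin.zero_eta] at hi
    apply vec_ext <;> simp <;> field_simp <;> linarith
  · simp only [Fin.mk_one] at hi
    apply vec_ext <;> simp <;> field_simp <;> linarith
  · have hi' : v 2 ≠ 0 := hi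
    apply vec_ext <;> simp <;> field_simp <;> linarith

/-- Two points in general position are distinct, three are not collinear. -/
lemma GenPos.ne {W : Type} [Fintype W] [DecidableEq W] (hW : 4 ≤ Fintype.card W)
    {p : W → E3} (hp : GenPos p) {a b : W} (hab : a ≠ b) : vec3 (p b) - vec3 (p a) ≠ 0 := by
  obtain ⟨x, y, z, hs, hax, hay, haz, hxy, hxz, hyz⟩ := exists_four hW {b} (by simp) a (by simpa)
  have hb : b = x ∨ b = y ∨ b = z := by simpa using hs
  intro h0
  have key : ∀ v : E3, inner ℝ (p b - p a) v = 0 := by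
    intro v
    rw [inner_eq_dt, vec3_sub, h0]
    simp [dt]
  rcases hb with rfl | rfl | rfl
  · obtain ⟨v, hv, -, -⟩ := hp.exists_dual hax hay haz hxy hxz hyz (fun _ => 1)
    rw [key] at hv
    exact zero_ne_one hv
  · obtain ⟨v, -, hv, -⟩ := hp.exists_dual hax hay haz hxy hxz hyz (fun _ => 1)
    rw [key] at hv
    exact zero_ne_one hv
  · obtain ⟨v, -, -, hv⟩ := hp.exists_dual hax hay haz hxy hxz hyz (fun _ => 1)
    rw [key] at hv
    exact zero_ne_one hv

lemma GenPos.cr_ne {W : Type} [Fintype W] [DecidableEq W] (hW : 4 ≤ Fintype.card W)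
    {p : W → E3} (hp : GenPos p) {a b c : W} (hab : a ≠ b) (hac : a ≠ c) (hbc : b ≠ c) :
    cr (vec3 (p b) - vec3 (p a)) (vec3 (p c) - vec3 (p a)) ≠ 0 := by
  intro h0
  obtain ⟨d, hd⟩ : ∃ d, d ∉ ({a, b, c} : Finset W) := by
    by_contra hc
    push Not at hc
    have h1 : (Finset.univ : Finset W) ⊆ {a, b, c} := fun x _ => hc x
    have h2 := Finset.card_le_card h1
    have h3 : ({a, b, c} : Finset W).card ≤ 3 := Finset.card_le_three
    rw [Finset.card_univ] at h2
    omega
  simp only [Finset.mem_insert, Finset.mem_singleton, not_or] at hd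
  obtain ⟨s, hs⟩ := exists_smul_of_cr_real h0 (hp.ne hW hac)
  obtain ⟨v, hv1, hv2, -⟩ := hp.exists_dual hab hac (Ne.symm hd.1) hbc (Ne.symm hd.2.1)
    (Ne.symm hd.2.2) ![1, 0, 0]
  rw [inner_eq_dt, vec3_sub, hs] at hv1
  rw [inner_eq_dt, vec3_sub] at hv2
  have h1 : dt (s • (vec3 (p c) - vec3 (p a))) (vec3 v) =
      s * dt (vec3 (p c) - vec3 (p a)) (vec3 v) := by
    simp [dt]; ring
  rw [h1, hv2] at hv1
  simp at hv1

/-- K3: screws vanishing on some points in general position. -/
theorem finrank_vanish {W : Type} [Fintype W] [DecidableEq W] (hW : 4 ≤ Fintype.card W)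
    {p : W → E3} (hp : GenPos p) (B : Finset W) (K : Submodule ℝ (Scr ℝ))
    (hK : ∀ z, z ∈ K ↔ ∀ w ∈ B, ev (vec3 (p w)) z = 0) :
    finrank ℝ K = corr B.card := by
  rcases Nat.lt_or_ge B.card 3 with hB | hB
  · interval_cases hc : B.card
    · -- no point
      rw [Finset.card_eq_zero] at hc
      have : K = ⊤ := by
        rw [eq_top_iff]
        intro z _
        rw [hK, hc]
        simp
      rw [this, finrank_top]
      simp [corr, Module.finrank_prod]
    · -- one point
      obtain ⟨a, rfl⟩ := Finset.card_eq_one.1 hc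
      have hK' : K = LinearMap.ker (ev (vec3 (p a))) := by
        ext z
        rw [hK, LinearMap.mem_ker]
        simp
      have hr : LinearMap.range (ev (vec3 (p a))) = ⊤ := by
        rw [eq_top_iff]
        intro y _
        refine ⟨(0, y), ?_⟩
        apply vec_ext <;> simp [ev_apply]
      have h1 := LinearMap.finrank_range_add_finrank_ker (ev (vec3 (p a)))
      rw [hr, finrank_top] at h1
      rw [hK']
      simp [Module.finrank_prod] at h1
      simp only [corr]
      omega
    · -- two points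
      obtain ⟨a, b, hab, rfl⟩ := Finset.card_eq_two.1 hc
      have hne := hp.ne hW hab
      set u : Vec ℝ := vec3 (p b) - vec3 (p a) with hu
      have hK' : K = Submodule.span ℝ {((u, -(cr u (vec3 (p a)))) : Scr ℝ)} := by
        ext z
        rw [hK, Submodule.mem_span_singleton]
        constructor
        · intro h
          have h1 := h a (by simp)
          have h2 := h b (by simp)
          rw [ev_apply] at h1 h2
          have h3 : cr z.1 u = 0 := by
            have : cr z.1 u = (cr z.1 (vec3 (p b)) + z.2) - (cr z.1 (vec3 (p a)) + z.2) := by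
              apply vec_ext <;> simp [hu] <;> ring
            rw [this, h1, h2, sub_zero]
          obtain ⟨c, hc⟩ := exists_smul_of_cr_real h3 hne
          refine ⟨c, Prod.ext hc.symm ?_⟩
          have h4 : z.2 = -(cr z.1 (vec3 (p a))) := by
            rw [eq_neg_iff_add_eq_zero, add_comm]
            exact h1
          rw [h4, hc]
          show c • (-(cr u (vec3 (p a)))) = _
          apply vec_ext <;> simp <;> ring
        · rintro ⟨c, rfl⟩ w hw
          simp only [Finset.mem_insert, Finset.mem_singleton] at hw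
          rcases hw with rfl | rfl
          · apply vec_ext <;> simp [ev_apply] <;> ring
          · apply vec_ext <;> simp [ev_apply, hu] <;> ring
      rw [hK', finrank_span_singleton]
      · rfl
      · intro h
        exact hne (congrArg Prod.fst h)
  · -- at least three points
    obtain ⟨C, hCB, hC⟩ := Finset.exists_subset_card_eq hB
    obtain ⟨a, b, c, hab, hac, hbc, rfl⟩ := Finset.card_eq_three.1 hC
    have hKb : K = ⊥ := by
      rw [eq_bot_iff]
      intro z hz
      rw [hK] at hz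
      have h1 := hz a (hCB (by simp))
      have h2 := hz b (hCB (by simp))
      have h3 := hz c (hCB (by simp))
      rw [ev_apply] at h1 h2 h3
      have hu : cr z.1 (vec3 (p b) - vec3 (p a)) = 0 := by
        have : cr z.1 (vec3 (p b) - vec3 (p a)) =
            (cr z.1 (vec3 (p b)) + z.2) - (cr z.1 (vec3 (p a)) + z.2) := by
          apply vec_ext <;> simp <;> ring
        rw [this, h1, h2, sub_zero]
      have hv : cr z.1 (vec3 (p c) - vec3 (p a)) = 0 := by
        have : cr z.1 (vec3 (p c) - vec3 (p a)) =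
            (cr z.1 (vec3 (p c)) + z.2) - (cr z.1 (vec3 (p a)) + z.2) := by
          apply vec_ext <;> simp <;> ring
        rw [this, h1, h3, sub_zero]
      obtain ⟨s, hs⟩ := exists_smul_of_cr_real hu (hp.ne hW hab)
      have hs0 : s = 0 := by
        by_contra hne
        apply hp.cr_ne hW hab hac hbc
        have h4 : cr z.1 (vec3 (p c) - vec3 (p a)) =
            s • cr (vec3 (p b) - vec3 (p a)) (vec3 (p c) - vec3 (p a)) := by
          rw [hs]
          apply vec_ext <;> simp <;> ring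
        rw [h4, smul_eq_zero] at hv
        exact hv.resolve_left hne
      rw [hs0, zero_smul] at hs
      rw [Submodule.mem_bot]
      refine Prod.ext hs ?_
      rw [hs] at h1
      have h5 : cr (0 : Vec ℝ) (vec3 (p a)) = 0 := by apply vec_ext <;> simp
      rwa [h5, zero_add] at h1
    rw [hKb, finrank_bot]
    obtain ⟨m, hm⟩ : ∃ m, B.card = m + 3 := ⟨B.card - 3, by omega⟩
    rw [hm]
    rfl

/-- Adding a new vertex to a clique with at most three vertices. -/
lemma exists_extend_clique {W : Type} [Fintype W] [DecidableEq W] (hW : 4 ≤ Fintype.card W)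
    {p : W → E3} (hp : GenPos p) (C : Finset W) (hC : C.card ≤ 3) (d : W) (hd : d ∉ C)
    (q : W → E3) (hq : ∀ u ∈ C, ∀ w ∈ C, inner ℝ (p u - p w) (q u - q w) = 0) :
    ∃ q' : W → E3, (∀ w ∈ C, q' w = q w) ∧
      ∀ u ∈ insert d C, ∀ w ∈ insert d C, inner ℝ (p u - p w) (q' u - q' w) = 0 := by
  obtain ⟨a, b, c, hs, hda, hdb, hdc, hab, hac, hbc⟩ := exists_four hW C hC d hd
  obtain ⟨x, h1, h2, h3⟩ := hp.exists_dual hda hdb hdc hab hac hbc
    ![inner ℝ (p a - p d) (q a), inner ℝ (p b - p d) (q b), inner ℝ (p c - p d) (q c)]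
  have key : ∀ w ∈ C, inner ℝ (p w - p d) (q w - x) = 0 := by
    intro w hw
    have := hs hw
    simp only [Finset.mem_insert, Finset.mem_singleton] at this
    rw [inner_sub_right]
    rcases this with rfl | rfl | rfl
    · rw [h1]; simp
    · rw [h2]; simp
    · rw [h3]; simp
  have hne : ∀ w ∈ C, w ≠ d := fun w hw h => hd (h ▸ hw)
  refine ⟨Function.update q d x, fun w hw => by rw [Function.update_of_ne (hne w hw)], ?_⟩
  intro u hu w hw
  rw [Finset.mem_insert] at hu hw
  rcases hu with rfl | hu <;> rcases hw with rfl | hw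
  · simp
  · rw [Function.update_self, Function.update_of_ne (hne w hw)]
    have := key w hw
    rw [← neg_sub (p w), ← neg_sub (q w), inner_neg_neg, this]
  · rw [Function.update_self, Function.update_of_ne (hne u hu)]
    exact key u hu
  · rw [Function.update_of_ne (hne u hu), Function.update_of_ne (hne w hw)]
    exact hq u hu w hw

lemma exists_extend_four {W : Type} [Fintype W] [DecidableEq W] (hW : 4 ≤ Fintype.card W)
    {p : W → E3} (hp : GenPos p) (n : ℕ) : ∀ (C : Finset W) (_ : 4 ≤ C.card + n)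
    (q : W → E3) (_ : ∀ u ∈ C, ∀ w ∈ C, inner ℝ (p u - p w) (q u - q w) = 0),
    ∃ (C' : Finset W) (q' : W → E3), 4 ≤ C'.card ∧ C ⊆ C' ∧ (∀ w ∈ C, q' w = q w) ∧
      ∀ u ∈ C', ∀ w ∈ C', inner ℝ (p u - p w) (q' u - q' w) = 0 := by
  induction n with
  | zero =>
    intro C hC q hq
    exact ⟨C, q, by omega, subset_rfl, fun _ _ => rfl, hq⟩
  | succ n ih =>
    intro C hC q hq
    rcases Nat.lt_or_ge C.card 4 with h4 | h4
    · obtain ⟨d, hd⟩ : ∃ d, d ∉ C := by
        by_contra hc
        push Not at hc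
        have h1 : (Finset.univ : Finset W) ⊆ C := fun x _ => hc x
        have h2 := Finset.card_le_card h1
        rw [Finset.card_univ] at h2
        omega
      obtain ⟨q', h1, h2⟩ := exists_extend_clique hW hp C (by omega) d hd q hq
      obtain ⟨C', q'', h3, h5, h6, h7⟩ := ih (insert d C)
        (by rw [Finset.card_insert_of_notMem hd]; omega) q' h2
      exact ⟨C', q'', h3, (Finset.subset_insert d C).trans h5,
        fun w hw => (h6 w (Finset.mem_insert_of_mem hw)).trans (h1 w hw), h7⟩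
    · exact ⟨C, q, h4, subset_rfl, fun _ _ => rfl, hq⟩

/-- Trivial motions are given by screws. -/
lemma exists_screw {V : Type*} {p : V → E3} {q : V → E3} (h : q ∈ LinearMap.range (triv p)) :
    ∃ z : Scr ℝ, ∀ w j, (q w) j = ev (vec3 (p w)) z j := by
  obtain ⟨⟨ω, b⟩, rfl⟩ := h
  refine ⟨(vec3 ω, vec3 b), fun w j => ?_⟩
  rw [triv_apply, K_apply, ev_apply]
  fin_cases j <;> simp [crossE, vec3]

/-- K4: a clique in general position is infinitesimally rigid. -/
theorem clique_rigid {W : Type} [Fintype W] [DecidableEq W] (hW : 4 ≤ Fintype.card W)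
    {p : W → E3} (hp : GenPos p) (G : SimpleGraph W) (B : Finset W)
    (hB : ∀ u ∈ B, ∀ w ∈ B, u ≠ w → G.Adj u w) :
    ∀ q ∈ Flex G p, ∃ z : Scr ℝ, ∀ w ∈ B, ∀ j, (q w) j = ev (vec3 (p w)) z j := by
  intro q hq
  have h0 : ∀ u ∈ B, ∀ w ∈ B, inner ℝ (p u - p w) (q u - q w) = 0 := by
    intro u hu w hw
    by_cases huw : u = w
    · subst huw; simp
    · exact mem_Flex.1 hq u w (hB u hu w hw huw)
  obtain ⟨C, q', h4, hBC, hqq, hC⟩ := exists_extend_four hW hp 4 B (by omega) q h0
  have hflex : (fun w : C => q' w) ∈ Flex (⊤ : SimpleGraph C) (fun w : C => p w) := by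
    rw [mem_Flex]
    intro i j _
    exact hC i i.2 j j.2
  obtain ⟨f⟩ : Nonempty (Fin 4 ↪ C) := by
    rw [Function.Embedding.nonempty_iff_card_le]; simpa using h4
  have hne : ∀ i j : Fin 4, i ≠ j → (f i : W) ≠ f j := fun i j hij h =>
    hij (f.injective (Subtype.ext h))
  have hs : Spans (fun w : C => p w) := ⟨f 0, f 1, f 2, f 3, fun x h1 h2 h3 =>
    hp _ _ _ _ (hne 0 1 (by decide)) (hne 0 2 (by decide)) (hne 0 3 (by decide))
      (hne 1 2 (by decide)) (hne 1 3 (by decide)) (hne 2 3 (by decide)) x h1 h2 h3⟩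
  rw [Flex_eq_range_triv hs (finrank_Flex_top_le hs)] at hflex
  obtain ⟨z, hz⟩ := exists_screw hflex
  exact ⟨z, fun w hw j => by rw [← hz ⟨w, hBC hw⟩ j, hqq w hw]⟩

/-- K5: a generically rigid body is infinitesimally rigid at almost all realizations. -/
theorem ae_body_rigid {W : Type} [Fintype W] (G : SimpleGraph W) (B : Finset W)
    (hB : 4 ≤ B.card) (hG : GenericallyRigid (G.induce (B : Set W))) :
    ∀ᵐ p : W → E3 ∂volume,
      ∀ q ∈ Flex G p, ∃ z : Scr ℝ, ∀ w ∈ B, ∀ j, (q w) j = ev (vec3 (p w)) z j := by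
  classical
  have hcard : 4 ≤ Fintype.card (B : Set W) := by simpa using hB
  obtain ⟨p₀, hp₀⟩ := exists_of_genericallyRigid hcard hG
  let L : (W → E3) →ₗ[ℝ] (↥(B : Set W) → E3) →ₗ[ℝ] (DEdge (G.induce (B : Set W)) → ℝ) :=
    (rig (G.induce (B : Set W))).comp (LinearMap.funLeft ℝ E3 (Subtype.val : ↥(B : Set W) → W))
  let P₀ : W → E3 := fun w => if h : w ∈ (B : Set W) then p₀ ⟨w, h⟩ else 0
  have hL : ∀ p : W → E3, LinearMap.ker (L p) =
      Flex (G.induce (B : Set W)) (fun w : (B : Set W) => p w) := fun p => rfl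
  have hP₀ : (fun w : (B : Set W) => P₀ w) = p₀ := by
    funext w
    exact dif_pos w.2
  have h1 := ae_finrank_ker_le (volume : Measure (W → E3)) L P₀
  obtain ⟨f⟩ : Nonempty (Fin 4 ↪ (B : Set W)) := by
    rw [Function.Embedding.nonempty_iff_card_le]; simpa using hB
  have hne : ∀ i j : Fin 4, i ≠ j → (f i : W) ≠ f j := fun i j hij h =>
    hij (f.injective (Subtype.ext h))
  have h2 := ae_spans (V := W) (hne 0 1 (by decide)) (hne 0 2 (by decide)) (hne 0 3 (by decide))
    (hne 1 2 (by decide)) (hne 1 3 (by decide)) (hne 2 3 (by decide))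
  filter_upwards [h1, h2] with p hp1 hp2 q hq
  rw [hL, hL, hP₀] at hp1
  have hs : Spans (fun w : (B : Set W) => p w) := ⟨f 0, f 1, f 2, f 3, hp2⟩
  have hflex : (fun w : (B : Set W) => q w) ∈
      Flex (G.induce (B : Set W)) (fun w : (B : Set W) => p w) := by
    rw [mem_Flex] at hq ⊢
    intro i j hij
    exact hq i j hij
  rw [Flex_eq_range_triv hs (hp1.trans hp₀)] at hflex
  obtain ⟨z, hz⟩ := exists_screw hflex
  exact ⟨z, fun w hw j => hz ⟨w, hw⟩ j⟩

end Pool.Agent.LG
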