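import Pool.Agent.Lib.MP_37c7bf_LG.Rank

/-!
Module L. The trivial bound, for arbitrary joints over an arbitrary field.
-/

set_option autoImplicit false

open Module

namespace Pool.Agent.LG

namespace Low

variable {k : Type*} [Field k]

/-- Codimensions do not increase under pull-back. -/
theorem finrank_comap {M N : Type*} [AddCommGroup M] [Module k M] [FiniteDimensional k M]
    [AddCommGroup N] [Module k N] [FiniteDimensional k N] (f : M →ₗ[k] N) (K : Submodule k N) :
    finrank k M + finrank k K ≤ finrank k (K.comap f) + finrank k N := by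
  have h1 := LinearMap.finrank_range_add_finrank_ker (K.mkQ.comp f)
  have h2 : LinearMap.ker (K.mkQ.comp f) = K.comap f := by
    rw [LinearMap.ker_comp, Submodule.ker_mkQ]
  have h3 : finrank k (LinearMap.range (K.mkQ.comp f)) ≤ finrank k (N ⧸ K) :=
    Submodule.finrank_le _
  have h4 := Submodule.finrank_quotient_add_finrank K
  rw [h2] at h1
  omega

theorem finrank_scr : finrank k (Scr k) = 6 := by
  rw [Module.finrank_prod]
  simp

theorem finrank_vec : finrank k (Vec k) = 3 := by simp

theorem three_le_ker (P : Vec k) : 3 ≤ finrank k (LinearMap.ker (ev P)) := by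
  have h1 := LinearMap.finrank_range_add_finrank_ker (ev P)
  have h2 : finrank k (LinearMap.range (ev P)) ≤ finrank k (Vec k) := Submodule.finrank_le _
  rw [finrank_scr] at h1
  rw [finrank_vec] at h2
  omega

/-- The screws vanishing at the points `p e`, `e ∈ F`. -/
def KF {J : Type*} (p : J → Vec k) (F : Finset J) : Submodule k (Scr k) :=
  ⨅ e ∈ F, LinearMap.ker (ev (p e))

theorem mem_KF {J : Type*} {p : J → Vec k} {F : Finset J} {z : Scr k} :
    z ∈ KF p F ↔ ∀ e ∈ F, ev (p e) z = 0 := by
  simp [KF]

theorem ker_ev_le_of_eq {P Q : Vec k} (h : P ≠ Q) :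
    ∃ z : Scr k, z ≠ 0 ∧ ev P z = 0 ∧ ev Q z = 0 := by
  refine ⟨(P - Q, - cr (P - Q) P), ?_, ?_, ?_⟩
  · intro h0
    exact h (sub_eq_zero.1 (Prod.ext_iff.1 h0).1)
  · rw [ev_apply]
    simp
  · apply vec_ext <;> simp [ev_apply] <;> ring

/-- The count for one pair of bodies. -/
theorem six_le_KF {J : Type*} (p : J → Vec k) (F : Finset J) :
    6 ≤ finrank k (KF p F) + jf F.card := by
  classical
  rcases Nat.lt_or_ge F.card 3 with h | h
  swap
  · have : jf F.card = 6 := by
      obtain ⟨n, hn⟩ := Nat.exists_eq_add_of_le h
      rw [hn, Nat.add_comm]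
      rfl
    omega
  interval_cases hF : F.card
  · have h1 : KF p F = ⊤ := by
      rw [Finset.card_eq_zero] at hF
      subst hF
      simp [KF]
    rw [h1, finrank_top, finrank_scr]
    exact Nat.le_add_right _ _
  · obtain ⟨e, rfl⟩ := Finset.card_eq_one.1 hF
    have h1 : KF p {e} = LinearMap.ker (ev (p e)) := by simp [KF]
    rw [h1]
    have := three_le_ker (p e)
    change 6 ≤ _ + 3
    omega
  · obtain ⟨e, e', -, rfl⟩ := Finset.card_eq_two.1 hF
    change 6 ≤ _ + 5
    by_cases hpe : p e = p e'
    · have h1 : KF p {e, e'} = LinearMap.ker (ev (p e)) := by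
        ext z
        rw [mem_KF, LinearMap.mem_ker]
        constructor
        · intro h; exact h e (by simp)
        · intro h f hf
          rcases Finset.mem_insert.1 hf with rfl | hf
          · exact h
          · rw [Finset.mem_singleton.1 hf, ← hpe]; exact h
      rw [h1]
      have := three_le_ker (p e)
      omega
    · obtain ⟨z, hz, h1, h2⟩ := ker_ev_le_of_eq hpe
      have h3 : z ∈ KF p {e, e'} := by
        rw [mem_KF]
        intro f hf
        rcases Finset.mem_insert.1 hf with rfl | hf
        · exact h1
        · rw [Finset.mem_singleton.1 hf]; exact h2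
      have h4 : 0 < finrank k (KF p {e, e'}) := by
        rw [Module.finrank_pos_iff]
        exact ⟨⟨⟨z, h3⟩, 0, fun h => hz (congrArg Subtype.val h)⟩⟩
      omega

/-- The count for one pair of bodies, on the space of all motions. -/
theorem pair_bound {J : Type*} {p : J → Vec k} {C : Type*} [Fintype C] [DecidableEq C]
    {src tgt : J → C} (F : Finset J) (u w : C) (hF : ∀ e ∈ F, s(src e, tgt e) = s(u, w)) :
    6 * Fintype.card C ≤ finrank k (Mot p src tgt F) + jf F.card := by
  let f : (C → Scr k) →ₗ[k] Scr k :=
    LinearMap.proj (R := k) (φ := fun _ : C => Scr k) u - LinearMap.proj w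
  have hf : ∀ s, f s = s u - s w := fun s => rfl
  have h1 : (KF p F).comap f ≤ Mot p src tgt F := by
    intro s hs
    rw [Submodule.mem_comap, mem_KF] at hs
    intro e he
    rw [rho_apply]
    have h2 := hs e he
    rw [hf] at h2
    rcases Sym2.eq_iff.1 (hF e he) with ⟨h3, h4⟩ | ⟨h3, h4⟩
    · rw [h3, h4]; exact h2
    · rw [h3, h4, ← neg_sub, map_neg, h2, neg_zero]
  have h2 := finrank_comap f (KF p F)
  have h3 := six_le_KF p F
  have h4 := Submodule.finrank_mono h1
  have h5 : finrank k (C → Scr k) = 6 * Fintype.card C := by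
    rw [Module.finrank_pi_fintype]
    simp only [finrank_scr, Finset.sum_const, Finset.card_univ, smul_eq_mul]
    ring
  rw [h5, finrank_scr] at h2
  omega

end Low

open Low

/-- L1: the discrete case. -/
theorem lower_discrete {k : Type*} [Field k] {J : Type*} {p : J → Vec k} {C : Type*} [Fintype C]
    [DecidableEq C] {src tgt : J → C} (E : Finset J) :
    6 * Fintype.card C ≤ finrank k (Mot p src tgt E) + fsum src tgt E := by
  classical
  have key : ∀ Q : Finset (Sym2 C),
      6 * Fintype.card C ≤ finrank k (Mot p src tgt (E.filter fun e => s(src e, tgt e) ∈ Q)) +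
        ∑ q ∈ Q, jf (mult src tgt E q) := by
    intro Q
    induction Q using Finset.induction_on with
    | empty =>
      have h1 : Mot p src tgt (E.filter fun e => s(src e, tgt e) ∈ (∅ : Finset (Sym2 C))) = ⊤ := by
        rw [eq_top_iff]
        intro s _ e he
        simp at he
      rw [h1, finrank_top, Finset.sum_empty, Module.finrank_pi_fintype]
      simp only [finrank_scr, Finset.sum_const, Finset.card_univ, smul_eq_mul]
      omega
    | insert q Q hq ih =>
      rw [Finset.sum_insert hq]
      set A := Mot p src tgt (E.filter fun e => s(src e, tgt e) ∈ Q)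
      set B := Mot p src tgt (E.filter fun e => s(src e, tgt e) = q)
      have h1 : Mot p src tgt (E.filter fun e => s(src e, tgt e) ∈ insert q Q) = A ⊓ B := by
        ext s
        simp only [A, B, Submodule.mem_inf, mem_Mot, Finset.mem_filter, Finset.mem_insert]
        constructor
        · intro h
          exact ⟨fun e he => h e ⟨he.1, Or.inr he.2⟩, fun e he => h e ⟨he.1, Or.inl he.2⟩⟩
        · rintro ⟨h2, h3⟩ e ⟨he, h4 | h4⟩
          · exact h3 e ⟨he, h4⟩
          · exact h2 e ⟨he, h4⟩
      have h2 : 6 * Fintype.card C ≤ finrank k B + jf (mult src tgt E q) := by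
        induction q using Sym2.ind with
        | h u w =>
          exact pair_bound _ u w (fun e he => (Finset.mem_filter.1 he).2)
      have h3 := Submodule.finrank_sup_add_finrank_inf_eq A B
      have h4 : finrank k (A ⊔ B : Submodule k (C → Scr k)) ≤ finrank k (C → Scr k) :=
        Submodule.finrank_le _
      have h5 : finrank k (C → Scr k) = 6 * Fintype.card C := by
        rw [Module.finrank_pi_fintype]
        simp only [finrank_scr, Finset.sum_const, Finset.card_univ, smul_eq_mul]
        ring
      rw [h1]
      omega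
  have h1 := key (Finset.univ.filter fun q : Sym2 C => ¬ q.IsDiag)
  have h2 : Mot p src tgt (E.filter fun e =>
      s(src e, tgt e) ∈ Finset.univ.filter fun q : Sym2 C => ¬ q.IsDiag) = Mot p src tgt E := by
    ext s
    simp only [mem_Mot, Finset.mem_filter, Finset.mem_univ, true_and]
    constructor
    · intro h e he
      by_cases h3 : (s(src e, tgt e)).IsDiag
      · rw [rho_apply, Sym2.mk_isDiag_iff.1 h3, sub_self, map_zero]
      · exact h e ⟨he, h3⟩
    · intro h e he
      exact h e he.1
  rw [h2] at h1
  exact h1

/-- L2: for every partition. -/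
theorem lower {k : Type*} [Field k] {J : Type*} {p : J → Vec k} {V : Type*} [Finite V]
    {src tgt : J → V} (E : Finset J) {m : ℕ} (c : V → Fin m) (hc : Function.Surjective c) :
    6 * m ≤ finrank k (Mot p src tgt E) + fsum (c ∘ src) (c ∘ tgt) E := by
  have h1 := lower_discrete (k := k) (p := p) (src := c ∘ src) (tgt := c ∘ tgt) E
  rw [Fintype.card_fin] at h1
  have h2 : finrank k (Mot p (c ∘ src) (c ∘ tgt) E) ≤ finrank k (Mot p src tgt E) := by
    let f : (Fin m → Scr k) →ₗ[k] (V → Scr k) := LinearMap.funLeft k (Scr k) c
    have hf : Function.Injective f := LinearMap.funLeft_injective_of_surjective k (Scr k) c hc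
    have hfM : ∀ s ∈ Mot p (c ∘ src) (c ∘ tgt) E, f s ∈ Mot p src tgt E := by
      intro s hs e he
      exact hs e he
    exact LinearMap.finrank_le_finrank_of_injective (f := f.restrict hfM) (by
      intro a b hab
      apply Subtype.ext
      apply hf
      exact congrArg Subtype.val hab)
  omega

end Pool.Agent.LG
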