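import Pool.Agent.Lib.MP_37c7bf_LG.T12

set_option autoImplicit false

open Module MeasureTheory

namespace Pool.Agent.LG

open Pool.Agent.H26R

/-- A derivation extends to every localisation. -/
theorem exists_extend {k S : Type} [Field k] [CommRing S] [Algebra k S] (D : Derivation k S S)
    (M : Submonoid S) (T : Type) [CommRing T] [Algebra k T] [Algebra S T] [IsScalarTower k S T]
    [IsLocalization M T] :
    ∃ D' : Derivation k T T, ∀ s, D' (algebraMap S T s) = algebraMap S T (D s) := by
  let g : Ω[S⁄k] →ₗ[S] T := (Algebra.linearMap S T) ∘ₗ D.liftKaehlerDifferential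
  have hu : ∀ x : M, IsUnit ((algebraMap S (Module.End S T)) x) := by
    intro x
    obtain ⟨u, hu⟩ := IsLocalization.map_units T x
    refine ⟨⟨algebraMap S (Module.End S T) x, LinearMap.mulLeft S (↑u⁻¹ : T), ?_, ?_⟩, rfl⟩
    · refine LinearMap.ext fun y => ?_
      change (x : S) • ((↑u⁻¹ : T) * y) = y
      rw [Algebra.smul_def, ← hu, ← mul_assoc, Units.mul_inv, one_mul]
    · refine LinearMap.ext fun y => ?_
      change (↑u⁻¹ : T) * ((x : S) • y) = y
      rw [Algebra.smul_def, ← hu, ← mul_assoc, Units.inv_mul, one_mul]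
  let L : Ω[T⁄k] →ₗ[S] T := IsLocalizedModule.lift M (KaehlerDifferential.map k k S T) g hu
  have hL : ∀ y, L (KaehlerDifferential.map k k S T y) = g y := fun y =>
    IsLocalizedModule.lift_apply M (KaehlerDifferential.map k k S T) g hu y
  let L' : Ω[T⁄k] →ₗ[T] T := L.extendScalarsOfIsLocalization M T
  refine ⟨L'.compDer (KaehlerDifferential.D k T), fun s => ?_⟩
  change L (KaehlerDifferential.D k T (algebraMap S T s)) = _
  have h1 : KaehlerDifferential.D k T (algebraMap S T s) =
      KaehlerDifferential.map k k S T (KaehlerDifferential.D k S s) := by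
    rw [KaehlerDifferential.map_D]
  rw [h1, hL]
  change algebraMap S T (D.liftKaehlerDifferential (KaehlerDifferential.D k S s)) = _
  rw [Derivation.liftKaehlerDifferential_comp_D]

/-- T3: the generic point with its derivations. -/
theorem exists_indep (J : Type) {k : Type} [Field k] [Algebra ℝ k]
    [Algebra (MvPolynomial (J × Fin 3) ℝ) k] [IsScalarTower ℝ (MvPolynomial (J × Fin 3) ℝ) k]
    [IsFractionRing (MvPolynomial (J × Fin 3) ℝ) k] :
    ∃ D : J → Fin 3 → Derivation ℤ k k,
      Indep (fun e i => algebraMap (MvPolynomial (J × Fin 3) ℝ) k (MvPolynomial.X (e, i))) D := by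
  classical
  have h : ∀ e i, ∃ D' : Derivation ℝ k k, ∀ s,
      D' (algebraMap (MvPolynomial (J × Fin 3) ℝ) k s) =
        algebraMap (MvPolynomial (J × Fin 3) ℝ) k (MvPolynomial.pderiv (e, i) s) := fun e i =>
    exists_extend (MvPolynomial.pderiv (e, i)) (nonZeroDivisors (MvPolynomial (J × Fin 3) ℝ)) k
  choose D hD using h
  refine ⟨fun e i => (D e i).restrictScalars ℤ, ?_, ?_⟩
  · intro e i
    funext j
    change D e i (algebraMap (MvPolynomial (J × Fin 3) ℝ) k (MvPolynomial.X (e, j))) = _
    rw [hD, MvPolynomial.pderiv_X]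
    by_cases hij : j = i
    · subst hij; simp
    · have : (e, j) ≠ (e, i) := fun h => hij (Prod.ext_iff.mp h).2
      rw [Pi.single_eq_of_ne this, Pi.single_eq_of_ne hij, map_zero]
  · intro e e' hne i
    funext j
    change D e i (algebraMap (MvPolynomial (J × Fin 3) ℝ) k (MvPolynomial.X (e', j))) = _
    rw [hD, MvPolynomial.pderiv_X]
    have : (e', j) ≠ (e, i) := fun h => hne (Prod.ext_iff.mp h).1.symm
    rw [Pi.single_eq_of_ne this, map_zero]
    rfl

/-- The matrix of the cross product with a fixed vector. -/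
def sk {A : Type} [CommRing A] (b : Fin 3 → A) : Matrix (Fin 3) (Fin 3) A :=
  !![0, b 2, -b 1; -b 2, 0, b 0; b 1, -b 0, 0]

/-- The incidence coefficients. -/
def inc {J V A : Type} [CommRing A] [DecidableEq V] (src tgt : J → V) (e : J) (v : V) : A :=
  (if v = src e then 1 else 0) - (if v = tgt e then 1 else 0)

/-- The matrix of the joint conditions. -/
def motMat {J V A : Type} [CommRing A] [DecidableEq V] (p : J → Fin 3 → A) (src tgt : J → V)
    (E : Finset J) : Matrix (E × Fin 3) ((V × Fin 3) ⊕ (V × Fin 3)) A :=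
  fun r c => Sum.elim (fun q : V × Fin 3 => inc src tgt (r.1 : J) q.1 * sk (p r.1) r.2 q.2)
    (fun q : V × Fin 3 => inc src tgt (r.1 : J) q.1 * (if q.2 = r.2 then 1 else 0)) c

lemma motMat_map {J V A B : Type} [CommRing A] [CommRing B] [DecidableEq V] (φ : A →+* B)
    (p : J → Fin 3 → A) (src tgt : J → V) (E : Finset J) :
    (motMat p src tgt E).map φ = motMat (fun e i => φ (p e i)) src tgt E := by
  ext ⟨e, i⟩ c
  rcases c with ⟨v, j⟩ | ⟨v, j⟩
  · simp only [Matrix.map_apply, motMat, Sum.elim_inl, map_mul, inc, map_sub]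
    congr 1
    · congr 1 <;> split_ifs <;> simp
    · fin_cases i <;> fin_cases j <;> simp [sk]
  · simp only [Matrix.map_apply, motMat, Sum.elim_inr, map_mul, inc, map_sub]
    congr 1
    · congr 1 <;> split_ifs <;> simp
    · split_ifs <;> simp

/-- The coordinates of a motion. -/
def coordE (k V : Type) [Field k] : (V → Scr k) ≃ₗ[k] ((V × Fin 3) ⊕ (V × Fin 3) → k) where
  toFun s := Sum.elim (fun q => (s q.1).1 q.2) (fun q => (s q.1).2 q.2)
  map_add' := by
    intro s s'
    funext c
    rcases c with c | c <;> simp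
  map_smul' := by
    intro a s
    funext c
    rcases c with c | c <;> simp
  invFun f := fun v => (fun j => f (Sum.inl (v, j)), fun j => f (Sum.inr (v, j)))
  left_inv := by
    intro s
    rfl
  right_inv := by
    intro f
    funext c
    rcases c with c | c <;> rfl

lemma sum_inc_mul {J V k : Type} [Field k] [Fintype V] [DecidableEq V] (src tgt : J → V) (e : J)
    (f : V → k) : ∑ v, inc src tgt e v * f v = f (src e) - f (tgt e) := by
  simp only [inc, sub_mul, Finset.sum_sub_distrib, ite_mul, one_mul, zero_mul,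
    Finset.sum_ite_eq', Finset.mem_univ, if_true]

lemma mulVec_coordE {J V k : Type} [Field k] [Fintype V] [DecidableEq V] (p : J → Vec k)
    (src tgt : J → V) (E : Finset J) (s : V → Scr k) (r : E × Fin 3) :
    (motMat p src tgt E).mulVec (coordE k V s) r = rho p src tgt (r.1 : J) s r.2 := by
  obtain ⟨e, i⟩ := r
  have h1 : ∀ j : Fin 3, ∑ v, motMat p src tgt E (e, i) (Sum.inl (v, j)) *
      coordE k V s (Sum.inl (v, j)) =
      sk (p e) i j * ((s (src e)).1 j - (s (tgt e)).1 j) := by
    intro j
    have h2 := sum_inc_mul src tgt (e : J) (fun v => sk (p e) i j * (s v).1 j)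
    rw [← mul_sub] at h2
    rw [← h2]
    refine Finset.sum_congr rfl fun v _ => ?_
    simp only [motMat, coordE, Sum.elim_inl, LinearEquiv.coe_mk, LinearMap.coe_mk, AddHom.coe_mk]
    ring
  have h2 : ∀ j : Fin 3, ∑ v, motMat p src tgt E (e, i) (Sum.inr (v, j)) *
      coordE k V s (Sum.inr (v, j)) =
      (if j = i then 1 else 0) * ((s (src e)).2 j - (s (tgt e)).2 j) := by
    intro j
    have h2 := sum_inc_mul src tgt (e : J) (fun v => (if j = i then 1 else 0) * (s v).2 j)
    rw [← mul_sub] at h2
    rw [← h2]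
    refine Finset.sum_congr rfl fun v _ => ?_
    simp only [motMat, coordE, Sum.elim_inr, LinearEquiv.coe_mk, LinearMap.coe_mk, AddHom.coe_mk]
    ring
  rw [Matrix.mulVec, dotProduct, Fintype.sum_sum_type, Fintype.sum_prod_type_right,
    Fintype.sum_prod_type_right]
  simp only [h1, h2, Fin.sum_univ_three]
  rw [rho_apply, ev_apply]
  fin_cases i <;> simp [sk] <;> ring

lemma finrank_Mot {J V k : Type} [Field k] [Fintype V] [DecidableEq V] (p : J → Vec k)
    (src tgt : J → V) (E : Finset J) :
    finrank k (Mot p src tgt E) =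
      finrank k (LinearMap.ker (motMat p src tgt E).mulVecLin) := by
  have h0 : (Mot p src tgt E).map (coordE k V).toLinearMap =
      LinearMap.ker (motMat p src tgt E).mulVecLin := by
    ext f
    rw [Submodule.mem_map_equiv, LinearMap.mem_ker, Matrix.mulVecLin_apply, mem_Mot]
    have hf : coordE k V ((coordE k V).symm f) = f := LinearEquiv.apply_symm_apply _ _
    constructor
    · intro h
      funext r
      rw [← hf, mulVec_coordE, h _ r.1.2]
      rfl
    · intro h e he
      funext i
      have := congrFun h (⟨e, he⟩, i)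
      rw [← hf, mulVec_coordE] at this
      exact this
  rw [← h0]
  exact (LinearEquiv.finrank_map_eq (coordE k V) (Mot p src tgt E)).symm

/-- T4: transfer. -/
theorem transfer {J : Type} [Fintype J] {V : Type} [Fintype V] (src tgt : J → V) (E : Finset J) :
    ∃ (k : Type) (_ : Field k) (_ : CharZero k) (p : J → Vec k)
      (D : J → Fin 3 → Derivation ℤ k k), Indep p D ∧
      ∀ᵐ x : J → E3 ∂volume, finrank ℝ (Mot (fun e i => x e i) src tgt E) ≤
        finrank k (Mot p src tgt E) := by
  classical
  obtain ⟨D, hD⟩ := exists_indep J (k := FractionRing (MvPolynomial (J × Fin 3) ℝ))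
  refine ⟨FractionRing (MvPolynomial (J × Fin 3) ℝ), inferInstance,
    charZero_of_injective_algebraMap (IsFractionRing.injective (MvPolynomial (J × Fin 3) ℝ)
      (FractionRing (MvPolynomial (J × Fin 3) ℝ))), _, D, hD, ?_⟩
  filter_upwards [ae_ker_le (J := J) (k := FractionRing (MvPolynomial (J × Fin 3) ℝ))
    (motMat (fun e i => MvPolynomial.X (e, i)) src tgt E)] with x hx
  rw [motMat_map, motMat_map] at hx
  rw [finrank_Mot, finrank_Mot]
  have hx2 : (fun (e : J) (i : Fin 3) => MvPolynomial.eval (fun q : J × Fin 3 => x q.1 q.2)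
      (MvPolynomial.X (e, i))) = fun e i => x e i := by
    funext e i
    exact MvPolynomial.eval_X _
  rw [hx2] at hx
  exact hx

end Pool.Agent.LG
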