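import Pool.Agent.Lib.MP_37c7bf_LG.Part
import Pool.Agent.Lib.MP_37c7bf_LG.Lower
import Pool.Agent.Lib.MP_37c7bf_LG.Model
import Pool.Agent.Lib.MP_37c7bf_LG.Link

/-!
Generic rigidity in three-space of graphs covered by rigid bodies, every vertex in at most two
bodies: the number of degrees of freedom and the criterion for rigidity.
-/

set_option autoImplicit false

open Module MeasureTheory

namespace Pool.Agent.LG

open Pool.Agent.H26R

lemma InfMotions_eq {W : Type} (G : SimpleGraph W) (p : W → E3) :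
    InfMotions G p = Flex G p := by
  ext q
  rw [mem_Flex]
  rfl

/-- the pair of bodies of a vertex -/
lemma exists_ends {W V : Type} [Fintype W] [DecidableEq W] [Fintype V] [DecidableEq V]
    (B : V → Finset W) (h1 : ∀ w, 1 ≤ (Finset.univ.filter fun i => w ∈ B i).card)
    (h2 : ∀ w, (Finset.univ.filter fun i => w ∈ B i).card ≤ 2) :
    ∃ src tgt : W → V, ∀ w i, w ∈ B i ↔ (src w = i ∨ tgt w = i) := by
  have key : ∀ w, ∃ a b : V, ∀ i, w ∈ B i ↔ (a = i ∨ b = i) := by
    intro w
    have h1w := h1 w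
    have h2w := h2 w
    have hc : (Finset.univ.filter fun i => w ∈ B i).card = 1 ∨
        (Finset.univ.filter fun i => w ∈ B i).card = 2 := by omega
    rcases hc with hc | hc
    · obtain ⟨a, ha⟩ := Finset.card_eq_one.1 hc
      refine ⟨a, a, fun i => ?_⟩
      have : i ∈ (Finset.univ.filter fun i => w ∈ B i) ↔ i ∈ ({a} : Finset V) := by rw [ha]
      simp only [Finset.mem_filter, Finset.mem_univ, true_and, Finset.mem_singleton] at this
      rw [this, or_self, eq_comm]
    · obtain ⟨a, b, _, hab⟩ := Finset.card_eq_two.1 hc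
      refine ⟨a, b, fun i => ?_⟩
      have : i ∈ (Finset.univ.filter fun i => w ∈ B i) ↔ i ∈ ({a, b} : Finset V) := by rw [hab]
      simp only [Finset.mem_filter, Finset.mem_univ, true_and, Finset.mem_insert,
        Finset.mem_singleton] at this
      rw [this, eq_comm (a := i) (b := a), eq_comm (a := i) (b := b)]
  choose src tgt h using key
  exact ⟨src, tgt, h⟩

lemma shared_eq {W V : Type} [Fintype W] [DecidableEq W] [Fintype V] [DecidableEq V]
    (B : V → Finset W) {src tgt : W → V} (hB : ∀ w i, w ∈ B i ↔ (src w = i ∨ tgt w = i))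
    {m : ℕ} (c : V → Fin m) {x y : Fin m} (hxy : x ≠ y) :
    shared B c x y = mult (c ∘ src) (c ∘ tgt) Finset.univ s(x, y) := by
  classical
  unfold shared mult
  congr 1
  ext w
  simp only [Finset.mem_filter, Finset.mem_univ, true_and, hB, Function.comp_apply, Sym2.eq_iff]
  constructor
  · rintro ⟨i, j, rfl, rfl, h1 | h1, h2 | h2⟩
    · exact absurd (by rw [← h1, ← h2]) hxy
    · left; exact ⟨by rw [h1], by rw [h2]⟩
    · right; exact ⟨by rw [h2], by rw [h1]⟩
    · exact absurd (by rw [← h1, ← h2]) hxy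
  · rintro (⟨h1, h2⟩ | ⟨h1, h2⟩)
    · exact ⟨src w, tgt w, h1, h2, Or.inl rfl, Or.inr rfl⟩
    · exact ⟨tgt w, src w, h2, h1, Or.inr rfl, Or.inl rfl⟩

lemma sum_shared_eq {W V : Type} [Fintype W] [DecidableEq W] [Fintype V] [DecidableEq V]
    (B : V → Finset W) {src tgt : W → V} (hB : ∀ w i, w ∈ B i ↔ (src w = i ∨ tgt w = i))
    {m : ℕ} (c : V → Fin m) :
    ∑ q : Fin m × Fin m with q.1 < q.2, (jf (shared B c q.1 q.2) : ℤ) =
      (fsum (c ∘ src) (c ∘ tgt) (Finset.univ : Finset W) : ℤ) := by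
  classical
  unfold fsum
  push_cast
  have h1 := Finset.sum_sym2_filter_not_isDiag (Finset.univ : Finset (Fin m))
    (fun q => (jf (mult (c ∘ src) (c ∘ tgt) Finset.univ q) : ℤ))
  rw [Finset.sym2_univ] at h1
  rw [h1]
  refine Finset.sum_congr ?_ ?_
  · ext q
    simp only [Finset.mem_filter, Finset.mem_univ, true_and, Finset.mem_offDiag]
    constructor
    · intro h; exact ⟨ne_of_lt h, h⟩
    · intro h; exact h.2
  · intro q hq
    rw [shared_eq B hB c (ne_of_lt (Finset.mem_filter.1 hq).2)]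

/-- all bodies are infinitesimally rigid at almost all realizations -/
lemma ae_bodies {W V : Type} [Fintype W] [DecidableEq W] [Fintype V] (G : SimpleGraph W)
    (B : V → Finset W) (hW : 4 ≤ Fintype.card W)
    (hB : ∀ i, (∀ u ∈ B i, ∀ w ∈ B i, u ≠ w → G.Adj u w) ∨
      (4 ≤ (B i).card ∧ GenericallyRigid (G.induce (B i : Set W))) ∨ RigidIn G (B i)) :
    ∀ᵐ p : W → E3 ∂volume, ∀ i, ∀ q ∈ Flex G p, ∃ z : Scr ℝ, ∀ w ∈ B i,
      ∀ j, (q w) j = ev (vec3 (p w)) z j := by
  rw [ae_all_iff]
  intro i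
  rcases hB i with h | ⟨h4, h⟩ | h
  · filter_upwards [ae_genPos (W := W)] with p hp
    exact clique_rigid hW hp G (B i) h
  · exact ae_body_rigid G (B i) h4 h
  · filter_upwards [h] with p hp q hq
    rw [← InfMotions_eq] at hq
    change IsInfMotion G p q at hq
    obtain ⟨ω, t, hz⟩ := hp q hq
    refine ⟨(vec3 ω, vec3 t), fun w hw j => ?_⟩
    rw [hz w hw, ev_apply]
    fin_cases j <;> simp [rigidVelocity, vec3]

/-- The rank formula and the criterion. -/
theorem final {W V : Type} [Fintype W] [DecidableEq W] [Fintype V] [DecidableEq V]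
    (G : SimpleGraph W) (B : V → Finset W) (hW : 4 ≤ Fintype.card W)
    (h1 : ∀ w, 1 ≤ (Finset.univ.filter fun i => w ∈ B i).card)
    (h2 : ∀ w, (Finset.univ.filter fun i => w ∈ B i).card ≤ 2)
    (hE : ∀ u w, G.Adj u w → ∃ i, u ∈ B i ∧ w ∈ B i)
    (hB : ∀ i, (∀ u ∈ B i, ∀ w ∈ B i, u ≠ w → G.Adj u w) ∨
      (4 ≤ (B i).card ∧ GenericallyRigid (G.induce (B i : Set W))) ∨ RigidIn G (B i)) :
    (∀ᵐ p : W → E3 ∂volume, IsGreatest
      {x : ℤ | ∃ (m : ℕ) (c : V → Fin m), Function.Surjective c ∧ x = freedom B c}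
      (dof G p : ℤ)) ∧
    (GenericallyRigid G ↔
      ∀ (m : ℕ) (c : V → Fin m), Function.Surjective c → freedom B c ≤ 6) := by
  obtain ⟨src, tgt, hst⟩ := exists_ends B h1 h2
  have hcard : ∀ i, (Finset.univ.filter fun w => src w = i ∨ tgt w = i) = B i := by
    intro i
    ext w
    simp only [Finset.mem_filter, Finset.mem_univ, true_and, hst]
  obtain ⟨k, _, _, p₀, D, hD, htr⟩ := transfer src tgt (Finset.univ : Finset W)
  obtain ⟨m₀, c₀, hc₀, hmax⟩ := exists_partition hD (src := src) (tgt := tgt)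
    (Finset.univ : Finset W)
  have hae : ∀ᵐ p : W → E3 ∂volume, IsGreatest
      {x : ℤ | ∃ (m : ℕ) (c : V → Fin m), Function.Surjective c ∧ x = freedom B c}
      (dof G p : ℤ) := by
    filter_upwards [htr, ae_genPos (W := W), ae_bodies G B hW hB] with p hp1 hp2 hp3
    have hlink := link G src tgt p (by
        intro u w huw
        obtain ⟨i, hu, hw⟩ := hE u w huw
        exact ⟨i, (hst u i).1 hu, (hst w i).1 hw⟩)
      (by
        intro i q hq
        obtain ⟨z, hz⟩ := hp3 i q hq
        exact ⟨z, fun w hw j => hz w ((hst w i).2 hw) j⟩)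
      (by
        intro i K hK
        rw [hcard]
        exact finrank_vanish hW hp2 (B i) K (fun z => by
          rw [hK]
          exact forall_congr' fun w => by rw [hst]))
    rw [dof, InfMotions_eq]
    simp only [hcard] at hlink
    have hval : ∀ (m : ℕ) (c : V → Fin m), freedom B c = 6 * (m : ℤ) -
        (fsum (c ∘ src) (c ∘ tgt) (Finset.univ : Finset W) : ℤ) -
        ((∑ i, corr (B i).card : ℕ) : ℤ) := by
      intro m c
      unfold freedom
      rw [sum_shared_eq B hst c]
      push_cast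
      ring
    have hlow := fun (m : ℕ) (c : V → Fin m) (hc : Function.Surjective c) =>
      lower (k := ℝ) (p := fun w i => p w i) (src := src) (tgt := tgt)
        (Finset.univ : Finset W) c hc
    constructor
    · refine ⟨m₀, c₀, hc₀, ?_⟩
      rw [hval]
      have e1 := hlow m₀ c₀ hc₀
      have e2 : finrank ℝ (Mot (fun w i => p w i) src tgt (Finset.univ : Finset W)) ≤
          finrank k (Mot p₀ src tgt (Finset.univ : Finset W)) := hp1
      omega
    · rintro x ⟨m, c, hc, rfl⟩
      rw [hval]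
      have e1 := hlow m c hc
      omega
  refine ⟨hae, ?_⟩
  rw [genericallyRigid_iff hW]
  constructor
  · rintro ⟨p₁, hp₁⟩ m c hc
    have h3 := ae_finrank_ker_le (volume : Measure (W → E3)) (rig G) p₁
    obtain ⟨p, hp, hp'⟩ := (hae.and h3).exists
    have e1 : freedom B c ≤ (dof G p : ℤ) := hp.2 ⟨m, c, hc, rfl⟩
    have e2 : finrank ℝ (Flex G p) ≤ finrank ℝ (Flex G p₁) := hp'
    rw [dof, InfMotions_eq] at e1
    omega
  · intro h
    obtain ⟨p, ⟨m, c, hc, hx⟩, _⟩ := hae.exists
    refine ⟨p, ?_⟩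
    have e1 := h m c hc
    rw [← hx, dof, InfMotions_eq] at e1
    exact_mod_cast e1

end Pool.Agent.LG
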