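import Pool.Agent.Lib.MP_37c7bf_LG.Defs
import Pool.Agent.Lib.MP_37c7bf_co_helper26.Generic

/-!
Task K1 of module K: at a nondegenerate realization where all bodies are rigid, the flexes are
the motions of the bodies.
-/

set_option autoImplicit false

open Module MeasureTheory

namespace Pool.Agent.LG

open Pool.Agent.H26R

/-- The point as a vector of length three. -/
def vec3 (x : E3) : Vec ℝ := fun i => x i

namespace K1

/-- The velocities of the points when the bodies move. -/
noncomputable def Phi {W V : Type} (src : W → V) (p : W → E3) :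
    (V → Scr ℝ) →ₗ[ℝ] (W → E3) :=
  LinearMap.pi fun w =>
    ((WithLp.linearEquiv 2 ℝ (Fin 3 → ℝ)).symm.toLinearMap.comp (ev (vec3 (p w)))).comp
      (LinearMap.proj (R := ℝ) (φ := fun _ : V => Scr ℝ) (src w))

theorem Phi_apply {W V : Type} (src : W → V) (p : W → E3) (s : V → Scr ℝ) (w : W) (j : Fin 3) :
    (Phi src p s w) j = ev (vec3 (p w)) (s (src w)) j := rfl

/-- The vanishing screws of the body `i`. -/
def Ki {W V : Type} (src tgt : W → V) (p : W → E3) (i : V) : Submodule ℝ (Scr ℝ) where
  carrier := {z | ∀ w, (src w = i ∨ tgt w = i) → ev (vec3 (p w)) z = 0}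
  add_mem' := by
    intro a b ha hb w hw
    rw [map_add, ha w hw, hb w hw, add_zero]
  zero_mem' := by
    intro w _
    rw [map_zero]
  smul_mem' := by
    intro c x hx w hw
    rw [map_smul, hx w hw, smul_zero]

end K1

open K1

/-- K1: at a nondegenerate realization where all bodies are rigid. -/
theorem link {W V : Type} [Fintype W] [Fintype V] [DecidableEq V] [DecidableEq W]
    (G : SimpleGraph W) (src tgt : W → V) (p : W → E3)
    (h1 : ∀ u w, G.Adj u w → ∃ i, (src u = i ∨ tgt u = i) ∧ (src w = i ∨ tgt w = i))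
    (h2 : ∀ i, ∀ q ∈ Flex G p, ∃ z : Scr ℝ, ∀ w, (src w = i ∨ tgt w = i) →
      ∀ j, (q w) j = ev (vec3 (p w)) z j)
    (h3 : ∀ i : V, ∀ K : Submodule ℝ (Scr ℝ), (∀ z, z ∈ K ↔ ∀ w, (src w = i ∨ tgt w = i) →
      ev (vec3 (p w)) z = 0) →
      finrank ℝ K = corr (Finset.univ.filter fun w => src w = i ∨ tgt w = i).card) :
    finrank ℝ (Flex G p) +
        ∑ i, corr (Finset.univ.filter fun w => src w = i ∨ tgt w = i).card =
      finrank ℝ (Mot (fun w i => p w i) src tgt Finset.univ) := by
  set M := Mot (fun w i => p w i) src tgt (Finset.univ : Finset W) with hM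
  have hmem : ∀ s ∈ M, ∀ w, ∀ i, (src w = i ∨ tgt w = i) →
      ev (vec3 (p w)) (s i) = ev (vec3 (p w)) (s (src w)) := by
    intro s hs w i hw
    have h4 := hs w (Finset.mem_univ w)
    rw [rho_apply, map_sub] at h4
    rcases hw with rfl | rfl
    · rfl
    · exact (sub_eq_zero.1 h4).symm
  have hflex : ∀ s ∈ M, Phi src p s ∈ Flex G p := by
    intro s hs
    rw [mem_Flex]
    intro u w huw
    obtain ⟨i, hu, hw⟩ := h1 u w huw
    have e1 := hmem s hs u i hu
    have e2 := hmem s hs w i hw
    rw [inner_E3]
    simp only [PiLp.sub_apply, Phi_apply, ← e1, ← e2]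
    simp only [ev_apply, Pi.add_apply, cr_zero_apply, cr_one_apply, cr_two_apply, vec3]
    ring
  let F : M →ₗ[ℝ] Flex G p := (Phi src p).restrict hflex
  have hF : ∀ s : M, ((F s : W → E3)) = Phi src p s := fun s => rfl
  have hsurj : LinearMap.range F = ⊤ := by
    rw [LinearMap.range_eq_top]
    rintro ⟨q, hq⟩
    choose z hz using fun i => h2 i q hq
    have hzM : z ∈ M := by
      intro w _
      rw [rho_apply, map_sub, sub_eq_zero]
      funext j
      have e1 := hz (src w) w (Or.inl rfl) j
      have e2 := hz (tgt w) w (Or.inr rfl) j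
      exact e1.symm.trans e2
    refine ⟨⟨z, hzM⟩, ?_⟩
    apply Subtype.ext
    rw [hF]
    funext w
    ext j
    rw [Phi_apply]
    exact (hz (src w) w (Or.inl rfl) j).symm
  have hker : finrank ℝ (LinearMap.ker F) =
      ∑ i, corr (Finset.univ.filter fun w => src w = i ∨ tgt w = i).card := by
    have e1 : ∀ i, finrank ℝ (Ki src tgt p i) =
        corr (Finset.univ.filter fun w => src w = i ∨ tgt w = i).card :=
      fun i => h3 i (Ki src tgt p i) (fun z => Iff.rfl)
    rw [← Finset.sum_congr rfl fun i _ => e1 i, ← Module.finrank_pi_fintype ℝ]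
    have hin : ∀ s : (i : V) → Ki src tgt p i, (fun i => (s i : Scr ℝ)) ∈ M := by
      intro s w _
      rw [rho_apply, map_sub, sub_eq_zero]
      exact ((s (src w)).2 w (Or.inl rfl)).trans ((s (tgt w)).2 w (Or.inr rfl)).symm
    have hkz : ∀ s ∈ M, Phi src p s = 0 → ∀ i, s i ∈ Ki src tgt p i := by
      intro s hs h0 i w hw
      rw [hmem s hs w i hw]
      funext j
      have e2 := congrArg (fun x : E3 => x j) (congrFun h0 w)
      simpa [Phi_apply] using e2
    refine LinearEquiv.finrank_eq (LinearEquiv.ofBijective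
      ({ toFun := fun s i => ⟨(s : M).1 i, hkz _ s.1.2 (by
            have := congrArg Subtype.val (LinearMap.mem_ker.1 s.2)
            rw [hF] at this
            exact this) i⟩
         map_add' := fun a b => rfl
         map_smul' := fun a b => rfl } :
        LinearMap.ker F →ₗ[ℝ] ((i : V) → Ki src tgt p i)) ⟨?_, ?_⟩)
    · intro a b hab
      apply Subtype.ext
      apply Subtype.ext
      funext i
      exact congrArg Subtype.val (congrFun hab i)
    · intro s
      refine ⟨⟨⟨fun i => (s i : Scr ℝ), hin s⟩, ?_⟩, ?_⟩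
      · rw [LinearMap.mem_ker]
        apply Subtype.ext
        rw [hF]
        funext w
        ext j
        rw [Phi_apply]
        have := congrFun ((s (src w)).2 w (Or.inl rfl)) j
        simpa using this
      · rfl
  have h4 := LinearMap.finrank_range_add_finrank_ker F
  rw [hsurj, finrank_top, hker] at h4
  exact h4

end Pool.Agent.LG
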