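import Pool.Agent.Lib.MP_37c7bf_LG.Deg

/-!
Module M. If no two bodies are mutually rigid, the rank is the sum of `jf`.
-/

set_option autoImplicit false

open Module

namespace Pool.Agent.LG

section fsums

variable {J V : Type*} [DecidableEq J] [DecidableEq V] {src tgt : J → V} {E : Finset J} {h : J}

lemma mult_erase_self (hE : h ∈ E) :
    mult src tgt (E.erase h) s(src h, tgt h) + 1 = mult src tgt E s(src h, tgt h) := by
  unfold mult
  rw [Finset.filter_erase, Finset.card_erase_of_mem (by simp [hE])]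
  have : 0 < (E.filter fun e => s(src e, tgt e) = s(src h, tgt h)).card :=
    Finset.card_pos.2 ⟨h, by simp [hE]⟩
  omega

lemma mult_erase_ne {q : Sym2 V} (hq : s(src h, tgt h) ≠ q) :
    mult src tgt (E.erase h) q = mult src tgt E q := by
  unfold mult
  rw [Finset.filter_erase, Finset.erase_eq_of_notMem]
  simp [hq]

variable [Fintype V]

lemma fsum_erase_loop (hh : src h = tgt h) : fsum src tgt (E.erase h) = fsum src tgt E := by
  unfold fsum
  refine Finset.sum_congr rfl fun q hq => ?_
  rw [mult_erase_ne]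
  rintro rfl
  simp [hh] at hq

lemma fsum_erase (hE : h ∈ E) (hh : src h ≠ tgt h) :
    fsum src tgt E + jf (mult src tgt (E.erase h) s(src h, tgt h)) =
      fsum src tgt (E.erase h) + jf (mult src tgt (E.erase h) s(src h, tgt h) + 1) := by
  have hq : s(src h, tgt h) ∈ Finset.univ.filter (fun q : Sym2 V => ¬ q.IsDiag) := by
    simp [hh]
  unfold fsum
  rw [← Finset.add_sum_erase _ _ hq, ← Finset.add_sum_erase _ (fun q => jf (mult src tgt
    (E.erase h) q)) hq, mult_erase_self hE]
  have : ∀ q ∈ (Finset.univ.filter (fun q : Sym2 V => ¬ q.IsDiag)).erase s(src h, tgt h),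
      jf (mult src tgt E q) = jf (mult src tgt (E.erase h) q) := by
    intro q hq
    rw [mult_erase_ne]
    exact fun h => (Finset.mem_erase.1 hq).1 h.symm
  rw [Finset.sum_congr rfl this]
  ring

lemma fsum_simple (hl : ∀ e ∈ E, src e ≠ tgt e) (hm : ∀ q, mult src tgt E q ≤ 1) :
    fsum src tgt E = 3 * E.card := by
  have h1 : ∀ q : Sym2 V, jf (mult src tgt E q) = 3 * mult src tgt E q := by
    intro q
    have := hm q
    interval_cases mult src tgt E q <;> rfl
  unfold fsum
  simp_rw [h1]
  rw [← Finset.mul_sum]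
  congr 1
  unfold mult
  rw [Finset.card_eq_sum_card_fiberwise (f := fun e => s(src e, tgt e))
    (t := Finset.univ.filter (fun q : Sym2 V => ¬ q.IsDiag))]
  intro e he
  simpa using hl e (by simpa using he)

lemma fsum_empty : fsum src tgt (∅ : Finset J) = 0 := by
  simp [fsum, mult, jf]

end fsums

/-- Three joints between two bodies make them rigid. -/
lemma eq_zero_of_three {k : Type*} [Field k] {J : Type*} {p : J → Vec k}
    {D : J → Fin 3 → Derivation ℤ k k} (hD : Indep p D) {a b c : J} (hab : a ≠ b) (hac : a ≠ c)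
    (hbc : b ≠ c) {r : Scr k} (h1 : ev (p a) r = 0) (h2 : ev (p b) r = 0) (h3 : ev (p c) r = 0) :
    r = 0 := by
  have key : (p a 2 - p c 2 : k) ≠ 0 := by
    intro h0
    have h4 := congrArg (D a 2) h0
    have h5 := congrFun (hD.1 a 2) 2
    have h6 := congrFun (hD.2 a c hac 2) 2
    simp at h4 h5 h6
    rw [h5, h6] at h4
    simp at h4
  have hcr : (p a 1 - p b 1) * (p a 2 - p c 2) - (p a 2 - p b 2) * (p a 1 - p c 1) ≠ 0 := by
    intro h0
    have h4 := congrArg (D b 1) h0
    have e1 := congrFun (hD.1 b 1) 1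
    have e2 := congrFun (hD.1 b 1) 2
    have e3 := congrFun (hD.2 b a hab.symm 1) 1
    have e4 := congrFun (hD.2 b a hab.symm 1) 2
    have e5 := congrFun (hD.2 b c hbc 1) 1
    have e6 := congrFun (hD.2 b c hbc 1) 2
    simp at h4 e1 e2 e3 e4 e5 e6
    rw [e1, e2, e3, e4, e5, e6] at h4
    apply key
    linear_combination -h4
  obtain ⟨w, t⟩ := r
  simp only [ev_apply] at h1 h2 h3
  have a0 := congrFun h1 0
  have a1 := congrFun h1 1
  have a2 := congrFun h1 2
  have b0 := congrFun h2 0
  have b1 := congrFun h2 1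
  have b2 := congrFun h2 2
  have c0 := congrFun h3 0
  have c1 := congrFun h3 1
  have c2 := congrFun h3 2
  simp at a0 a1 a2 b0 b1 b2 c0 c1 c2
  have w0 : w 0 = 0 := by
    have : w 0 * ((p a 1 - p b 1) * (p a 2 - p c 2) - (p a 2 - p b 2) * (p a 1 - p c 1)) = 0 := by
      linear_combination (p a 0 - p b 0) * (a0 - c0) + (p a 2 - p c 2) * (a2 - b2) +
        (p a 1 - p c 1) * (a1 - b1)
    exact (mul_eq_zero.1 this).resolve_right hcr
  have w1 : w 1 = 0 := by
    have : w 1 * ((p a 1 - p b 1) * (p a 2 - p c 2) - (p a 2 - p b 2) * (p a 1 - p c 1)) = 0 := by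
      linear_combination (p a 1 - p b 1) * (a0 - c0) - (p a 1 - p c 1) * (a0 - b0)
    exact (mul_eq_zero.1 this).resolve_right hcr
  have w2 : w 2 = 0 := by
    have : w 2 * ((p a 1 - p b 1) * (p a 2 - p c 2) - (p a 2 - p b 2) * (p a 1 - p c 1)) = 0 := by
      linear_combination (p a 2 - p b 2) * (a0 - c0) - (p a 2 - p c 2) * (a0 - b0)
    exact (mul_eq_zero.1 this).resolve_right hcr
  rw [w1, w2] at a0
  rw [w0, w2] at a1
  rw [w0, w1] at a2
  ext i
  · fin_cases i <;> simp [w0, w1, w2]
  · fin_cases i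
    · simpa using a0
    · simpa using a1
    · simpa using a2


/-- Dot product with a fixed vector. -/
def dotF {k : Type*} [Field k] (d : Vec k) : Vec k →ₗ[k] k where
  toFun x := dt x d
  map_add' := by
    intro a b
    simp [dt]; ring
  map_smul' := by
    intro a b
    simp [dt]; ring

lemma finrank_ker_dotF {k : Type*} [Field k] {d : Vec k} (hd : d 0 ≠ 0) :
    finrank k (LinearMap.ker (dotF d)) = 2 := by
  have h1 : LinearMap.range (dotF d) = ⊤ := by
    rw [LinearMap.range_eq_top]
    intro x
    refine ⟨Pi.single 0 (x / d 0), ?_⟩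
    simp [dotF, dt, hd]
  have h2 := LinearMap.finrank_range_add_finrank_ker (dotF d)
  rw [h1, finrank_top] at h2
  simp at h2
  omega

section joints

variable {k : Type*} [Field k] {J V : Type*} [DecidableEq J] {p : J → Vec k}
  {D : J → Fin 3 → Derivation ℤ k k} {src tgt : J → V} {E : Finset J}

lemma ev_rel_of_par {h h' : J} (hq : s(src h', tgt h') = s(src h, tgt h)) (hh' : h' ∈ E)
    {s : V → Scr k} (hs : s ∈ Mot p src tgt E) : ev (p h') (rel src tgt h s) = 0 := by
  have h1 : ev (p h') (s (src h') - s (tgt h')) = 0 := hs h' hh'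
  rcases Sym2.eq_iff.1 hq with ⟨a, b⟩ | ⟨a, b⟩
  · rwa [a, b] at h1
  · rw [a, b] at h1
    rw [rel_apply, ← neg_sub, map_neg, h1, neg_zero]

lemma finrank_map_double [Finite V] (hD : Indep p D) {h h' : J} (hE : h ∈ E) (hh' : h' ∈ E)
    (hne : h' ≠ h) (hq : s(src h', tgt h') = s(src h, tgt h)) {s : V → Scr k}
    (hs : s ∈ Mot p src tgt E) (hr : rel src tgt h s ≠ 0) :
    finrank k ((Mot p src tgt (E.erase h)).map (rho p src tgt h)) = 2 := by
  apply le_antisymm
  · have hd : (p h - p h') 0 ≠ 0 := by
      intro h0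
      have h4 := congrArg (D h 0) h0
      have h5 := congrFun (hD.1 h 0) 0
      have h6 := congrFun (hD.2 h h' hne.symm 0) 0
      simp at h4 h5 h6
      rw [h5, h6] at h4
      simp at h4
    rw [← finrank_ker_dotF hd]
    apply Submodule.finrank_mono
    rintro _ ⟨t, ht, rfl⟩
    rw [LinearMap.mem_ker]
    change bar (p h) (p h') (rel src tgt h t) = 0
    rw [bar_eq, ev_rel_of_par hq (Finset.mem_erase.2 ⟨hne, hh'⟩) ht]
    simp [dt]
  · apply two_le_finrank_map hD (Finset.notMem_erase h E) (s := s) _ hr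
    rwa [Finset.insert_erase hE]

end joints


section degrees

variable {J V : Type*} [DecidableEq J] [DecidableEq V] {src tgt : J → V} {E : Finset J}

/-- The joints at the body `v`. -/
def star (src tgt : J → V) (E : Finset J) (v : V) : Finset J :=
  E.filter fun e => src e = v ∨ tgt e = v

lemma sum_star [Fintype V] (hl : ∀ e ∈ E, src e ≠ tgt e) :
    ∑ v, (star src tgt E v).card = 2 * E.card := by
  unfold star
  simp_rw [Finset.card_filter]
  rw [Finset.sum_comm]
  have h1 : ∀ e ∈ E, (∑ v : V, if src e = v ∨ tgt e = v then 1 else 0) = 2 := by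
    intro e he
    rw [← Finset.card_filter]
    have h2 : (Finset.univ.filter fun v => src e = v ∨ tgt e = v) = {src e, tgt e} := by
      ext v
      simp [eq_comm]
    rw [h2, Finset.card_pair (hl e he)]
  rw [Finset.sum_congr rfl h1]
  simp [mul_comm]

/-- The bodies with a joint. -/
def cov [Fintype V] (src tgt : J → V) (E : Finset J) : Finset V :=
  Finset.univ.filter fun v => star src tgt E v ≠ ∅

lemma exists_small [Fintype V] (hl : ∀ e ∈ E, src e ≠ tgt e)
    (hc : E.card < 2 * (cov src tgt E).card) :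
    ∃ v, 1 ≤ (star src tgt E v).card ∧ (star src tgt E v).card ≤ 3 := by
  by_contra hcon
  push Not at hcon
  have h1 : (cov src tgt E).card * 4 ≤ ∑ v ∈ cov src tgt E, (star src tgt E v).card := by
    rw [← smul_eq_mul]
    apply Finset.card_nsmul_le_sum
    intro v hv
    have h2 := hcon v
    have h3 : star src tgt E v ≠ ∅ := (Finset.mem_filter.1 hv).2
    have h4 := Finset.card_pos.2 (Finset.nonempty_iff_ne_empty.2 h3)
    exact h2 h4
  have h2 : ∑ v ∈ cov src tgt E, (star src tgt E v).card ≤ ∑ v, (star src tgt E v).card :=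
    Finset.sum_le_univ_sum_of_nonneg (fun _ => Nat.zero_le _)
  rw [sum_star hl] at h2
  omega

end degrees

section lower

variable {k : Type*} [Field k] {J V : Type*} [DecidableEq J] [DecidableEq V] [Fintype V]
  {p : J → Vec k} {src tgt : J → V} {E : Finset J}

/-- Motions which are constant on the bodies with a joint. -/
def constMot (k : Type*) [Field k] (src tgt : J → V) (E : Finset J) :
    (({v : V // v ∉ cov src tgt E} → Scr k) × Scr k) →ₗ[k] (V → Scr k) where
  toFun f := fun v => if h : v ∈ cov src tgt E then f.2 else f.1 ⟨v, h⟩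
  map_add' := by
    intro a b
    funext v
    by_cases h : v ∈ cov src tgt E <;> simp [h]
  map_smul' := by
    intro a b
    funext v
    by_cases h : v ∈ cov src tgt E <;> simp [h]

lemma le_finrank_Mot (hE : E.Nonempty) :
    6 * Fintype.card V + 6 ≤ finrank k (Mot p src tgt E) + 6 * (cov src tgt E).card := by
  have hsrc : ∀ e ∈ E, src e ∈ cov src tgt E := by
    intro e he
    apply Finset.mem_filter.2 ⟨Finset.mem_univ _, ?_⟩
    exact Finset.Nonempty.ne_empty ⟨e, by simp [star, he]⟩
  have htgt : ∀ e ∈ E, tgt e ∈ cov src tgt E := by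
    intro e he
    apply Finset.mem_filter.2 ⟨Finset.mem_univ _, ?_⟩
    exact Finset.Nonempty.ne_empty ⟨e, by simp [star, he]⟩
  have hinj : Function.Injective (constMot k src tgt E) := by
    rw [← LinearMap.ker_eq_bot, LinearMap.ker_eq_bot']
    rintro ⟨f, z⟩ h0
    obtain ⟨e, he⟩ := hE
    refine Prod.ext ?_ ?_
    · funext v
      have := congrFun h0 v.1
      simpa [constMot, v.2] using this
    · have := congrFun h0 (src e)
      simpa [constMot, hsrc e he] using this
  have hr : LinearMap.range (constMot k src tgt E) ≤ Mot p src tgt E := by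
    rintro _ ⟨⟨f, z⟩, rfl⟩ e he
    rw [rho_apply]
    simp [constMot, hsrc e he, htgt e he]
  have h1 := Submodule.finrank_mono hr
  rw [LinearMap.finrank_range_of_inj hinj] at h1
  have h2 : finrank k (({v : V // v ∉ cov src tgt E} → Scr k) × Scr k) =
      6 * (Fintype.card V - (cov src tgt E).card) + 6 := by
    rw [finrank_prod, finrank_pi_fintype]
    simp [Fintype.card_subtype_compl]
    ring
  have h3 : (cov src tgt E).card ≤ Fintype.card V := Finset.card_le_univ _
  omega

end lower


section simple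

variable {k : Type*} [Field k] [CharZero k] {J : Type*} [DecidableEq J] {p : J → Vec k}
  {D : J → Fin 3 → Derivation ℤ k k} {V : Type} [Fintype V] [DecidableEq V] {src tgt : J → V}
  {E : Finset J}

/-- Orient the joints at `v` away from `v`. -/
def osrc (src tgt : J → V) (v : V) (e : J) : V := if tgt e = v then tgt e else src e

/-- Orient the joints at `v` away from `v`. -/
def otgt (src tgt : J → V) (v : V) (e : J) : V := if tgt e = v then src e else tgt e

omit [DecidableEq J] [Fintype V] in
lemma o_eq (v : V) (e : J) : s(src e, tgt e) = s(osrc src tgt v e, otgt src tgt v e) := by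
  unfold osrc otgt
  split_ifs
  · exact Sym2.eq_swap
  · rfl

omit [DecidableEq J] [Fintype V] in
lemma osrc_eq {v : V} {e : J} (h : src e = v ∨ tgt e = v) : osrc src tgt v e = v := by
  unfold osrc
  split_ifs with h1
  · exact h1
  · exact h.resolve_right h1

omit [DecidableEq J] [Fintype V] in
lemma otgt_ne {v : V} {e : J} (hl : src e ≠ tgt e) : otgt src tgt v e ≠ v := by
  unfold otgt
  split_ifs with h1
  · rw [← h1]; exact hl
  · exact h1

omit [DecidableEq J] [Fintype V] in
lemma o_ne {v : V} {e : J} (h : ¬ (src e = v ∨ tgt e = v)) :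
    osrc src tgt v e ≠ v ∧ otgt src tgt v e ≠ v := by
  push Not at h
  unfold osrc otgt
  rw [if_neg h.2, if_neg h.2]
  exact h

lemma otgt_ne_otgt (hm : ∀ q, mult src tgt E q ≤ 1) {v : V} {a b : J} (ha : a ∈ star src tgt E v)
    (hb : b ∈ star src tgt E v) (hab : a ≠ b) : otgt src tgt v a ≠ otgt src tgt v b := by
  intro h
  have ha' := Finset.mem_filter.1 ha
  have hb' := Finset.mem_filter.1 hb
  have h1 := hm s(src a, tgt a)
  unfold mult at h1
  rw [Finset.card_le_one] at h1
  apply hab
  apply h1 a (by simp [ha'.1]) b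
  apply Finset.mem_filter.2 ⟨hb'.1, ?_⟩
  rw [o_eq v a, o_eq v b, osrc_eq ha'.2, osrc_eq hb'.2, h]

/-- Simple case: some joint has full rank. -/
lemma exists_full (hD : Indep p D) (hE : E.Nonempty) (hl : ∀ e ∈ E, src e ≠ tgt e)
    (hm : ∀ q, mult src tgt E q ≤ 1) (hN : ∀ u w, u ≠ w → ∃ s ∈ Mot p src tgt E, s u ≠ s w)
    (hr : finrank k (Mot p src tgt E) + 3 * E.card ≤ 6 * Fintype.card V + 5) :
    ∃ h ∈ E, (Mot p src tgt (E.erase h)).map (rho p src tgt h) = ⊤ := by
  have h1 := le_finrank_Mot (k := k) (p := p) (src := src) (tgt := tgt) hE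
  obtain ⟨v, hv1, hv3⟩ := exists_small hl (by omega)
  have hfl : ∀ F : Finset J, Mot p src tgt F = Mot p (osrc src tgt v) (otgt src tgt v) F :=
    fun F => Mot_flip fun e _ => o_eq v e
  have hmap : ∀ (h : J) (F : Finset J), (Mot p (osrc src tgt v) (otgt src tgt v) F).map
      (rho p (osrc src tgt v) (otgt src tgt v) h) =
      (Mot p src tgt F).map (rho p src tgt h) := by
    intro h F
    rw [hfl F]
    exact (map_rho_flip (o_eq v h) _).symm
  have hN' : ∀ a ∈ star src tgt E v, ∀ b ∈ star src tgt E v, a ≠ b →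
      ∃ s ∈ Mot p (osrc src tgt v) (otgt src tgt v) E,
        s (otgt src tgt v a) ≠ s (otgt src tgt v b) := by
    intro a ha b hb hab
    rw [← hfl E]
    exact hN _ _ (otgt_ne_otgt hm ha hb hab)
  have hsE : ∀ e ∈ star src tgt E v, e ∈ E := fun e he => (Finset.mem_filter.1 he).1
  have hsv : ∀ e ∈ star src tgt E v, osrc src tgt v e = v :=
    fun e he => osrc_eq (Finset.mem_filter.1 he).2
  have hst : ∀ e ∈ star src tgt E v, otgt src tgt v e ≠ v :=
    fun e he => otgt_ne (hl e (hsE e he))
  have hnv : ∀ e ∈ E, e ∉ star src tgt E v →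
      osrc src tgt v e ≠ v ∧ otgt src tgt v e ≠ v := by
    intro e he hes
    apply o_ne
    intro h2
    exact hes (Finset.mem_filter.2 ⟨he, h2⟩)
  obtain h | h | h : (star src tgt E v).card = 1 ∨ (star src tgt E v).card = 2 ∨
    (star src tgt E v).card = 3 := by omega
  · obtain ⟨a, ha⟩ := Finset.card_eq_one.1 h
    have haS : a ∈ star src tgt E v := by simp [ha]
    refine ⟨a, hsE a haS, ?_⟩
    rw [← hmap]
    apply deg_one (hsv a haS) (hst a haS) (hsE a haS)
    intro e he hea
    apply hnv e he
    simpa [ha] using hea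
  · obtain ⟨a, b, hab, ha⟩ := Finset.card_eq_two.1 h
    have haS : a ∈ star src tgt E v := by simp [ha]
    have hbS : b ∈ star src tgt E v := by simp [ha]
    refine ⟨b, hsE b hbS, ?_⟩
    rw [← hmap]
    apply deg_two hD hab (hsv a haS) (hsv b hbS) (hst a haS) (hst b hbS) (hsE a haS) (hsE b hbS)
    · intro e he hea heb
      apply hnv e he
      simp [ha, hea, heb]
    · exact hN' a haS b hbS hab
  · obtain ⟨a, b, c, hab, hac, hbc, ha⟩ := Finset.card_eq_three.1 h
    have hS : ∀ j, (![a, b, c] : Fin 3 → J) j ∈ star src tgt E v := by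
      intro j
      fin_cases j <;> simp [ha]
    have hinj : Function.Injective (![a, b, c] : Fin 3 → J) := by
      intro i j hij
      fin_cases i <;> fin_cases j <;> simp_all
    obtain ⟨j, hj⟩ := deg_three (E := E) hD hinj (fun j => hsv _ (hS j)) (fun j => hst _ (hS j))
      (fun j => hsE _ (hS j)) (by
        intro e he hne
        apply hnv e he
        have h0 := hne 0
        have h1 := hne 1
        have h2 := hne 2
        simp at h0 h1 h2
        simp [ha, h0, h1, h2]) (by
        intro j l hjl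
        exact hN' _ (hS j) _ (hS l) (fun h => hjl (hinj h)))
    refine ⟨_, hsE _ (hS j), ?_⟩
    rw [← hmap]
    exact hj

end simple

/-- The main claim. -/
theorem main_claim {k : Type*} [Field k] [CharZero k] {J : Type*} [DecidableEq J] {p : J → Vec k}
    {D : J → Fin 3 → Derivation ℤ k k} (hD : Indep p D) {V : Type} [Fintype V] [DecidableEq V]
    {src tgt : J → V} (E : Finset J)
    (hN : ∀ u w, u ≠ w → ∃ s ∈ Mot p src tgt E, s u ≠ s w) :
    finrank k (Mot p src tgt E) + fsum src tgt E = 6 * Fintype.card V := by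
  revert hN
  induction E using Finset.strongInduction with
  | H E ih =>
  intro hN
  have hNe : ∀ h : J, ∀ u w, u ≠ w → ∃ s ∈ Mot p src tgt (E.erase h), s u ≠ s w := by
    intro h u w huw
    obtain ⟨s, hs, hne⟩ := hN u w huw
    exact ⟨s, Mot_anti (Finset.erase_subset h E) hs, hne⟩
  have step : ∀ h ∈ E, finrank k ((Mot p src tgt (E.erase h)).map (rho p src tgt h)) +
      fsum src tgt (E.erase h) = fsum src tgt E →
      finrank k (Mot p src tgt E) + fsum src tgt E = 6 * Fintype.card V := by
    intro h hh h1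
    have h2 := ih (E.erase h) (Finset.erase_ssubset hh) (hNe h)
    have h3 := finrank_Mot_insert (p := p) (src := src) (tgt := tgt) (E.erase h) h
    rw [Finset.insert_erase hh] at h3
    omega
  rcases E.eq_empty_or_nonempty with rfl | hne
  · have h1 : Mot p src tgt ∅ = ⊤ := by
      rw [eq_top_iff]
      intro s _ e he
      simp at he
    rw [h1, finrank_top, fsum_empty, finrank_pi_fintype]
    simp
    ring
  by_cases hl : ∀ e ∈ E, src e ≠ tgt e
  swap
  · push Not at hl
    obtain ⟨h, hh, hst⟩ := hl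
    apply step h hh
    rw [fsum_erase_loop hst]
    have h1 : (Mot p src tgt (E.erase h)).map (rho p src tgt h) = ⊥ := by
      rw [eq_bot_iff]
      rintro _ ⟨s, _, rfl⟩
      rw [rho_apply, hst, sub_self, map_zero]
      exact Submodule.zero_mem _
    rw [h1, finrank_bot, zero_add]
  by_cases h3 : ∃ q, 3 ≤ mult src tgt E q
  · exfalso
    obtain ⟨q, hq⟩ := h3
    obtain ⟨a, b, c, ha, hb, hc, hab, hac, hbc⟩ := Finset.two_lt_card_iff.1 hq
    rw [Finset.mem_filter] at ha hb hc
    obtain ⟨s, hs, hsn⟩ := hN _ _ (hl a ha.1)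
    apply hsn
    rw [← sub_eq_zero]
    exact eq_zero_of_three hD hab hac hbc (ev_rel_of_par (h := a) rfl ha.1 hs)
      (ev_rel_of_par (h := a) (hb.2.trans ha.2.symm) hb.1 hs)
      (ev_rel_of_par (h := a) (hc.2.trans ha.2.symm) hc.1 hs)
  push Not at h3
  by_cases h2 : ∃ q, 2 ≤ mult src tgt E q
  · obtain ⟨q, hq⟩ := h2
    obtain ⟨a, b, ha, hb, hab⟩ := Finset.one_lt_card_iff.1 hq
    rw [Finset.mem_filter] at ha hb
    obtain ⟨s, hs, hsn⟩ := hN _ _ (hl a ha.1)
    apply step a ha.1
    rw [finrank_map_double hD ha.1 hb.1 hab.symm (hb.2.trans ha.2.symm) hs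
      (by rwa [rel_apply, ne_eq, sub_eq_zero])]
    have e1 := fsum_erase (src := src) (tgt := tgt) ha.1 (hl a ha.1)
    have e2 := mult_erase_self (src := src) (tgt := tgt) ha.1
    have e3 := h3 q
    have e4 : mult src tgt (E.erase a) s(src a, tgt a) = 1 := by
      rw [ha.2] at e2 ⊢
      omega
    rw [e4] at e1
    simp only [jf] at e1
    omega
  push Not at h2
  have hm : ∀ q, mult src tgt E q ≤ 1 := fun q => Nat.le_of_lt_succ (h2 q)
  have hme : ∀ h q, mult src tgt (E.erase h) q ≤ 1 := fun h q =>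
    (Finset.card_le_card (Finset.filter_subset_filter _ (Finset.erase_subset h E))).trans (hm q)
  obtain ⟨h, hh, hf⟩ : ∃ h ∈ E, (Mot p src tgt (E.erase h)).map (rho p src tgt h) = ⊤ := by
    apply exists_full hD hne hl hm hN
    obtain ⟨h, hh⟩ := hne
    have e1 := ih (E.erase h) (Finset.erase_ssubset hh) (hNe h)
    rw [fsum_simple (fun e he => hl e (Finset.mem_of_mem_erase he)) (hme h),
      Finset.card_erase_of_mem hh] at e1
    have e2 : finrank k (Mot p src tgt E) ≤ finrank k (Mot p src tgt (E.erase h)) :=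
      Submodule.finrank_mono (Mot_anti (Finset.erase_subset h E))
    have e3 : 0 < E.card := Finset.card_pos.2 ⟨h, hh⟩
    omega
  apply step h hh
  rw [hf, finrank_top, fsum_simple hl hm, fsum_simple
    (fun e he => hl e (Finset.mem_of_mem_erase he)) (hme h), Finset.card_erase_of_mem hh]
  have e3 : 0 < E.card := Finset.card_pos.2 ⟨h, hh⟩
  simp
  omega

end Pool.Agent.LG
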