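import Pool.Agent.Lib.MP_37c7bf_LG.MainClaim

/-!
Module Q. The partition attaining the rank.
-/

set_option autoImplicit false

open Module

namespace Pool.Agent.LG

/-- Q: the classes of mutually rigid bodies attain the rank. -/
theorem exists_partition {k : Type*} [Field k] [CharZero k] {J : Type*} [DecidableEq J]
    {p : J → Vec k} {D : J → Fin 3 → Derivation ℤ k k} (hD : Indep p D) {V : Type} [Fintype V]
    {src tgt : J → V} (E : Finset J) :
    ∃ (m : ℕ) (c : V → Fin m), Function.Surjective c ∧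
      finrank k (Mot p src tgt E) + fsum (c ∘ src) (c ∘ tgt) E = 6 * m := by
  classical
  let r : Setoid V := ⟨fun u w => ∀ s ∈ Mot p src tgt E, s u = s w, fun _ _ _ => rfl,
    fun h s hs => (h s hs).symm, fun h h' s hs => (h s hs).trans (h' s hs)⟩
  obtain ⟨m, ⟨e⟩⟩ : ∃ m, Nonempty (Quotient r ≃ Fin m) := ⟨_, ⟨Fintype.equivFin _⟩⟩
  let c : V → Fin m := fun v => e (Quotient.mk r v)
  have hc : Function.Surjective c := e.surjective.comp Quotient.mk_surjective
  have hcr : ∀ u w, c u = c w → ∀ s ∈ Mot p src tgt E, s u = s w :=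
    fun u w h => Quotient.exact (e.injective h)
  have hcr' : ∀ u w, c u ≠ c w → ∃ s ∈ Mot p src tgt E, s u ≠ s w := by
    intro u w h
    by_contra hcon
    push Not at hcon
    exact h (congrArg e (Quotient.sound (s := r) hcon))
  have hinj : Function.Injective (LinearMap.funLeft k (Scr k) c) :=
    LinearMap.funLeft_injective_of_surjective _ _ _ hc
  have hlift : ∀ s ∈ Mot p src tgt E, ∃ s' ∈ Mot p (c ∘ src) (c ∘ tgt) E, s' ∘ c = s := by
    intro s hs
    have h1 : (s ∘ Function.surjInv hc) ∘ c = s := by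
      funext v
      exact hcr _ _ (Function.surjInv_eq hc (c v)) s hs
    refine ⟨s ∘ Function.surjInv hc, ?_, h1⟩
    intro j hj
    have h2 := hs j hj
    rw [← h1] at h2
    exact h2
  have hmap : (Mot p (c ∘ src) (c ∘ tgt) E).map (LinearMap.funLeft k (Scr k) c) =
      Mot p src tgt E := by
    apply le_antisymm
    · rintro _ ⟨s', hs', rfl⟩
      exact hs'
    · intro s hs
      obtain ⟨s', hs', h⟩ := hlift s hs
      exact ⟨s', hs', h⟩
  refine ⟨m, c, hc, ?_⟩
  have h1 := main_claim (src := c ∘ src) (tgt := c ∘ tgt) hD E (by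
    intro u w huw
    obtain ⟨a, rfl⟩ := hc u
    obtain ⟨b, rfl⟩ := hc w
    obtain ⟨s, hs, hne⟩ := hcr' a b huw
    obtain ⟨s', hs', rfl⟩ := hlift s hs
    exact ⟨s', hs', hne⟩)
  rw [← hmap, ← (Submodule.equivMapOfInjective _ hinj _).finrank_eq]
  simpa using h1

end Pool.Agent.LG
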