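import Pool.Agent.Lib.MP_37c7bf_co_helper26.Defs

/-!
Definitions used in the statement: infinitesimal motions of a framework in three-space, vertex
sets which are rigid in a graph, and the freedom count of a partition of the set of bodies.
-/

set_option autoImplicit false

open MeasureTheory

namespace Pool.Agent.LG

open Pool.Agent.H26R

/-- `q` is an infinitesimal motion of the framework `(G, p)`. -/
def IsInfMotion {W : Type} (G : SimpleGraph W) (p q : W → E3) : Prop :=
  ∀ u w, G.Adj u w → inner ℝ (p u - p w) (q u - q w) = 0

/-- The space of infinitesimal motions of the framework `(G, p)`. -/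
def InfMotions {W : Type} (G : SimpleGraph W) (p : W → E3) : Submodule ℝ (W → E3) where
  carrier := {q | IsInfMotion G p q}
  add_mem' := by
    intro a b ha hb u w h
    have e : (a + b) u - (a + b) w = (a u - a w) + (b u - b w) := by
      simp only [Pi.add_apply]; abel
    rw [e, inner_add_right, ha u w h, hb u w h, add_zero]
  zero_mem' := by
    intro u w _
    simp
  smul_mem' := by
    intro r a ha u w h
    have e : (r • a) u - (r • a) w = r • (a u - a w) := by
      simp only [Pi.smul_apply, smul_sub]
    rw [e, inner_smul_right, ha u w h, mul_zero]

/-- The number of infinitesimal degrees of freedom of the framework `(G, p)`: the dimension of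
its space of infinitesimal motions. -/
noncomputable def dof {W : Type} (G : SimpleGraph W) (p : W → E3) : ℕ :=
  Module.finrank ℝ (InfMotions G p)

/-- The velocity at the point `x` of the infinitesimal rigid motion with angular velocity `ω`
and translation `t`. -/
noncomputable def rigidVelocity (ω t x : E3) : E3 :=
  WithLp.toLp 2 ![ω 1 * x 2 - ω 2 * x 1 + t 0, ω 2 * x 0 - ω 0 * x 2 + t 1,
    ω 0 * x 1 - ω 1 * x 0 + t 2]

/-- The vertex set `B` is rigid in `G`: at almost all realizations every infinitesimal motion
of `G` is an infinitesimal rigid motion on `B`. -/
def RigidIn {W : Type} [Fintype W] (G : SimpleGraph W) (B : Finset W) : Prop :=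
  ∀ᵐ p : W → E3 ∂volume, ∀ q : W → E3, IsInfMotion G p q → ∃ ω t : E3, ∀ w ∈ B,
    q w = rigidVelocity ω t (p w)

/-- The rank of `d` shared vertices (ball joints) between two bodies. -/
def jf : ℕ → ℕ
  | 0 => 0
  | 1 => 3
  | 2 => 5
  | _ => 6

/-- Correction term for small bodies: the dimension of the space of infinitesimal rigid motions
vanishing on `n` points in general position. -/
def corr : ℕ → ℕ
  | 0 => 6
  | 1 => 3
  | 2 => 1
  | _ => 0

/-- The number of vertices common to a body of the class `x` and a body of the class `y`. -/
noncomputable def shared {W V : Type} [Fintype W] (B : V → Finset W) {m : ℕ} (c : V → Fin m)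
    (x y : Fin m) : ℕ := by
  classical
  exact (Finset.univ.filter fun w => ∃ i j, c i = x ∧ c j = y ∧ w ∈ B i ∧ w ∈ B j).card

/-- The freedom count of a partition of the bodies into `m` classes: six for every class, minus
`jf` of the number of shared vertices for every pair of classes, minus the correction for bodies
with fewer than three vertices. -/
noncomputable def freedom {W V : Type} [Fintype W] [Fintype V] (B : V → Finset W) {m : ℕ}
    (c : V → Fin m) : ℤ :=
  6 * (m : ℤ) - ∑ q : Fin m × Fin m with q.1 < q.2, (jf (shared B c q.1 q.2) : ℤ) -
    ∑ i, (corr (B i).card : ℤ)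

end Pool.Agent.LG
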