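import Pool.Agent.Lib.MP_37c7bf_LG.Defs
import Pool.Agent.Lib.MP_37c7bf_co_helper26.Generic

/-!
Module T, part 1: T1 and T2.
-/

set_option autoImplicit false

open Module MeasureTheory

namespace Pool.Agent.LG

open Pool.Agent.H26R

/-- T1: the zero set of a nonzero polynomial is null. -/
theorem ae_eval_ne_zero {J : Type} [Fintype J] (Q : MvPolynomial (J × Fin 3) ℝ) (hQ : Q ≠ 0) :
    ∀ᵐ x : J → E3 ∂volume, MvPolynomial.eval (fun q : J × Fin 3 => x q.1 q.2) Q ≠ 0 := by
  obtain ⟨y, hy⟩ : ∃ y : J × Fin 3 → ℝ, MvPolynomial.eval y Q ≠ 0 := by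
    by_contra hcon
    push Not at hcon
    exact hQ (MvPolynomial.funext fun y => by rw [hcon y, map_zero])
  let p₀ : J → E3 := fun j => WithLp.toLp 2 fun i => y (j, i)
  have hp₀ : (fun q : J × Fin 3 => p₀ q.1 q.2) = y := by
    funext q
    rfl
  have hcont : Continuous fun x : J → E3 =>
      MvPolynomial.eval (fun q : J × Fin 3 => x q.1 q.2) Q := by
    apply (MvPolynomial.continuous_eval Q).comp
    fun_prop
  rw [ae_iff]
  apply null_of_lines volume (p₀ := p₀)
  · apply IsClosed.measurableSet
    have : {x : J → E3 | ¬MvPolynomial.eval (fun q : J × Fin 3 => x q.1 q.2) Q ≠ 0} =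
        (fun x : J → E3 => MvPolynomial.eval (fun q : J × Fin 3 => x q.1 q.2) Q) ⁻¹' {0} := by
      ext x; simp
    rw [this]
    exact isClosed_singleton.preimage hcont
  · intro x
    let g : Polynomial ℝ := MvPolynomial.aeval (fun q : J × Fin 3 =>
      Polynomial.C (p₀ q.1 q.2) + Polynomial.X * Polynomial.C (x q.1 q.2 - p₀ q.1 q.2)) Q
    have hg : ∀ t : ℝ, g.eval t =
        MvPolynomial.eval (fun q : J × Fin 3 => (p₀ + t • (x - p₀)) q.1 q.2) Q := by
      intro t
      have h1 : (Polynomial.evalRingHom t).comp (MvPolynomial.aeval (fun q : J × Fin 3 =>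
          Polynomial.C (p₀ q.1 q.2) + Polynomial.X * Polynomial.C (x q.1 q.2 - p₀ q.1 q.2))
          : MvPolynomial (J × Fin 3) ℝ →ₐ[ℝ] Polynomial ℝ).toRingHom =
          MvPolynomial.eval (fun q : J × Fin 3 => (p₀ + t • (x - p₀)) q.1 q.2) := by
        apply MvPolynomial.ringHom_ext
        · intro r
          simp
        · intro q
          simp
      exact congrArg (fun φ : MvPolynomial (J × Fin 3) ℝ →+* ℝ => φ Q) h1
    have hg0 : g ≠ 0 := by
      intro h
      have h1 := hg 0
      rw [h, Polynomial.eval_zero, zero_smul, add_zero, hp₀] at h1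
      exact hy h1.symm
    refine Set.Finite.countable (Set.Finite.subset (g.roots.toFinset.finite_toSet) ?_)
    intro t ht
    rw [Finset.mem_coe, Multiset.mem_toFinset, Polynomial.mem_roots hg0, Polynomial.IsRoot, hg]
    simpa using ht

/-- clearing denominators in a matrix -/
theorem exists_clear {R k : Type*} [CommRing R] [IsDomain R] [Field k] [Algebra R k]
    [IsFractionRing R k] {a b : Type*} [Finite a] [Finite b] (A : Matrix a b k) :
    ∃ (c : R) (A' : Matrix a b R), c ≠ 0 ∧ A'.map (algebraMap R k) = algebraMap R k c • A := by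
  obtain ⟨c, hc⟩ := IsLocalization.exist_integer_multiples_of_finite (nonZeroDivisors R)
    (fun q : a × b => A q.1 q.2)
  choose f hf using hc
  refine ⟨c, Matrix.of fun i j => f (i, j), nonZeroDivisors.ne_zero c.2, ?_⟩
  refine Matrix.ext fun i j => ?_
  rw [Matrix.map_apply, Matrix.of_apply, Matrix.smul_apply, smul_eq_mul, hf]
  exact Algebra.smul_def _ _

/-- An augmented matrix with a left inverse. -/
theorem exists_left_inverse {R k : Type*} [CommRing R] [IsDomain R] [Field k] [Algebra R k]
    [IsFractionRing R k] {m n : Type*} [Fintype m] [Fintype n] [DecidableEq n]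
    (M : Matrix m n R) :
    ∃ (A' : Matrix (Fin (finrank k (LinearMap.ker (M.map (algebraMap R k)).mulVecLin))) n R)
      (N' : Matrix n (m ⊕ Fin (finrank k (LinearMap.ker (M.map (algebraMap R k)).mulVecLin))) R)
      (c : R), c ≠ 0 ∧ N' * Matrix.fromRows M A' = c • (1 : Matrix n n R) := by
  classical
  set L := (M.map (algebraMap R k)).mulVecLin with hL
  set d := finrank k (LinearMap.ker L) with hd
  -- a linear map which is injective on the kernel
  obtain ⟨P, hP⟩ := (LinearMap.ker L).exists_isCompl
  let e : LinearMap.ker L ≃ₗ[k] (Fin d → k) := (finBasis k (LinearMap.ker L)).equivFun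
  let A : (n → k) →ₗ[k] (Fin d → k) := e.toLinearMap.comp ((LinearMap.ker L).projectionOnto P hP)
  have hA : ∀ v ∈ LinearMap.ker L, A v = 0 → v = 0 := by
    intro v hv h
    have h1 : (LinearMap.ker L).projectionOnto P hP v = 0 := by
      apply e.injective
      rw [map_zero]
      exact h
    have h2 := Submodule.projectionOnto_apply_left hP ⟨v, hv⟩
    rw [h1] at h2
    exact (congrArg Subtype.val h2).symm
  obtain ⟨c1, A', hc1, hA'⟩ := exists_clear (R := R) (LinearMap.toMatrix' A)
  have hc1k : algebraMap R k c1 ≠ 0 := by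
    rwa [Ne, FaithfulSMul.algebraMap_eq_zero_iff]
  -- the augmented matrix is injective
  have hinj : Function.Injective (Matrix.fromRows (M.map (algebraMap R k))
      (A'.map (algebraMap R k))).mulVecLin := by
    rw [injective_iff_map_eq_zero]
    intro v hv
    have hv' : (Matrix.fromRows (M.map (algebraMap R k)) (A'.map (algebraMap R k))).mulVec v = 0 := hv
    rw [Matrix.fromRows_mulVec] at hv'
    have h1 : (M.map (algebraMap R k)).mulVec v = 0 := by
      funext i
      exact congrFun hv' (Sum.inl i)
    have h2 : (A'.map (algebraMap R k)).mulVec v = 0 := by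
      funext i
      exact congrFun hv' (Sum.inr i)
    apply hA v h1
    rw [hA', Matrix.smul_mulVec] at h2
    have h3 := (smul_eq_zero.1 h2).resolve_left hc1k
    rw [← LinearMap.toMatrix'_mulVec]
    exact h3
  obtain ⟨N, hN⟩ := LinearMap.exists_leftInverse_of_injective _ (LinearMap.ker_eq_bot.2 hinj)
  obtain ⟨c2, N', hc2, hN'⟩ := exists_clear (R := R) (LinearMap.toMatrix' N)
  have hprod : N' * Matrix.fromRows M A' = c2 • (1 : Matrix n n R) := by
    have h1 : (N' * Matrix.fromRows M A').map (algebraMap R k) =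
        (c2 • (1 : Matrix n n R)).map (algebraMap R k) := by
      rw [Matrix.map_mul, hN', Matrix.fromRows_map, Matrix.smul_mul]
      have h2 : LinearMap.toMatrix' N * Matrix.fromRows (M.map (algebraMap R k))
          (A'.map (algebraMap R k)) = 1 := by
        have h3 := congrArg LinearMap.toMatrix' hN
        rw [LinearMap.toMatrix'_comp, LinearMap.toMatrix'_id, ← Matrix.toLin'_apply',
          LinearMap.toMatrix'_toLin'] at h3
        exact h3
      rw [h2]
      ext i j
      simp only [Matrix.smul_apply, Matrix.map_apply, smul_eq_mul, map_mul, Matrix.one_apply]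
      split_ifs <;> simp
    refine Matrix.ext fun i j => ?_
    have h2 := congrFun (congrFun h1 i) j
    rw [Matrix.map_apply, Matrix.map_apply] at h2
    exact FaithfulSMul.algebraMap_injective R k h2
  exact ⟨A', N', c2, hc2, hprod⟩

/-- T2: the kernel of a polynomial matrix at almost all real points is not larger than over the
field of rational functions. -/
theorem ae_ker_le {J : Type} [Fintype J] {k : Type} [Field k]
    [Algebra (MvPolynomial (J × Fin 3) ℝ) k] [IsFractionRing (MvPolynomial (J × Fin 3) ℝ) k]
    {m n : Type} [Fintype m] [Fintype n] [DecidableEq n]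
    (M : Matrix m n (MvPolynomial (J × Fin 3) ℝ)) :
    ∀ᵐ x : J → E3 ∂volume,
      finrank ℝ (LinearMap.ker
        (M.map (MvPolynomial.eval (fun q : J × Fin 3 => x q.1 q.2))).mulVecLin) ≤
      finrank k (LinearMap.ker
        (M.map (algebraMap (MvPolynomial (J × Fin 3) ℝ) k)).mulVecLin) := by
  obtain ⟨A', N', c2, hc2, hprod⟩ := exists_left_inverse (k := k) M
  filter_upwards [ae_eval_ne_zero c2 hc2] with x hx
  set ε := MvPolynomial.eval (fun q : J × Fin 3 => x q.1 q.2) with hε
  let B : LinearMap.ker (M.map ε).mulVecLin →ₗ[ℝ] (Fin (finrank k (LinearMap.ker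
      (M.map (algebraMap (MvPolynomial (J × Fin 3) ℝ) k)).mulVecLin)) → ℝ) :=
    (A'.map ε).mulVecLin.comp (LinearMap.ker (M.map ε).mulVecLin).subtype
  have hB : Function.Injective B := by
    rw [injective_iff_map_eq_zero]
    rintro ⟨v, hv⟩ h
    have h1 : (M.map ε).mulVec v = 0 := hv
    have h2 : (A'.map ε).mulVec v = 0 := h
    have h3 : ((N' * Matrix.fromRows M A').map ε).mulVec v = 0 := by
      rw [Matrix.map_mul, Matrix.fromRows_map, ← Matrix.mulVec_mulVec, Matrix.fromRows_mulVec,
        h1, h2]
      rw [Sum.elim_zero_zero, Matrix.mulVec_zero]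
    have h4 : (N' * Matrix.fromRows M A').map ε = ε c2 • (1 : Matrix n n ℝ) := by
      rw [hprod]
      ext i j
      simp only [Matrix.smul_apply, Matrix.map_apply, smul_eq_mul, map_mul, Matrix.one_apply]
      split_ifs <;> simp
    rw [h4, Matrix.smul_mulVec, Matrix.one_mulVec] at h3
    exact Subtype.ext ((smul_eq_zero.1 h3).resolve_left hx)
  have := LinearMap.finrank_le_finrank_of_injective hB
  rwa [finrank_fin_fun] at this

end Pool.Agent.LG
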